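import Mathlib

/-!
Arithmetical hierarchy by alternating number quantifiers over primitive recursive predicates.
-/

namespace FD55

/-- `Sg n P`: the predicate `P` is `Sigma^0_n` (for `n = 0`: primitive recursive). -/
def Sg : ℕ → ∀ {α : Type} [Primcodable α], (α → Prop) → Prop
  | 0, _, _, P => PrimrecPred P
  | n + 1, α, _, P => ∃ R : α × ℕ → Prop, Sg n (fun x => ¬ R x) ∧ ∀ x, P x ↔ ∃ t, R (x, t)

section
variable {α β γ : Type} [Primcodable α] [Primcodable β] [Primcodable γ]

theorem Sg.congr {n : ℕ} {P Q : α → Prop} (h : Sg n P) (e : ∀ x, P x ↔ Q x) : Sg n Q := by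
  have : P = Q := funext fun x => propext (e x)
  exact this ▸ h

theorem Sg.comp : ∀ {n : ℕ} {α β : Type} [Primcodable α] [Primcodable β] {P : β → Prop}
    {f : α → β}, Sg n P → Primrec f → Sg n (fun x => P (f x))
  | 0, _, _, _, _, _, _, h, hf => PrimrecPred.comp h hf
  | n + 1, α, β, _, _, P, f, ⟨R, hR, hP⟩, hf => by
      refine ⟨fun x => R (f x.1, x.2), ?_, fun x => hP (f x)⟩
      exact Sg.comp (f := fun x : α × ℕ => (f x.1, x.2)) hR
        ((hf.comp Primrec.fst).pair Primrec.snd)

theorem Sg.of_not {n : ℕ} {P : α → Prop} (h : Sg n (fun x => ¬ P x)) : Sg (n + 1) P := by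
  refine ⟨fun x => P x.1, ?_, fun x => ⟨fun h => ⟨0, h⟩, fun ⟨_, h⟩ => h⟩⟩
  exact Sg.comp (f := Prod.fst) h Primrec.fst

theorem Sg.succ : ∀ {n : ℕ} {α : Type} [Primcodable α] {P : α → Prop}, Sg n P → Sg (n + 1) P
  | 0, _, _, _, h => Sg.of_not (n := 0) (PrimrecPred.not h)
  | _ + 1, _, _, _, ⟨R, hR, hP⟩ => ⟨R, Sg.succ hR, hP⟩

theorem Sg.mono {m n : ℕ} (hmn : m ≤ n) {P : α → Prop} (h : Sg m P) : Sg n P := by
  induction hmn with
  | refl => exact h
  | step _ ih => exact ih.succ

theorem Sg.and_or : ∀ {n : ℕ} {α : Type} [Primcodable α] {P Q : α → Prop},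
    Sg n P → Sg n Q → (Sg n (fun x => P x ∧ Q x) ∧ Sg n (fun x => P x ∨ Q x))
  | 0, _, _, _, _, h, h' => ⟨PrimrecPred.and h h', PrimrecPred.or h h'⟩
  | n + 1, α, _, P, Q, ⟨R, hR, hP⟩, ⟨R', hR', hQ⟩ => by
      have k1 : Sg n (fun x : α × ℕ => ¬ R (x.1, x.2.unpair.1)) :=
        Sg.comp (f := fun x : α × ℕ => (x.1, x.2.unpair.1)) hR
          (Primrec.fst.pair (Primrec.fst.comp (Primrec.unpair.comp Primrec.snd)))
      have k2 : Sg n (fun x : α × ℕ => ¬ R' (x.1, x.2.unpair.2)) :=
        Sg.comp (f := fun x : α × ℕ => (x.1, x.2.unpair.2)) hR'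
          (Primrec.fst.pair (Primrec.snd.comp (Primrec.unpair.comp Primrec.snd)))
      obtain ⟨kand, kor⟩ := Sg.and_or k1 k2
      constructor
      · refine ⟨fun x => R (x.1, x.2.unpair.1) ∧ R' (x.1, x.2.unpair.2), ?_, ?_⟩
        · exact kor.congr fun x => by tauto
        · intro x
          show P x ∧ Q x ↔ _
          rw [hP, hQ]
          constructor
          · rintro ⟨⟨a, ha⟩, ⟨b, hb⟩⟩
            exact ⟨Nat.pair a b, by simpa using ha, by simpa using hb⟩
          · rintro ⟨t, h1, h2⟩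
            exact ⟨⟨_, h1⟩, ⟨_, h2⟩⟩
      · refine ⟨fun x => R (x.1, x.2.unpair.1) ∨ R' (x.1, x.2.unpair.2), ?_, ?_⟩
        · exact kand.congr fun x => by tauto
        · intro x
          show P x ∨ Q x ↔ _
          rw [hP, hQ]
          constructor
          · rintro (⟨a, ha⟩ | ⟨b, hb⟩)
            · exact ⟨Nat.pair a 0, Or.inl (by simpa using ha)⟩
            · exact ⟨Nat.pair 0 b, Or.inr (by simpa using hb)⟩
          · rintro ⟨t, h1 | h2⟩
            · exact Or.inl ⟨_, h1⟩
            · exact Or.inr ⟨_, h2⟩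

theorem Sg.and {n : ℕ} {P Q : α → Prop} (h : Sg n P) (h' : Sg n Q) :
    Sg n (fun x => P x ∧ Q x) := (Sg.and_or h h').1

theorem Sg.or {n : ℕ} {P Q : α → Prop} (h : Sg n P) (h' : Sg n Q) :
    Sg n (fun x => P x ∨ Q x) := (Sg.and_or h h').2

theorem Sg.exNat {n : ℕ} {P : α × ℕ → Prop} (h : Sg (n + 1) P) :
    Sg (n + 1) (fun x => ∃ t, P (x, t)) := by
  obtain ⟨R, hR, hP⟩ := h
  refine ⟨fun x => R ((x.1, x.2.unpair.1), x.2.unpair.2), ?_, ?_⟩
  · exact Sg.comp (f := fun x : α × ℕ => ((x.1, x.2.unpair.1), x.2.unpair.2)) hR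
      ((Primrec.fst.pair (Primrec.fst.comp (Primrec.unpair.comp Primrec.snd))).pair
        (Primrec.snd.comp (Primrec.unpair.comp Primrec.snd)))
  · intro x
    constructor
    · rintro ⟨t, ht⟩
      obtain ⟨s, hs⟩ := (hP _).1 ht
      exact ⟨Nat.pair t s, by simpa using hs⟩
    · rintro ⟨t, ht⟩
      exact ⟨t.unpair.1, (hP _).2 ⟨_, ht⟩⟩

theorem Sg.ex [Inhabited β] {n : ℕ} {P : α × β → Prop} (h : Sg (n + 1) P) :
    Sg (n + 1) (fun x => ∃ y, P (x, y)) := by
  have k : Sg (n + 1) (fun x : α × ℕ => P (x.1, ((Encodable.decode x.2 : Option β)).getD default)) :=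
    Sg.comp (f := fun x : α × ℕ => (x.1, ((Encodable.decode x.2 : Option β)).getD default)) h
      (Primrec.fst.pair (Primrec.option_getD.comp (Primrec.decode.comp Primrec.snd)
        (Primrec.const default)))
  refine (Sg.exNat k).congr fun x => ?_
  constructor
  · rintro ⟨t, ht⟩
    exact ⟨_, ht⟩
  · rintro ⟨y, hy⟩
    exact ⟨Encodable.encode y, by simpa using hy⟩

/-- bounded quantifiers over numbers -/
theorem Sg.bdd : ∀ {n : ℕ} {α : Type} [Primcodable α] {P : α × ℕ → Prop}, Sg n P →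
    (Sg n (fun x : α × ℕ => ∀ i < x.2, P (x.1, i)) ∧ Sg n (fun x : α × ℕ => ∃ i < x.2, P (x.1, i)))
  | 0, α, _, P, h => by
      have hR : PrimrecRel (fun (i : ℕ) (x : α) => P (x, i)) :=
        PrimrecPred.comp (f := fun q : ℕ × α => (q.2, q.1)) h (Primrec.snd.pair Primrec.fst)
      constructor
      · exact ((PrimrecRel.forall_mem_list hR).comp (Primrec.list_range.comp Primrec.snd)
          Primrec.fst).of_eq fun x => by simp
      · exact ((PrimrecRel.exists_mem_list hR).comp (Primrec.list_range.comp Primrec.snd)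
          Primrec.fst).of_eq fun x => by simp
  | n + 1, α, _, P, h => by
      constructor
      · obtain ⟨R, hR, hP⟩ := h
        have k0 : Sg n (fun x : (α × List ℕ) × ℕ => ¬ R ((x.1.1, x.2), x.1.2.getD x.2 0)) :=
          Sg.comp (f := fun x : (α × List ℕ) × ℕ => ((x.1.1, x.2), x.1.2.getD x.2 0)) hR
            (((Primrec.fst.comp Primrec.fst).pair Primrec.snd).pair
              ((Primrec.list_getD 0).comp (Primrec.snd.comp Primrec.fst) Primrec.snd))
        have k1 := (Sg.bdd k0).2
        have k2 : Sg n (fun x : (α × ℕ) × List ℕ =>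
            ¬ ∀ i < x.1.2, R ((x.1.1, i), x.2.getD i 0)) := by
          refine (Sg.comp (f := fun x : (α × ℕ) × List ℕ => ((x.1.1, x.2), x.1.2)) k1
            (((Primrec.fst.comp Primrec.fst).pair Primrec.snd).pair
              (Primrec.snd.comp Primrec.fst))).congr fun x => ?_
          push Not
          rfl
        refine (Sg.ex (α := α × ℕ) (β := List ℕ) (Sg.of_not k2)).congr fun x => ?_
        constructor
        · rintro ⟨L, hL⟩ i hi
          exact (hP _).2 ⟨_, hL i hi⟩
        · intro H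
          have H' : ∀ i, ∃ t, i < x.2 → R ((x.1, i), t) := fun i => by
            by_cases hi : i < x.2
            · obtain ⟨t, ht⟩ := (hP _).1 (H i hi)
              exact ⟨t, fun _ => ht⟩
            · exact ⟨0, fun h => absurd h hi⟩
          choose g hg using H'
          refine ⟨(List.range x.2).map g, fun i hi => ?_⟩
          have : ((List.range x.2).map g).getD i 0 = g i := by
            rw [List.getD_eq_getElem?_getD]
            simp [hi]
          rw [this]
          exact hg i hi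
      · have hlt : Sg (n + 1) (fun x : (α × ℕ) × ℕ => x.2 < x.1.2) := by
          refine Sg.mono (Nat.zero_le _) (?_ : Sg 0 _)
          exact Primrec.nat_lt.comp Primrec.snd (Primrec.snd.comp Primrec.fst)
        have hp : Sg (n + 1) (fun x : (α × ℕ) × ℕ => P (x.1.1, x.2)) :=
          Sg.comp (f := fun x : (α × ℕ) × ℕ => (x.1.1, x.2)) h
            ((Primrec.fst.comp Primrec.fst).pair Primrec.snd)
        refine (Sg.exNat (hlt.and hp)).congr fun x => ?_
        constructor
        · rintro ⟨t, h1, h2⟩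
          exact ⟨t, h1, h2⟩
        · rintro ⟨t, h1, h2⟩
          exact ⟨t, h1, h2⟩

/-- bounded universal quantifier with a primitive recursive bound -/
theorem Sg.allLt {n : ℕ} {P : α × ℕ → Prop} (h : Sg n P) {b : α → ℕ} (hb : Primrec b) :
    Sg n (fun x => ∀ i < b x, P (x, i)) :=
  Sg.comp (f := fun x => (x, b x)) (Sg.bdd h).1 (Primrec.id.pair hb)

/-- bounded universal quantifier over a list -/
theorem Sg.allMem [Inhabited β] {n : ℕ} {P : α × β → Prop} (h : Sg n P) {L : α → List β}
    (hL : Primrec L) : Sg n (fun x => ∀ b ∈ L x, P (x, b)) := by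
  have k : Sg n (fun x : α × ℕ => P (x.1, (L x.1).getD x.2 default)) :=
    Sg.comp (f := fun x : α × ℕ => (x.1, (L x.1).getD x.2 default)) h
      (Primrec.fst.pair ((Primrec.list_getD default).comp (hL.comp Primrec.fst) Primrec.snd))
  refine (k.allLt (Primrec.list_length.comp hL)).congr fun x => ?_
  constructor
  · intro H b hb
    obtain ⟨i, hi, rfl⟩ := List.getElem_of_mem hb
    have := H i hi
    rwa [List.getD_eq_getElem _ _ hi] at this
  · intro H i hi
    have := H ((L x)[i]) (List.getElem_mem hi)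
    rwa [← List.getD_eq_getElem _ default hi] at this

theorem Sg.const {n : ℕ} (p : Prop) : Sg n (fun _ : α => p) := by
  refine Sg.mono (Nat.zero_le _) (?_ : Sg 0 _)
  by_cases h : p
  · exact PrimrecPred.of_eq (Primrec.eq.comp (Primrec.const 0) (Primrec.const 0))
      (fun _ => by simp [h])
  · exact PrimrecPred.of_eq (Primrec.eq.comp (Primrec.const 0) (Primrec.const 1))
      (fun _ => by simp [h])

theorem Sg.prim {n : ℕ} {P : α → Prop} (h : PrimrecPred P) : Sg n P :=
  Sg.mono (Nat.zero_le _) (show Sg 0 P from h)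

theorem Sg.imp {n : ℕ} {P Q : α → Prop} (h : Sg n (fun x => ¬ P x)) (h' : Sg n Q) :
    Sg n (fun x => P x → Q x) := (h.or h').congr fun x => by tauto

/-- computable predicates are `Sigma_1` -/
theorem Sg.of_computable {P : α → Prop} (h : ComputablePred P) : Sg 1 P := by
  have hre := h.to_re
  unfold REPred at hre
  have := Partrec.bind_decode₂_iff.1 hre
  obtain ⟨c, hc⟩ := Nat.Partrec.Code.exists_code.1 this
  refine ⟨fun x => (Nat.Partrec.Code.evaln x.2 c (Encodable.encode x.1)).isSome = true, ?_, ?_⟩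
  · refine PrimrecPred.not ?_
    refine Primrec.eq.comp ?_ (Primrec.const true)
    refine Primrec.option_isSome.comp ?_
    exact Nat.Partrec.Code.primrec_evaln.comp
      ((Primrec.snd.pair (Primrec.const c)).pair (Primrec.encode.comp Primrec.fst))
  · intro x
    have e := congrFun hc (Encodable.encode x)
    simp only [Encodable.decode₂_encode, Part.coe_some, Part.bind_some] at e
    constructor
    · intro hx
      have : (0 : ℕ) ∈ c.eval (Encodable.encode x) := by
        rw [e]
        simp [Part.assert_pos hx]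
      obtain ⟨k, hk⟩ := Nat.Partrec.Code.evaln_complete.1 this
      exact ⟨k, by simp only; rw [Option.mem_def.1 hk]; rfl⟩
    · rintro ⟨k, hk⟩
      obtain ⟨y, hy⟩ := Option.isSome_iff_exists.1 hk
      have := Nat.Partrec.Code.evaln_sound (Option.mem_def.2 hy)
      rw [e] at this
      by_contra hx
      simp [Part.assert_neg hx] at this

end

/-- `Delta^0_3` predicates (equivalently, by Post's theorem, predicates computable in `0''`). -/
def Delta3 {α : Type} [Primcodable α] (P : α → Prop) : Prop :=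
  (∃ R : (α × ℕ) × ℕ × ℕ → Prop, ComputablePred R ∧ ∀ x, P x ↔ ∃ a, ∀ b, ∃ c, R ((x, a), b, c)) ∧
  (∃ R : (α × ℕ) × ℕ × ℕ → Prop, ComputablePred R ∧ ∀ x, ¬ P x ↔ ∃ a, ∀ b, ∃ c, R ((x, a), b, c))

theorem Sg.three {α : Type} [Primcodable α] {P : α → Prop} (h : Sg 3 P) :
    ∃ R : (α × ℕ) × ℕ × ℕ → Prop, ComputablePred R ∧ ∀ x, P x ↔ ∃ a, ∀ b, ∃ c, R ((x, a), b, c) := by
  obtain ⟨R1, ⟨R2, ⟨R3, h3, e3⟩, e2⟩, e1⟩ := h
  refine ⟨fun x => R3 (((x.1.1, x.1.2), x.2.1), x.2.2), ?_, fun x => ?_⟩
  · have h3' : PrimrecPred (fun x => ¬ R3 x) := h3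
    have h3'' : PrimrecPred R3 := (PrimrecPred.not h3').of_eq fun x => by simp
    refine PrimrecPred.computablePred ?_
    exact h3''.comp (f := fun x : (α × ℕ) × ℕ × ℕ => (((x.1.1, x.1.2), x.2.1), x.2.2))
      (((((Primrec.fst.comp Primrec.fst).pair (Primrec.snd.comp Primrec.fst)).pair
        (Primrec.fst.comp Primrec.snd)).pair (Primrec.snd.comp Primrec.snd)))
  · rw [e1]
    refine exists_congr fun a => ?_
    have e2' := e2 (x, a)
    constructor
    · intro h b
      have : ¬ R2 ((x, a), b) := fun h' => e2'.2 ⟨b, h'⟩ h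
      exact (e3 _).1 this
    · intro h
      by_contra h'
      obtain ⟨b, hb⟩ := e2'.1 h'
      exact (e3 _).2 (h b) hb

theorem Delta3.of_Sg {α : Type} [Primcodable α] {P : α → Prop} (h : Sg 3 P)
    (h' : Sg 3 (fun x => ¬ P x)) : Delta3 P := ⟨h.three, h'.three⟩

end FD55
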