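import Mathlib
import Pool.Agent.Lib.MP_fd2900_lc.H55.Arith

/-!
Languages, computable structures, strongly minimal theories; families of definable predicates.
-/

namespace FD55

open FirstOrder FirstOrder.Language

/-- The relational language with signature `sig`: the symbol `i` is present and has arity `n` iff
`sig i = some n`. -/
abbrev Lg (sig : ℕ → Option ℕ) : FirstOrder.Language.{0, 0} :=
  ⟨fun _ => Empty, fun n => {i : ℕ // sig i = some n}⟩

/-- the relation symbol `i` holds of the list `l` (in particular the arity is right) -/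
def Holds (sig : ℕ → Option ℕ) {N : Type} (S : (Lg sig).Structure N) (i : ℕ) (l : List N) : Prop :=
  ∃ h : sig i = some l.length, S.RelMap (n := l.length) ⟨i, h⟩ l.get

/-- bundled nonempty structures -/
structure Str (sig : ℕ → Option ℕ) where
  /-- the universe -/
  C : Type
  /-- the structure -/
  str : (Lg sig).Structure C
  ne : Nonempty C

attribute [instance] Str.str Str.ne

variable {sig : ℕ → Option ℕ}

/-- truth of an atomic fact: `s = 0` is equality, `s = i + 1` is the relation symbol `i` -/
def HoldE (N : Str sig) (s : ℕ) (l : List N.C) : Prop :=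
  (s = 0 ∧ ∃ a, l = [a, a]) ∨ (∃ i, s = i + 1 ∧ Holds sig N.str i l)

/-- definable families of predicates, uniformly in all structures -/
def DefP {α : Type} (P : ∀ N : Str sig, (α → N.C) → Prop) : Prop :=
  ∃ φ : (Lg sig).Formula α, ∀ (N : Str sig) (v : α → N.C), P N v ↔ φ.Realize v

section
variable {α β : Type}

theorem DefP.congr {P Q : ∀ N : Str sig, (α → N.C) → Prop} (h : DefP P)
    (e : ∀ N v, P N v ↔ Q N v) : DefP Q := by
  obtain ⟨φ, hφ⟩ := h
  exact ⟨φ, fun N v => (e N v).symm.trans (hφ N v)⟩

theorem DefP.false : DefP (sig := sig) (fun _ (_ : α → _) => False) :=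
  ⟨⊥, fun N v => by simp [Formula.Realize]⟩

theorem DefP.imp {P Q : ∀ N : Str sig, (α → N.C) → Prop} (h : DefP P) (h' : DefP Q) :
    DefP (fun N v => P N v → Q N v) := by
  obtain ⟨φ, hφ⟩ := h
  obtain ⟨ψ, hψ⟩ := h'
  exact ⟨φ.imp ψ, fun N v => by
    show (P N v → Q N v) ↔ _
    rw [hφ, hψ, Formula.realize_imp]⟩

theorem DefP.not {P : ∀ N : Str sig, (α → N.C) → Prop} (h : DefP P) :
    DefP (fun N v => ¬ P N v) := (h.imp DefP.false).congr fun _ _ => Iff.rfl

theorem DefP.and {P Q : ∀ N : Str sig, (α → N.C) → Prop} (h : DefP P) (h' : DefP Q) :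
    DefP (fun N v => P N v ∧ Q N v) := (h.imp h'.not).not.congr fun _ _ => by tauto

theorem DefP.or {P Q : ∀ N : Str sig, (α → N.C) → Prop} (h : DefP P) (h' : DefP Q) :
    DefP (fun N v => P N v ∨ Q N v) := (h.not.imp h').congr fun _ _ => by tauto

theorem DefP.iff {P Q : ∀ N : Str sig, (α → N.C) → Prop} (h : DefP P) (h' : DefP Q) :
    DefP (fun N v => (P N v ↔ Q N v)) := ((h.imp h').and (h'.imp h)).congr fun _ _ => by tauto

theorem DefP.const (p : Prop) : DefP (sig := sig) (fun _ (_ : α → _) => p) := by
  by_cases hp : p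
  · exact (DefP.false.not).congr fun _ _ => by simp [hp]
  · exact DefP.false.congr fun _ _ => by simp [hp]

theorem DefP.eq (a b : α) : DefP (sig := sig) (fun _ v => v a = v b) :=
  ⟨Term.equal (Term.var a) (Term.var b), fun N v => by simp⟩

theorem DefP.holdE (s : ℕ) (l : List α) : DefP (sig := sig) (fun N v => HoldE N s (l.map v)) := by
  rcases s with _ | i
  · -- equality
    rcases l with _ | ⟨a, _ | ⟨b, _ | ⟨c, l⟩⟩⟩
    · exact DefP.false.congr fun N v => by simp [HoldE]
    · exact DefP.false.congr fun N v => by simp [HoldE]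
    · refine (DefP.eq a b).congr fun N v => ?_
      simp only [HoldE, List.map_cons, List.map_nil, true_and]
      constructor
      · intro h; left; exact ⟨v a, by rw [h]⟩
      · rintro (⟨c, hc⟩ | ⟨i, hi, _⟩)
        · simp only [List.cons.injEq, and_true] at hc
          rw [hc.1, hc.2]
        · simp at hi
    · exact DefP.false.congr fun N v => by simp [HoldE]
  · by_cases h : sig i = some l.length
    · refine ⟨Relations.formula (L := Lg sig) (⟨i, h⟩ : (Lg sig).Relations l.length)
        (fun j => Term.var (l.get j)), fun N v => ?_⟩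
      rw [Formula.realize_rel]
      simp only [HoldE, Nat.succ_ne_zero, false_and, false_or, Term.realize_var]
      constructor
      · rintro ⟨i', hi', h', hR⟩
        obtain rfl : i = i' := by omega
        have key : ∀ (m : ℕ) (e : m = l.length) (h1 : sig i = some m) (g : Fin m → N.C),
            (N.str.RelMap (n := m) ⟨i, h1⟩ g ↔
              N.str.RelMap (n := l.length) ⟨i, h⟩ (fun j => g (Fin.cast e.symm j))) := by
          intro m e h1 g
          subst e
          rfl
        have := (key _ (List.length_map v) h' _).1 hR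
        convert this using 1
        funext j
        simp
      · intro hR
        have h' : sig i = some (l.map v).length := by rw [List.length_map]; exact h
        refine ⟨i, rfl, h', ?_⟩
        have key : ∀ (m : ℕ) (e : m = l.length) (h1 : sig i = some m) (g : Fin m → N.C),
            (N.str.RelMap (n := m) ⟨i, h1⟩ g ↔
              N.str.RelMap (n := l.length) ⟨i, h⟩ (fun j => g (Fin.cast e.symm j))) := by
          intro m e h1 g
          subst e
          rfl
        refine (key _ (List.length_map v) h' _).2 ?_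
        convert hR using 1
        funext j
        simp
    · refine DefP.false.congr fun N v => ?_
      simp only [HoldE, Nat.succ_ne_zero, false_and, false_or, false_iff]
      rintro ⟨i', hi', h', _⟩
      obtain rfl : i = i' := by omega
      rw [List.length_map] at h'
      exact h h'

theorem DefP.comap {P : ∀ N : Str sig, (α → N.C) → Prop} (h : DefP P) (g : α → β) :
    DefP (fun N (v : β → N.C) => P N (v ∘ g)) := by
  obtain ⟨φ, hφ⟩ := h
  exact ⟨φ.relabel g, fun N v => by
    show P N (v ∘ g) ↔ _
    rw [hφ, Formula.realize_relabel]⟩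

theorem formula_support (φ : (Lg sig).Formula α) : ∃ s : Finset α, ∀ (N : Str sig)
    (v v' : α → N.C), (∀ a ∈ s, v a = v' a) → (φ.Realize v ↔ φ.Realize v') := by
  classical
  refine ⟨φ.freeVarFinset, fun N v v' hv => ?_⟩
  have h1 := BoundedFormula.realize_restrictFreeVar (M := N.C) (φ := φ)
    (f := (id : φ.freeVarFinset → φ.freeVarFinset)) (v := fun a => v a.1) (xs := default) v
    (fun a => rfl)
  have h2 := BoundedFormula.realize_restrictFreeVar (M := N.C) (φ := φ)
    (f := (id : φ.freeVarFinset → φ.freeVarFinset)) (v := fun a => v a.1) (xs := default) v'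
    (fun a => hv a.1 a.2)
  exact h1.symm.trans h2

theorem DefP.exBlock {P : ∀ N : Str sig, (α ⊕ ℕ → N.C) → Prop} (h : DefP P) :
    DefP (fun N v => ∃ u : ℕ → N.C, P N (Sum.elim v u)) := by
  classical
  obtain ⟨φ, hφ⟩ := h
  obtain ⟨s, hs⟩ := formula_support φ
  set n := (s.toRight.sup id) + 1 with hn
  have hlt : ∀ m, Sum.inr m ∈ s → m < n := fun m hm =>
    Nat.lt_succ_of_le (Finset.le_sup (f := id) (Finset.mem_toRight.2 hm))
  let g : α ⊕ ℕ → α ⊕ Fin n := Sum.map id (fun m => if hm : m < n then ⟨m, hm⟩ else ⟨0, by omega⟩)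
  refine ⟨(φ.relabel g).iExs (Fin n), fun N v => ?_⟩
  rw [Formula.realize_iExs]
  simp only [Formula.realize_relabel, hφ]
  constructor
  · rintro ⟨u, hu⟩
    refine ⟨fun i => u i.1, (hs N _ _ ?_).1 hu⟩
    rintro (a | m) ha
    · rfl
    · have hm := hlt m ha
      simp [g, hm]
  · rintro ⟨u, hu⟩
    refine ⟨fun m => if hm : m < n then u ⟨m, hm⟩ else u ⟨0, by omega⟩, (hs N _ _ ?_).1 hu⟩
    rintro (a | m) ha
    · rfl
    · have hm := hlt m ha
      simp [g, hm]

theorem DefP.allMem {γ : Type} {P : γ → ∀ N : Str sig, (α → N.C) → Prop} (L : List γ)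
    (h : ∀ c ∈ L, DefP (P c)) : DefP (fun N v => ∀ c ∈ L, P c N v) := by
  induction L with
  | nil => exact (DefP.const True).congr fun N v => by simp
  | cons a L ih =>
      refine ((h a (by simp)).and (ih fun c hc => h c (by simp [hc]))).congr fun N v => ?_
      simp

end

end FD55
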