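import Mathlib
import Pool.Agent.Lib.MP_fd2900_lc.H55.Defs

/-!
Minimal structures; counting quantifiers.
-/

namespace FD55

open FirstOrder FirstOrder.Language

variable {sig : ℕ → Option ℕ}

/-- minimal structures: every subset definable with parameters is finite or cofinite -/
def MinimalStr (M : Str sig) : Prop :=
  ∀ (n : ℕ) (ψ : (Lg sig).Formula (Fin n ⊕ Unit)) (b : Fin n → M.C),
    {a | ψ.Realize (Sum.elim b fun _ => a)}.Finite ∨ {a | ¬ ψ.Realize (Sum.elim b fun _ => a)}.Finite

variable {α β : Type}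

theorem MinimalStr.def {M : Str sig} (hM : MinimalStr M)
    {P : ∀ N : Str sig, (α ⊕ Unit → N.C) → Prop} (hP : DefP P)
    (v : α → M.C) : {a | P M (Sum.elim v fun _ => a)}.Finite ∨
      {a | ¬ P M (Sum.elim v fun _ => a)}.Finite := by
  classical
  obtain ⟨φ, hφ⟩ := hP
  obtain ⟨s, hs⟩ := formula_support φ
  set l := s.toLeft.toList with hl
  let g : α ⊕ Unit → Fin (l.length + 1) ⊕ Unit :=
    Sum.map (fun a => ⟨l.idxOf a, Nat.lt_succ_of_le List.idxOf_le_length⟩) id
  let b : Fin (l.length + 1) → M.C := fun i =>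
    if h : i.1 < l.length then v (l[i.1]) else Classical.arbitrary _
  have key : ∀ a, P M (Sum.elim v fun _ => a) ↔
      (φ.relabel g).Realize (Sum.elim b fun _ => a) := by
    intro a
    rw [hφ, Formula.realize_relabel]
    refine hs M _ _ ?_
    rintro (x | x) hx
    · have hx' : x ∈ l := by rw [hl, Finset.mem_toList, Finset.mem_toLeft]; exact hx
      have hi : l.idxOf x < l.length := List.idxOf_lt_length_iff.2 hx'
      simp [g, b, hi]
    · rfl
  simp only [key]
  exact hM _ _ b

/-- at least `k` solutions -/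
def Cnt (k : ℕ) (P : ∀ N : Str sig, (α ⊕ Unit → N.C) → Prop) (N : Str sig) (v : α → N.C) : Prop :=
  ∃ s : Finset N.C, s.card = k ∧ ∀ y ∈ s, P N (Sum.elim v fun _ => y)

theorem exists_finset_iff {X : Type} [Nonempty X] (k : ℕ) (Q : X → Prop) :
    (∃ s : Finset X, s.card = k ∧ ∀ y ∈ s, Q y) ↔
      ∃ u : ℕ → X, ∀ j ∈ List.range k, (∀ j' ∈ List.range j, ¬ u j' = u j) ∧ Q (u j) := by
  classical
  constructor
  · rintro ⟨s, hs, h⟩
    let e := (Finset.equivFinOfCardEq hs).symm
    refine ⟨fun j => if hj : j < k then (e ⟨j, hj⟩ : X) else Classical.arbitrary X, ?_⟩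
    intro j hj
    rw [List.mem_range] at hj
    constructor
    · intro j' hj'
      rw [List.mem_range] at hj'
      have h2 : j' < k := hj'.trans hj
      simp only [hj, h2, dif_pos]
      intro hh
      have := e.injective (Subtype.ext hh)
      simp only [Fin.mk.injEq] at this
      omega
    · simp only [hj, dif_pos]
      exact h _ (e ⟨j, hj⟩).2
  · rintro ⟨u, hu⟩
    have hinj : Set.InjOn u (Finset.range k : Set ℕ) := by
      intro a ha b hb hab
      simp only [Finset.coe_range, Set.mem_Iio] at ha hb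
      rcases lt_trichotomy a b with h | h | h
      · exact absurd hab ((hu b (List.mem_range.2 hb)).1 a (List.mem_range.2 h))
      · exact h
      · exact absurd hab.symm ((hu a (List.mem_range.2 ha)).1 b (List.mem_range.2 h))
    refine ⟨(Finset.range k).image u, ?_, ?_⟩
    · rw [Finset.card_image_of_injOn hinj, Finset.card_range]
    · intro y hy
      obtain ⟨j, hj, rfl⟩ := Finset.mem_image.1 hy
      exact (hu j (List.mem_range.2 (Finset.mem_range.1 hj))).2

theorem DefP.cnt {P : ∀ N : Str sig, (α ⊕ Unit → N.C) → Prop} (h : DefP P) (k : ℕ) :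
    DefP (Cnt k P) := by
  have h1 : DefP (sig := sig) (fun N (v : α ⊕ ℕ → N.C) =>
      ∀ j ∈ List.range k, (∀ j' ∈ List.range j, ¬ v (Sum.inr j') = v (Sum.inr j)) ∧
        P N (v ∘ Sum.map id (fun _ => j))) := by
    refine DefP.allMem _ fun j _ => DefP.and (DefP.allMem _ fun j' _ => ?_) ?_
    · exact (DefP.eq (Sum.inr j') (Sum.inr j)).not
    · exact h.comap _
  refine h1.exBlock.congr fun N v => ?_
  unfold Cnt
  rw [exists_finset_iff]
  refine exists_congr fun u => ?_
  refine forall_congr' fun j => forall_congr' fun _ => ?_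
  refine and_congr Iff.rfl ?_
  have : Sum.elim v u ∘ Sum.map id (fun _ : Unit => j) = Sum.elim v (fun _ => u j) := by
    funext x
    rcases x with x | x <;> rfl
  rw [this]

theorem Cnt.mono {k k' : ℕ} (hk : k ≤ k') {P : ∀ N : Str sig, (α ⊕ Unit → N.C) → Prop}
    {N : Str sig} {v : α → N.C} (h : Cnt k' P N v) : Cnt k P N v := by
  obtain ⟨s, hs, h⟩ := h
  obtain ⟨t, ht, hc⟩ := Finset.exists_subset_card_eq (s := s) (n := k) (by omega)
  exact ⟨t, hc, fun y hy => h y (ht hy)⟩

theorem cnt_of_infinite {P : ∀ N : Str sig, (α ⊕ Unit → N.C) → Prop} {N : Str sig} {v : α → N.C}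
    (h : ¬ {y | P N (Sum.elim v fun _ => y)}.Finite) (k : ℕ) : Cnt k P N v := by
  obtain ⟨t, ht, hc⟩ := Set.Infinite.exists_subset_card_eq h k
  exact ⟨t, hc, fun y hy => ht hy⟩

theorem not_finite_of_cnt {P : ∀ N : Str sig, (α ⊕ Unit → N.C) → Prop} {N : Str sig} {v : α → N.C}
    (h : ∀ k, Cnt k P N v) : ¬ {y | P N (Sum.elim v fun _ => y)}.Finite := by
  intro hf
  obtain ⟨s, hs, h'⟩ := h (hf.toFinset.card + 1)
  have : s ⊆ hf.toFinset := fun y hy => by
    rw [Set.Finite.mem_toFinset]
    exact h' y hy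
  have := Finset.card_le_card this
  omega

end FD55
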