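import Mathlib
import Pool.Agent.Lib.MP_fd2900_lc.H55.Generic

/-!
Truth of definable families at generic sequences, through finite trees in the computable model.
-/

namespace FD55

open FirstOrder FirstOrder.Language

variable {sig : ℕ → Option ℕ}

/-- definable families of predicates of a parameter map and a sequence -/
def DefF (Θ : ∀ N : Str sig, (ℕ → N.C) → (ℕ → N.C) → Prop) : Prop :=
  DefP (sig := sig) (α := ℕ ⊕ ℕ) (fun N v => Θ N (v ∘ Sum.inl) (v ∘ Sum.inr))

/-- truncation of a sequence -/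
def trunc {X : Type} (x0 : X) (c : ℕ → X) (i : ℕ) : ℕ → X := fun j => if j < i then c j else x0

theorem update_trunc {X : Type} (x0 : X) (c : ℕ → X) (i : ℕ) :
    Function.update (trunc x0 c i) i (c i) = trunc x0 c (i + 1) := by
  funext j
  by_cases h : j = i
  · subst h; simp [trunc]
  · rw [Function.update_of_ne h]
    simp only [trunc]
    by_cases h2 : j < i
    · simp [h2, show j < i + 1 by omega]
    · simp [h2, show ¬ j < i + 1 by omega]

/-- One quantifier step for the coordinate `i`: `t i = 2`: at least `k` values,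
`t i = 1`: one value, `t i = 0`: the value `f 0`. -/
def stp (t : ℕ → ℕ) (k i : ℕ) (Θ : ∀ N : Str sig, (ℕ → N.C) → (ℕ → N.C) → Prop) (N : Str sig)
    (f c : ℕ → N.C) : Prop :=
  ∃ s : Finset N.C, s.card = (if t i = 2 then k else 1) ∧
    ∀ y ∈ s, (t i = 0 → y = f 0) ∧ Θ N f (Function.update c i y)

/-- iterated steps for the coordinates `i, ..., i + j - 1` -/
def Tr (t : ℕ → ℕ) (k : ℕ) (Θ : ∀ N : Str sig, (ℕ → N.C) → (ℕ → N.C) → Prop) :
    ℕ → ℕ → ∀ N : Str sig, (ℕ → N.C) → (ℕ → N.C) → Prop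
  | 0, _ => Θ
  | j + 1, i => stp t k i (Tr t k Θ j (i + 1))

/-- the step as a predicate of an extra variable -/
def stpP (t : ℕ → ℕ) (i : ℕ) (Θ : ∀ N : Str sig, (ℕ → N.C) → (ℕ → N.C) → Prop) :
    ∀ N : Str sig, ((ℕ ⊕ ℕ) ⊕ Unit → N.C) → Prop := fun N w =>
  (t i = 0 → w (Sum.inr ()) = w (Sum.inl (Sum.inl 0))) ∧
    Θ N (fun a => w (Sum.inl (Sum.inl a)))
      (Function.update (fun j => w (Sum.inl (Sum.inr j))) i (w (Sum.inr ())))

theorem stpP_def (t : ℕ → ℕ) (i : ℕ) {Θ : ∀ N : Str sig, (ℕ → N.C) → (ℕ → N.C) → Prop}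
    (h : DefF Θ) : DefP (stpP t i Θ) := by
  have h1 : DefP (sig := sig) (fun N (w : (ℕ ⊕ ℕ) ⊕ Unit → N.C) =>
      (t i = 0 → w (Sum.inr ()) = w (Sum.inl (Sum.inl 0)))) := (DefP.const _).imp (DefP.eq _ _)
  refine h1.and ((h.comap (β := (ℕ ⊕ ℕ) ⊕ Unit)
    (fun x => Sum.casesOn x (fun a => Sum.inl (Sum.inl a))
      (fun j => if j = i then Sum.inr () else Sum.inl (Sum.inr j)))).congr fun N w => ?_)
  have e : (w ∘ (fun x : ℕ ⊕ ℕ => (Sum.casesOn x (fun a => Sum.inl (Sum.inl a))
      (fun j => if j = i then Sum.inr () else Sum.inl (Sum.inr j)) : (ℕ ⊕ ℕ) ⊕ Unit))) ∘ Sum.inr =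
      Function.update (fun j => w (Sum.inl (Sum.inr j))) i (w (Sum.inr ())) := by
    funext j
    by_cases hj : j = i
    · subst hj; simp
    · simp [hj]
  rw [e]
  rfl

theorem stp_iff (t : ℕ → ℕ) (k i : ℕ) (Θ : ∀ N : Str sig, (ℕ → N.C) → (ℕ → N.C) → Prop)
    (N : Str sig) (f c : ℕ → N.C) : stp t k i Θ N f c ↔
      Cnt (if t i = 2 then k else 1) (stpP t i Θ) N (Sum.elim f c) := Iff.rfl

theorem DefF.stp {t : ℕ → ℕ} {k i : ℕ} {Θ : ∀ N : Str sig, (ℕ → N.C) → (ℕ → N.C) → Prop}
    (h : DefF Θ) : DefF (stp t k i Θ) := by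
  refine ((stpP_def t i h).cnt (if t i = 2 then k else 1)).congr fun N v => ?_
  rw [stp_iff]
  have : Sum.elim (v ∘ Sum.inl) (v ∘ Sum.inr) = v := by
    funext x; rcases x with x | x <;> rfl
  rw [this]

theorem DefF.tr {t : ℕ → ℕ} {k : ℕ} {Θ : ∀ N : Str sig, (ℕ → N.C) → (ℕ → N.C) → Prop}
    (h : DefF Θ) : ∀ j i, DefF (Tr t k Θ j i)
  | 0, _ => h
  | j + 1, i => (DefF.tr h j (i + 1)).stp

theorem stp_mono {t : ℕ → ℕ} {k k' i : ℕ} (hk : k ≤ k')
    {Θ Θ' : ∀ N : Str sig, (ℕ → N.C) → (ℕ → N.C) → Prop} {N : Str sig} {f : ℕ → N.C}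
    (hΘ : ∀ c, Θ' N f c → Θ N f c) {c : ℕ → N.C} (h : stp t k' i Θ' N f c) :
    stp t k i Θ N f c := by
  obtain ⟨s, hs, h⟩ := h
  obtain ⟨u, hu, hc⟩ := Finset.exists_subset_card_eq (s := s)
    (n := if t i = 2 then k else 1) (by rw [hs]; split_ifs <;> omega)
  exact ⟨u, hc, fun y hy => ⟨(h y (hu hy)).1, hΘ _ (h y (hu hy)).2⟩⟩

theorem Tr_mono {t : ℕ → ℕ} {k k' : ℕ} (hk : k ≤ k')
    {Θ : ∀ N : Str sig, (ℕ → N.C) → (ℕ → N.C) → Prop} {N : Str sig} {f : ℕ → N.C} :
    ∀ j i (c : ℕ → N.C), Tr t k' Θ j i N f c → Tr t k Θ j i N f c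
  | 0, _, _ => fun h => h
  | j + 1, i, _ => fun h => stp_mono hk (fun c => Tr_mono hk j (i + 1) c) h

/-- `c i` is not algebraic over the parameters and the earlier coordinates -/
def NonAlg (M : Str sig) (f c : ℕ → M.C) (i : ℕ) : Prop :=
  ∀ P : ∀ N : Str sig, ((ℕ ⊕ ℕ) ⊕ Unit → N.C) → Prop, DefP P →
    {y | P M (Sum.elim (Sum.elim f (trunc (f 0) c i)) fun _ => y)}.Finite →
    ¬ P M (Sum.elim (Sum.elim f (trunc (f 0) c i)) fun _ => c i)

theorem stpP_elim (t : ℕ → ℕ) (i : ℕ) (Θ : ∀ N : Str sig, (ℕ → N.C) → (ℕ → N.C) → Prop)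
    (N : Str sig) (f c : ℕ → N.C) (y : N.C) :
    stpP t i Θ N (Sum.elim (Sum.elim f c) fun _ => y) ↔
      ((t i = 0 → y = f 0) ∧ Θ N f (Function.update c i y)) := Iff.rfl

/-- truth at a generic sequence and iterated steps -/
theorem tr_iff {M : Str sig} (hM : MinimalStr M)
    (f c : ℕ → M.C) (t : ℕ → ℕ) (n0 : ℕ)
    (hc : ∀ i, n0 ≤ i → (t i = 2 ∧ NonAlg M f c i) ∨ (t i = 0 ∧ c i = f 0))
    {Θ : ∀ N : Str sig, (ℕ → N.C) → (ℕ → N.C) → Prop} (hΘ : DefF Θ) :
    ∀ j i, n0 ≤ i → ((∀ k, Tr t k Θ j i M f (trunc (f 0) c i)) ↔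
      Θ M f (trunc (f 0) c (i + j)))
  | 0, i, _ => ⟨fun h => h 0, fun h _ => h⟩
  | j + 1, i, hi => by
      have ih := tr_iff hM f c t n0 hc hΘ j (i + 1) (by omega)
      rw [show i + (j + 1) = i + 1 + j by ring, ← ih]
      rcases hc i hi with ⟨ht, hna⟩ | ⟨ht, hc0⟩
      · constructor
        · intro H k
          have hd := stpP_def t i (DefF.tr (t := t) (k := k) hΘ j (i + 1))
          have h1 : ∀ k', Cnt k' (stpP t i (Tr t k Θ j (i + 1))) M
              (Sum.elim f (trunc (f 0) c i)) := by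
            intro k'
            obtain ⟨s, hs, h⟩ := H (max k k')
            rw [if_pos ht] at hs
            obtain ⟨u, hu, hc⟩ := Finset.exists_subset_card_eq (s := s) (n := k')
              (by rw [hs]; exact le_max_right _ _)
            exact ⟨u, hc, fun y hy => ⟨(h y (hu hy)).1,
              Tr_mono (le_max_left k k') _ _ _ (h y (hu hy)).2⟩⟩
          have h3 := (hM.def hd _).resolve_left (not_finite_of_cnt h1)
          have h4 := hna _ hd.not h3
          rw [not_not, stpP_elim] at h4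
          rw [← update_trunc]
          exact h4.2
        · intro H k
          have hd := stpP_def t i (DefF.tr (t := t) (k := k) hΘ j (i + 1))
          have h1 : ¬ {y | stpP t i (Tr t k Θ j (i + 1)) M
              (Sum.elim (Sum.elim f (trunc (f 0) c i)) fun _ => y)}.Finite := by
            intro hf
            refine hna _ hd hf ?_
            rw [stpP_elim]
            refine ⟨fun h => by omega, ?_⟩
            rw [update_trunc]
            exact H k
          exact cnt_of_infinite h1 _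
      · have e : Function.update (trunc (f 0) c i) i (f 0) = trunc (f 0) c (i + 1) := by
          rw [← hc0, ← update_trunc, hc0]
        refine forall_congr' fun k => ?_
        constructor
        · rintro ⟨s, hs, h⟩
          rw [if_neg (by omega)] at hs
          obtain ⟨y, rfl⟩ := Finset.card_eq_one.1 hs
          obtain ⟨h1, h2⟩ := h y (by simp)
          rw [h1 ht, e] at h2
          exact h2
        · intro h
          refine ⟨{f 0}, by rw [if_neg (by omega)]; simp, fun y hy => ?_⟩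
          rw [Finset.mem_singleton] at hy
          subst hy
          exact ⟨fun _ => rfl, by rw [e]; exact h⟩

/-- the structure with universe `ℕ` -/
def NS (A : (Lg sig).Structure ℕ) : Str sig := ⟨ℕ, A, ⟨0⟩⟩

theorem DefP.transfer {α : Type} {P : ∀ N : Str sig, (α → N.C) → Prop} (h : DefP P) (N M : Str sig)
    (f : N.C ↪ₑ[Lg sig] M.C) (v : α → N.C) : P N v ↔ P M (f ∘ v) := by
  obtain ⟨φ, hφ⟩ := h
  rw [hφ, hφ, f.map_formula]

theorem DefF.transfer {Θ : ∀ N : Str sig, (ℕ → N.C) → (ℕ → N.C) → Prop} (h : DefF Θ)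
    (N M : Str sig) (f : N.C ↪ₑ[Lg sig] M.C) (g c : ℕ → N.C) :
    Θ N g c ↔ Θ M (f ∘ g) (f ∘ c) :=
  DefP.transfer h N M f (Sum.elim g c)

/-- padding of lists by zeros -/
def pad (l : List ℕ) : ℕ → ℕ := fun i => l.getD i 0

theorem update_pad (l : List ℕ) (y : ℕ) :
    Function.update (pad l) l.length y = pad (l ++ [y]) := by
  funext j
  by_cases h : j = l.length
  · subst h
    simp [pad]
  · rw [Function.update_of_ne h]
    simp only [pad]
    by_cases h2 : j < l.length
    · rw [List.getD_append _ _ _ _ h2]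
    · rw [List.getD_eq_default _ _ (by omega), List.getD_eq_default]
      simp; omega

/-- iterated steps in the model with universe `ℕ`, on lists -/
def TrL (t : ℕ → ℕ) (k : ℕ) (Q : List ℕ → Prop) : ℕ → List ℕ → Prop
  | 0, l => Q l
  | j + 1, l => ∃ ys : List ℕ, ys.Nodup ∧ ys.length = (if t l.length = 2 then k else 1) ∧
      ∀ y ∈ ys, (t l.length = 0 → y = 0) ∧ TrL t k Q j (l ++ [y])

theorem Tr_iff_TrL (A : (Lg sig).Structure ℕ) (t : ℕ → ℕ) (k : ℕ)
    (Θ : ∀ N : Str sig, (ℕ → N.C) → (ℕ → N.C) → Prop) :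
    ∀ j (l : List ℕ), Tr t k Θ j l.length (NS A) id (pad l) ↔
      TrL t k (fun l => Θ (NS A) id (pad l)) j l
  | 0, _ => Iff.rfl
  | j + 1, l => by
      have ih := Tr_iff_TrL A t k Θ j
      constructor
      · rintro ⟨s, hs, h⟩
        have hs' : (show Finset ℕ from s).card = (if t l.length = 2 then k else 1) := hs
        refine ⟨(show Finset ℕ from s).toList, Finset.nodup_toList _,
          (Finset.length_toList _).trans hs', ?_⟩
        intro y hy
        have hy' : y ∈ s := (Finset.mem_toList).1 hy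
        refine ⟨(h y hy').1, ?_⟩
        rw [← ih]
        have h2 := (h y hy').2
        have e : Function.update (pad l) l.length y = pad (l ++ [y]) := update_pad l y
        rw [List.length_append]
        rw [← e]
        exact h2
      · rintro ⟨ys, hn, hl, h⟩
        refine ⟨(show Finset ℕ from ys.toFinset), ?_, ?_⟩
        · exact (List.toFinset_card_of_nodup hn).trans hl
        · intro y hy
          have hy' : (show ℕ from y) ∈ ys := List.mem_toFinset.1 hy
          refine ⟨(h (show ℕ from y) hy').1, ?_⟩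
          have h2 := (ih (l ++ [(show ℕ from y)])).2 (h (show ℕ from y) hy').2
          have e : Function.update (pad l) l.length (show ℕ from y) =
              pad (l ++ [(show ℕ from y)]) := update_pad l (show ℕ from y)
          rw [List.length_append, ← e] at h2
          exact h2

/-- coding of the iterated steps by one finite tree -/
theorem TrL_iff (t : ℕ → ℕ) (k : ℕ) (Q : List ℕ → Prop) (m : ℕ) :
    TrL t k Q m [] ↔ ∃ S : List (List ℕ), [] ∈ S ∧ ∀ l ∈ S,
      (l.length < m → ∃ ys : List ℕ, ys.Nodup ∧ ys.length = (if t l.length = 2 then k else 1) ∧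
        ∀ y ∈ ys, (t l.length = 0 → y = 0) ∧ l ++ [y] ∈ S) ∧ (m ≤ l.length → Q l) := by
  constructor
  · have main : ∀ j (l : List ℕ), l.length + j = m → TrL t k Q j l →
        ∃ S : List (List ℕ), l ∈ S ∧ ∀ l' ∈ S,
          (l'.length < m → ∃ ys : List ℕ, ys.Nodup ∧
            ys.length = (if t l'.length = 2 then k else 1) ∧
            ∀ y ∈ ys, (t l'.length = 0 → y = 0) ∧ l' ++ [y] ∈ S) ∧ (m ≤ l'.length → Q l') := by
      intro j
      induction j with
      | zero =>
          intro l hl h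
          refine ⟨[l], by simp, fun l' hl' => ?_⟩
          rw [List.mem_singleton] at hl'
          subst hl'
          exact ⟨fun h' => by omega, fun _ => h⟩
      | succ j ih =>
          rintro l hl ⟨ys, hn, hlen, h⟩
          have h' : ∀ y, ∃ S : List (List ℕ), y ∈ ys → (l ++ [y] ∈ S ∧ ∀ l' ∈ S,
              (l'.length < m → ∃ ys : List ℕ, ys.Nodup ∧
                ys.length = (if t l'.length = 2 then k else 1) ∧
                ∀ y ∈ ys, (t l'.length = 0 → y = 0) ∧ l' ++ [y] ∈ S) ∧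
                (m ≤ l'.length → Q l')) := by
            intro y
            by_cases hy : y ∈ ys
            · obtain ⟨S, hS⟩ := ih (l ++ [y]) (by simp; omega) (h y hy).2
              exact ⟨S, fun _ => hS⟩
            · exact ⟨[], fun h => absurd h hy⟩
          choose S hS using h'
          refine ⟨l :: ys.flatMap S, by simp, fun l' hl' => ?_⟩
          rw [List.mem_cons] at hl'
          rcases hl' with rfl | hl'
          · refine ⟨fun _ => ⟨ys, hn, hlen, fun y hy => ⟨(h y hy).1, ?_⟩⟩, fun h' => by omega⟩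
            exact List.mem_cons_of_mem _ (List.mem_flatMap.2 ⟨y, hy, (hS y hy).1⟩)
          · obtain ⟨y, hy, hl''⟩ := List.mem_flatMap.1 hl'
            obtain ⟨h1, h2⟩ := (hS y hy).2 l' hl''
            refine ⟨fun hlt => ?_, h2⟩
            obtain ⟨ys', a1, a2, a3⟩ := h1 hlt
            exact ⟨ys', a1, a2, fun y' hy' => ⟨(a3 y' hy').1,
              List.mem_cons_of_mem _ (List.mem_flatMap.2 ⟨y, hy, (a3 y' hy').2⟩)⟩⟩
    exact fun h => main m [] (by simp) h
  · rintro ⟨S, h0, hS⟩
    have main : ∀ j (l : List ℕ), l ∈ S → l.length + j = m → TrL t k Q j l := by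
      intro j
      induction j with
      | zero => intro l hl hlen; exact (hS l hl).2 (by omega)
      | succ j ih =>
          intro l hl hlen
          obtain ⟨ys, a1, a2, a3⟩ := (hS l hl).1 (by omega)
          exact ⟨ys, a1, a2, fun y hy => ⟨(a3 y hy).1, ih _ (a3 y hy).2 (by simp; omega)⟩⟩
    exact main m [] h0 (by simp)

end FD55
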