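import Mathlib
import Pool.Agent.Lib.MP_fd2900_lc.H55.Tree

/-!
Complexity of the truth of definable families at a generic sequence.
-/

namespace FD55

open FirstOrder FirstOrder.Language

variable {sig : ℕ → Option ℕ}

theorem mem_prim {β : Type} [Primcodable β] : PrimrecRel (fun (L : List β) (b : β) => b ∈ L) := by
  have h : PrimrecRel (fun (a b : β) => a = b) := Primrec.eq
  exact (PrimrecRel.exists_mem_list h).of_eq fun L b => by simp

theorem Sg.mem {α β : Type} [Primcodable α] [Primcodable β] {n : ℕ} {f : α → β} {L : α → List β}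
    (hf : Primrec f) (hL : Primrec L) : Sg n (fun x => f x ∈ L x) :=
  Sg.prim (mem_prim.comp hL hf)

theorem Sg.eq {α β : Type} [Primcodable α] [Primcodable β] {n : ℕ} {f g : α → β}
    (hf : Primrec f) (hg : Primrec g) : Sg n (fun x => f x = g x) :=
  Sg.prim (Primrec.eq.comp hf hg)

theorem Sg.lt {α : Type} [Primcodable α] {n : ℕ} {f g : α → ℕ}
    (hf : Primrec f) (hg : Primrec g) : Sg n (fun x => f x < g x) :=
  Sg.prim (Primrec.nat_lt.comp hf hg)

theorem Sg.le {α : Type} [Primcodable α] {n : ℕ} {f g : α → ℕ}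
    (hf : Primrec f) (hg : Primrec g) : Sg n (fun x => f x ≤ g x) :=
  Sg.prim (Primrec.nat_le.comp hf hg)

theorem Sg.nprim {α : Type} [Primcodable α] {n : ℕ} {P : α → Prop} (h : PrimrecPred P) :
    Sg n (fun x => ¬ P x) := Sg.prim h.not

theorem nodup_prim : PrimrecPred (fun l : List ℕ => l.Nodup) := by
  have h : Sg 0 (fun l : List ℕ => ∀ i < l.length, ∀ j < i, ¬ l.getD j 0 = l.getD i 0) := by
    refine Sg.allLt (P := fun x : List ℕ × ℕ => ∀ j < x.2, ¬ x.1.getD j 0 = x.1.getD x.2 0) ?_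
      Primrec.list_length
    refine Sg.allLt (P := fun x : (List ℕ × ℕ) × ℕ => ¬ x.1.1.getD x.2 0 = x.1.1.getD x.1.2 0) ?_
      Primrec.snd
    refine Sg.nprim (Primrec.eq.comp ?_ ?_)
    · exact (Primrec.list_getD 0).comp (Primrec.fst.comp Primrec.fst) Primrec.snd
    · exact (Primrec.list_getD 0).comp (Primrec.fst.comp Primrec.fst)
        (Primrec.snd.comp Primrec.fst)
  refine PrimrecPred.of_eq h fun l => ?_
  rw [List.nodup_iff_injective_get]
  constructor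
  · intro H a b hab
    rcases lt_trichotomy a b with h | h | h
    · refine absurd ?_ (H b.1 b.2 a.1 h)
      rw [List.getD_eq_getElem _ _ a.2, List.getD_eq_getElem _ _ b.2]
      exact hab
    · exact h
    · refine absurd ?_ (H a.1 a.2 b.1 h)
      rw [List.getD_eq_getElem _ _ a.2, List.getD_eq_getElem _ _ b.2]
      exact hab.symm
  · intro H i hi j hj hh
    have hj' : j < l.length := hj.trans hi
    rw [List.getD_eq_getElem _ _ hi, List.getD_eq_getElem _ _ hj'] at hh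
    have := @H ⟨j, hj'⟩ ⟨i, hi⟩ hh
    simp only [Fin.mk.injEq] at this
    omega

theorem trL_Sg {ζ : Type} [Primcodable ζ] {n : ℕ} {Q : ζ × List ℕ → Prop}
    (hQ : Sg (n + 1) Q) {t : ℕ → ℕ} (ht : Primrec t) :
    Sg (n + 1) (fun x : (ζ × ℕ) × ℕ => TrL t x.1.2 (fun l => Q (x.1.1, l)) x.2 []) := by
  -- variables: x, S, l, ys, y
  have h3 : Sg (n + 1) (fun w : ((((((ζ × ℕ) × ℕ) × List (List ℕ)) × List ℕ) × List ℕ) × ℕ) =>
      (t w.1.1.2.length = 0 → w.2 = 0) ∧ w.1.1.2 ++ [w.2] ∈ w.1.1.1.2) := by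
    have hl : Primrec (fun w : ((((((ζ × ℕ) × ℕ) × List (List ℕ)) × List ℕ) × List ℕ) × ℕ) =>
        w.1.1.2) := Primrec.snd.comp (Primrec.fst.comp Primrec.fst)
    refine Sg.and (Sg.imp (Sg.nprim (Primrec.eq.comp (ht.comp (Primrec.list_length.comp hl))
      (Primrec.const 0))) (Sg.eq Primrec.snd (Primrec.const 0))) ?_
    refine Sg.mem ?_ (Primrec.snd.comp (Primrec.fst.comp (Primrec.fst.comp Primrec.fst)))
    exact Primrec.list_concat.comp hl Primrec.snd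
  have h2 : Sg (n + 1) (fun w : (((((ζ × ℕ) × ℕ) × List (List ℕ)) × List ℕ) × List ℕ) =>
      w.2.Nodup ∧ w.2.length = (if t w.1.2.length = 2 then w.1.1.1.1.2 else 1) ∧
      ∀ y ∈ w.2, (t w.1.2.length = 0 → y = 0) ∧ w.1.2 ++ [y] ∈ w.1.1.2) := by
    refine Sg.and (Sg.prim (nodup_prim.comp Primrec.snd)) (Sg.and (Sg.eq ?_ ?_) ?_)
    · exact Primrec.list_length.comp Primrec.snd
    · refine Primrec.ite ?_ ?_ (Primrec.const 1)
      · exact Primrec.eq.comp (ht.comp (Primrec.list_length.comp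
          (Primrec.snd.comp Primrec.fst))) (Primrec.const 2)
      · exact Primrec.snd.comp (Primrec.fst.comp (Primrec.fst.comp (Primrec.fst.comp Primrec.fst)))
    · exact Sg.allMem h3 Primrec.snd
  have h1 : Sg (n + 1) (fun w : ((((ζ × ℕ) × ℕ) × List (List ℕ)) × List ℕ) =>
      (w.2.length < w.1.1.2 → ∃ ys : List ℕ, ys.Nodup ∧
        ys.length = (if t w.2.length = 2 then w.1.1.1.2 else 1) ∧
        ∀ y ∈ ys, (t w.2.length = 0 → y = 0) ∧ w.2 ++ [y] ∈ w.1.2) ∧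
      (w.1.1.2 ≤ w.2.length → Q (w.1.1.1.1, w.2))) := by
    have hlen : Primrec (fun w : ((((ζ × ℕ) × ℕ) × List (List ℕ)) × List ℕ) => w.2.length) :=
      Primrec.list_length.comp Primrec.snd
    have hm : Primrec (fun w : ((((ζ × ℕ) × ℕ) × List (List ℕ)) × List ℕ) => w.1.1.2) :=
      Primrec.snd.comp (Primrec.fst.comp Primrec.fst)
    refine Sg.and (Sg.imp (Sg.nprim (Primrec.nat_lt.comp hlen hm)) (Sg.ex h2))
      (Sg.imp (Sg.nprim (Primrec.nat_le.comp hm hlen)) ?_)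
    refine Sg.comp (f := fun w : ((((ζ × ℕ) × ℕ) × List (List ℕ)) × List ℕ) =>
      (w.1.1.1.1, w.2)) hQ ?_
    exact (Primrec.fst.comp (Primrec.fst.comp (Primrec.fst.comp Primrec.fst))).pair Primrec.snd
  have h0 : Sg (n + 1) (fun w : (((ζ × ℕ) × ℕ) × List (List ℕ)) => [] ∈ w.2 ∧ ∀ l ∈ w.2,
      (l.length < w.1.2 → ∃ ys : List ℕ, ys.Nodup ∧
        ys.length = (if t l.length = 2 then w.1.1.2 else 1) ∧
        ∀ y ∈ ys, (t l.length = 0 → y = 0) ∧ l ++ [y] ∈ w.2) ∧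
      (w.1.2 ≤ l.length → Q (w.1.1.1, l))) :=
    Sg.and (Sg.mem (Primrec.const []) Primrec.snd) (Sg.allMem h1 Primrec.snd)
  exact (Sg.ex h0).congr fun x => (TrL_iff t x.1.2 (fun l => Q (x.1.1, l)) x.2).symm

/-- A generic sequence: parameters `f`, sequence `c`, types of coordinates `t`. -/
structure GenSeq (A : (Lg sig).Structure ℕ) (M : Str sig) (f : ℕ → M.C) (c : ℕ → M.C)
    (t : ℕ → ℕ) : Prop where
  minimal : MinimalStr M
  prim : Primrec t
  emb : ∃ F : (NS A).C ↪ₑ[Lg sig] M.C, ∀ a, F a = f a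
  gen : ∀ i, (t i = 2 ∧ NonAlg M f c i) ∨ (t i = 0 ∧ c i = f 0)

variable {A : (Lg sig).Structure ℕ} {M : Str sig} {f c : ℕ → M.C} {t : ℕ → ℕ}

theorem GenSeq.truth_iff (h : GenSeq A M f c t)
    {Θ : ∀ N : Str sig, (ℕ → N.C) → (ℕ → N.C) → Prop} (hΘ : DefF Θ) (m : ℕ) :
    Θ M f (trunc (f 0) c m) ↔ ∀ k, TrL t k (fun l => Θ (NS A) id (pad l)) m [] := by
  have h1 := tr_iff h.minimal f c t 0 (fun i _ => h.gen i) hΘ m 0 le_rfl
  rw [zero_add] at h1
  rw [← h1]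
  refine forall_congr' fun k => ?_
  rw [← Tr_iff_TrL]
  obtain ⟨F, hF⟩ := h.emb
  have h2 := (DefF.tr (t := t) (k := k) hΘ m 0).transfer (NS A) M F id (pad [])
  have e1 : (fun a : ℕ => F a) = f := by funext a; exact hF a
  have e2 : (fun a : ℕ => F (pad [] a)) = trunc (f 0) c 0 := by
    funext a
    have : pad [] a = (0 : ℕ) := by simp [pad]
    rw [this]
    simp only [trunc]
    exact hF (0 : ℕ)
  have key : ∀ g d : ℕ → M.C, g = f → d = trunc (f 0) c 0 →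
      (Tr t k Θ m 0 M g d ↔ Tr t k Θ m 0 M f (trunc (f 0) c 0)) := by
    rintro _ _ rfl rfl; exact Iff.rfl
  exact (h2.trans (key _ _ e1 e2)).symm

/-- Families which are `Sigma_(n+1)` on the computable model are `Pi_(n+2)` at the generic
sequence. -/
theorem GenSeq.truth_not (h : GenSeq A M f c t) {ζ : Type} [Primcodable ζ] {n : ℕ}
    {Θ : ζ → ∀ N : Str sig, (ℕ → N.C) → (ℕ → N.C) → Prop} (hΘ : ∀ z, DefF (Θ z))
    (hQ : Sg (n + 1) (fun x : ζ × List ℕ => Θ x.1 (NS A) id (pad x.2))) :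
    Sg (n + 2) (fun x : ζ × ℕ => ¬ Θ x.1 M f (trunc (f 0) c x.2)) := by
  have h1 := trL_Sg hQ h.prim
  have h2 : Sg (n + 2) (fun x : (ζ × ℕ) × ℕ =>
      ¬ TrL t x.2 (fun l => Θ x.1.1 (NS A) id (pad l)) x.1.2 []) := by
    refine Sg.of_not ?_
    refine (Sg.comp (f := fun x : (ζ × ℕ) × ℕ => ((x.1.1, x.2), x.1.2)) h1 ?_).congr
      fun x => by simp
    exact ((Primrec.fst.comp Primrec.fst).pair Primrec.snd).pair (Primrec.snd.comp Primrec.fst)
  refine (Sg.exNat h2).congr fun x => ?_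
  rw [h.truth_iff (hΘ x.1) x.2]
  push Not
  rfl

theorem GenSeq.truth_not' (h : GenSeq A M f c t) {ζ : Type} [Primcodable ζ] {n : ℕ}
    {Θ : ζ → ∀ N : Str sig, (ℕ → N.C) → (ℕ → N.C) → Prop} (hΘ : ∀ z, DefF (Θ z))
    (hQ : Sg (n + 1) (fun x : ζ × List ℕ => Θ x.1 (NS A) id (pad x.2)))
    {B : ζ × ℕ → Prop} (hB : PrimrecPred B) (hB1 : ∀ z, ∃ m, B (z, m))
    (hB2 : ∀ z m, B (z, m) → (Θ z M f c ↔ Θ z M f (trunc (f 0) c m))) :
    Sg (n + 2) (fun z => ¬ Θ z M f c) := by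
  have h1 := h.truth_not hΘ hQ
  refine (Sg.exNat (Sg.and (Sg.prim hB) h1)).congr fun z => ?_
  constructor
  · rintro ⟨m, h1, h2⟩
    rwa [hB2 z m h1]
  · intro hz
    obtain ⟨m, hm⟩ := hB1 z
    exact ⟨m, hm, by rwa [← hB2 z m hm]⟩

theorem GenSeq.truth (h : GenSeq A M f c t) {ζ : Type} [Primcodable ζ] {n : ℕ}
    {Θ : ζ → ∀ N : Str sig, (ℕ → N.C) → (ℕ → N.C) → Prop} (hΘ : ∀ z, DefF (Θ z))
    (hQ : Sg (n + 1) (fun x : ζ × List ℕ => Θ x.1 (NS A) id (pad x.2)))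
    {B : ζ × ℕ → Prop} (hB : PrimrecPred B) (hB1 : ∀ z, ∃ m, B (z, m))
    (hB2 : ∀ z m, B (z, m) → (Θ z M f c ↔ Θ z M f (trunc (f 0) c m))) :
    Sg (n + 3) (fun z => Θ z M f c) :=
  Sg.of_not (h.truth_not' hΘ hQ hB hB1 hB2)

end FD55
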