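import Mathlib
import Pool.Agent.Lib.MP_fd2900_lc.H55.Truth

/-!
From a `Delta_3` numbering of a countable structure to a `Delta_3` copy with universe `ℕ`.
-/

namespace FD55

open FirstOrder FirstOrder.Language

variable {sig : ℕ → Option ℕ}

/-- The structure `M` has a copy with universe `ℕ` whose atomic diagram is `Delta^0_3`
(by Post's theorem: computable in `0''`). -/
def HasDelta3Copy (M : Type) [(Lg sig).Structure M] : Prop :=
  ∃ B : (Lg sig).Structure ℕ, Nonempty (@FirstOrder.Language.Equiv (Lg sig) ℕ M B _) ∧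
    Delta3 (fun p : ℕ × List ℕ => Holds sig B p.1 p.2)

/-- the graph of the enumeration of the least representatives -/
theorem nth_graph {E : ℕ → Prop} (hE : (Set.ofPred E).Infinite) (n ν : ℕ) :
    Nat.nth E n = ν ↔ E ν ∧ ∃ L : List ℕ, L.Nodup ∧ L.length = n ∧ (∀ x ∈ L, x < ν ∧ E x) ∧
      ∀ x < ν, x ∈ L ∨ ¬ E x := by
  classical
  constructor
  · rintro rfl
    refine ⟨Nat.nth_mem_of_infinite hE n, (List.range n).map (Nat.nth E), ?_, by simp, ?_, ?_⟩
    · exact (List.nodup_range).map (Nat.nth_injective hE)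
    · intro x hx
      obtain ⟨j, hj, rfl⟩ := List.mem_map.1 hx
      rw [List.mem_range] at hj
      exact ⟨Nat.nth_strictMono hE hj, Nat.nth_mem_of_infinite hE j⟩
    · intro x hx
      by_cases h : E x
      · left
        refine List.mem_map.2 ⟨Nat.count E x, ?_, Nat.nth_count h⟩
        rw [List.mem_range]
        by_contra hcon
        push Not at hcon
        have := (Nat.nth_strictMono hE).monotone hcon
        rw [Nat.nth_count h] at this
        omega
      · exact Or.inr h
  · rintro ⟨hν, L, hn, hl, h1, h2⟩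
    have hcard : Nat.count E ν = n := by
      rw [Nat.count_eq_card_filter_range, ← hl, ← List.toFinset_card_of_nodup hn]
      congr 1
      ext x
      simp only [Finset.mem_filter, Finset.mem_range, List.mem_toFinset]
      constructor
      · rintro ⟨a, b⟩
        exact (h2 x a).resolve_right (not_not.2 b)
      · intro hx
        exact h1 x hx
    rw [← hcard]
    exact Nat.nth_count hν

theorem copy_of_numbering {M : Str sig} (hinf : Infinite M.C) (h : ℕ → M.C)
    (hsurj : Function.Surjective h)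
    (c1 : Sg 3 (fun p : ℕ × List ℕ => HoldE M p.1 (p.2.map h)))
    (c2 : Sg 3 (fun p : ℕ × List ℕ => ¬ HoldE M p.1 (p.2.map h))) :
    HasDelta3Copy (sig := sig) M.C := by
  classical
  -- least representatives
  set E : ℕ → Prop := fun ν => ∀ μ < ν, h μ ≠ h ν with hEdef
  have hrep : ∀ x : M.C, ∃ ν, E ν ∧ h ν = x := by
    intro x
    have hx := hsurj x
    refine ⟨Nat.find hx, fun μ hμ hcon => ?_, Nat.find_spec hx⟩
    rw [Nat.find_spec hx] at hcon
    exact Nat.find_min hx hμ hcon
  have hEinj : ∀ ν μ, E ν → E μ → h ν = h μ → ν = μ := by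
    intro ν μ h1 h2 h3
    rcases lt_trichotomy ν μ with h | h | h
    · exact absurd h3 (h2 ν h)
    · exact h
    · exact absurd h3.symm (h1 μ h)
  have hEinf : (Set.ofPred E).Infinite := by
    intro hfin
    have : (Set.univ : Set M.C) ⊆ h '' (Set.ofPred E) := by
      intro x _
      obtain ⟨ν, h1, h2⟩ := hrep x
      exact ⟨ν, h1, h2⟩
    exact Set.infinite_univ ((hfin.image h).subset this)
  let e : ℕ → M.C := fun n => h (Nat.nth E n)
  have hbij : Function.Bijective e := by
    constructor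
    · intro a b hab
      exact Nat.nth_injective hEinf (hEinj _ _ (Nat.nth_mem_of_infinite hEinf a)
        (Nat.nth_mem_of_infinite hEinf b) hab)
    · intro x
      obtain ⟨ν, h1, h2⟩ := hrep x
      refine ⟨Nat.count E ν, ?_⟩
      show h (Nat.nth E (Nat.count E ν)) = x
      rw [Nat.nth_count h1]
      exact h2
  let eq : M.C ≃ ℕ := (Equiv.ofBijective e hbij).symm
  have heq : ∀ n, eq.symm n = h (Nat.nth E n) := fun n => rfl
  let B : (Lg sig).Structure ℕ := eq.inducedStructure
  refine ⟨B, ⟨(@Equiv.inducedStructureEquiv (Lg sig) M.C ℕ _ eq).symm⟩, ?_⟩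
  have hHolds : ∀ p : ℕ × List ℕ, Holds sig B p.1 p.2 ↔
      HoldE M (p.1 + 1) ((p.2.map (Nat.nth E)).map h) := by
    rintro ⟨i, l⟩
    rw [List.map_map]
    have key : Holds sig B i l ↔ Holds sig M.str i (l.map eq.symm) := by
      have gen : ∀ (m : ℕ) (g : Fin m → ℕ) (hm : sig i = some m),
          B.RelMap (n := m) ⟨i, hm⟩ g ↔ M.str.RelMap (n := m) ⟨i, hm⟩ (eq.symm ∘ g) := by
        intro m g hm; exact Iff.rfl
      have gen2 : ∀ (m : ℕ) (e : m = l.length) (h1 : sig i = some m) (g : Fin m → M.C),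
          (M.str.RelMap (n := m) ⟨i, h1⟩ g ↔
            M.str.RelMap (n := l.length) ⟨i, e ▸ h1⟩ (fun j => g (Fin.cast e.symm j))) := by
        intro m e h1 g
        subst e
        rfl
      constructor
      · rintro ⟨hm, hR⟩
        have h' : sig i = some (l.map eq.symm).length := by rw [List.length_map]; exact hm
        refine ⟨h', (gen2 _ (List.length_map _) h' _).2 ?_⟩
        have := (gen _ _ hm).1 hR
        convert this using 1
        funext j
        simp
      · rintro ⟨hm, hR⟩
        have h' : sig i = some l.length := by rw [List.length_map] at hm; exact hm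
        refine ⟨h', (gen _ _ h').2 ?_⟩
        have := (gen2 _ (List.length_map _) hm _).1 hR
        convert this using 1
        funext j
        simp
    rw [key]
    have e2 : l.map eq.symm = l.map (h ∘ Nat.nth E) := rfl
    rw [e2]
    constructor
    · intro hh
      exact Or.inr ⟨i, rfl, hh⟩
    · rintro (⟨h0, _⟩ | ⟨i', hi', hh⟩)
      · omega
      · obtain rfl : i = i' := by omega
        exact hh
  -- complexity of `E`
  have hpair : ∀ a b : ℕ, HoldE M 0 ([a, b].map h) ↔ h a = h b := by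
    intro a b
    simp only [HoldE, List.map_cons, List.map_nil, true_and]
    constructor
    · rintro (⟨x, hx⟩ | ⟨i, hi, _⟩)
      · simp only [List.cons.injEq, and_true] at hx
        rw [hx.1, hx.2]
      · omega
    · intro hh; exact Or.inl ⟨h b, by rw [hh]⟩
  have pr : Primrec (fun x : ℕ × ℕ => ((0 : ℕ), [x.2, x.1])) :=
    (Primrec.const 0).pair (Primrec.list_cons.comp Primrec.snd
      (Primrec.list_cons.comp Primrec.fst (Primrec.const [])))
  have e1 : Sg 3 (fun ν : ℕ => E ν) := by
    have := Sg.comp (f := fun x : ℕ × ℕ => ((0 : ℕ), [x.2, x.1])) c2 pr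
    refine (Sg.allLt this (b := fun x : ℕ => x) Primrec.id).congr fun ν => ?_
    refine forall_congr' fun μ => forall_congr' fun _ => ?_
    simp only [hpair]
  have e2 : Sg 3 (fun ν : ℕ => ¬ E ν) := by
    have h1 := Sg.comp (f := fun x : ℕ × ℕ => ((0 : ℕ), [x.2, x.1])) c1 pr
    have h2 : Sg 3 (fun x : ℕ × ℕ => x.2 < x.1) := Sg.lt Primrec.snd Primrec.fst
    refine (Sg.exNat (h2.and h1)).congr fun ν => ?_
    simp only [hEdef, hpair]
    push Not
    rfl
  -- graph of `Nat.nth E`
  have e3 : Sg 3 (fun x : ℕ × ℕ => Nat.nth E x.1 = x.2) := by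
    have a1 : Sg 3 (fun w : ((ℕ × ℕ) × List ℕ) × ℕ => w.2 < w.1.1.2 ∧ E w.2) :=
      (Sg.lt Primrec.snd (Primrec.snd.comp (Primrec.fst.comp Primrec.fst))).and
        (Sg.comp (f := fun w : ((ℕ × ℕ) × List ℕ) × ℕ => w.2) e1 Primrec.snd)
    have a2 : Sg 3 (fun w : ((ℕ × ℕ) × List ℕ) × ℕ => w.2 ∈ w.1.2 ∨ ¬ E w.2) :=
      (Sg.mem Primrec.snd (Primrec.snd.comp Primrec.fst)).or
        (Sg.comp (f := fun w : ((ℕ × ℕ) × List ℕ) × ℕ => w.2) e2 Primrec.snd)
    have a3 : Sg 3 (fun w : (ℕ × ℕ) × List ℕ => w.2.Nodup ∧ w.2.length = w.1.1 ∧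
        (∀ x ∈ w.2, x < w.1.2 ∧ E x) ∧ ∀ x < w.1.2, x ∈ w.2 ∨ ¬ E x) := by
      refine (Sg.prim (nodup_prim.comp Primrec.snd)).and (Sg.and ?_ (Sg.and ?_ ?_))
      · exact Sg.eq (Primrec.list_length.comp Primrec.snd) (Primrec.fst.comp Primrec.fst)
      · exact Sg.allMem a1 Primrec.snd
      · exact Sg.allLt a2 (Primrec.snd.comp Primrec.fst)
    refine ((Sg.comp (f := fun x : ℕ × ℕ => x.2) e1 Primrec.snd).and (Sg.ex a3)).congr
      fun x => ?_
    exact (nth_graph hEinf x.1 x.2).symm
  -- composition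
  have main : ∀ G : ℕ × List ℕ → Prop, Sg 3 G →
      Sg 3 (fun p : ℕ × List ℕ => G (p.1, p.2.map (Nat.nth E))) := by
    intro G hG
    have b1 : Sg 3 (fun w : ((ℕ × List ℕ) × List ℕ) × ℕ =>
        Nat.nth E (w.1.1.2.getD w.2 0) = w.1.2.getD w.2 0) := by
      refine Sg.comp (f := fun w : ((ℕ × List ℕ) × List ℕ) × ℕ =>
        (w.1.1.2.getD w.2 0, w.1.2.getD w.2 0)) e3 ?_
      exact ((Primrec.list_getD 0).comp (Primrec.snd.comp (Primrec.fst.comp Primrec.fst))
        Primrec.snd).pair ((Primrec.list_getD 0).comp (Primrec.snd.comp Primrec.fst) Primrec.snd)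
    have b2 : Sg 3 (fun w : (ℕ × List ℕ) × List ℕ => w.2.length = w.1.2.length ∧
        (∀ i < w.2.length, Nat.nth E (w.1.2.getD i 0) = w.2.getD i 0) ∧ G (w.1.1, w.2)) := by
      refine Sg.and (Sg.eq (Primrec.list_length.comp Primrec.snd)
        (Primrec.list_length.comp (Primrec.snd.comp Primrec.fst))) (Sg.and ?_ ?_)
      · exact Sg.allLt b1 (Primrec.list_length.comp Primrec.snd)
      · exact Sg.comp (f := fun w : (ℕ × List ℕ) × List ℕ => (w.1.1, w.2)) hG
          ((Primrec.fst.comp Primrec.fst).pair Primrec.snd)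
    refine (Sg.ex b2).congr fun p => ?_
    constructor
    · rintro ⟨L, h1, h2, h3⟩
      have : L = p.2.map (Nat.nth E) := by
        refine List.ext_getElem (by simpa using h1) fun i hi hi' => ?_
        have := h2 i hi
        rw [List.getD_eq_getElem _ _ hi] at this
        rw [← this, List.getElem_map, List.getD_eq_getElem]
      rw [← this]; exact h3
    · intro hG
      refine ⟨p.2.map (Nat.nth E), by simp, fun i hi => ?_, hG⟩
      rw [List.getD_eq_getElem _ _ hi, List.getElem_map, List.getD_eq_getElem]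
  have m1 := main (fun p => HoldE M (p.1 + 1) (p.2.map h))
    (Sg.comp (f := fun p : ℕ × List ℕ => (p.1 + 1, p.2)) c1
      ((Primrec.succ.comp Primrec.fst).pair Primrec.snd))
  have m2 := main (fun p => ¬ HoldE M (p.1 + 1) (p.2.map h))
    (Sg.comp (f := fun p : ℕ × List ℕ => (p.1 + 1, p.2)) c2
      ((Primrec.succ.comp Primrec.fst).pair Primrec.snd))
  exact Delta3.of_Sg (m1.congr fun p => (hHolds p).symm)
    (m2.congr fun p => not_congr (hHolds p).symm)

end FD55
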