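import Mathlib
import Pool.Agent.Lib.MP_fd2900_lc.H55.Truth

/-!
Coded families of existential requirements about a sequence of names.
-/

namespace FD55

open FirstOrder FirstOrder.Language

variable {sig : ℕ → Option ℕ}

/-- variables: parameters, members of the sequence `c`, local variables -/
abbrev Var := ℕ ⊕ ℕ ⊕ ℕ

/-- literals: sign (`1` = positive), symbol, arguments -/
abbrev Lit := ℕ × ℕ × List Var

/-- requirements: a list of literals, and the names which are the values of the first local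
variables; the other local variables are existentially quantified -/
abbrev Req := List Lit × List ℕ

/-- values of variables -/
def env {X : Type} (f c u : ℕ → X) : Var → X := Sum.elim f (Sum.elim c u)

/-- truth of a literal -/
def litOK (N : Str sig) (f c u : ℕ → N.C) (x : Lit) : Prop :=
  (HoldE N x.2.1 (x.2.2.map (env f c u)) ↔ x.1 = 1)

/-- truth of a requirement about the names `h` -/
def reqOK (N : Str sig) (f c h : ℕ → N.C) (r : Req) : Prop :=
  ∃ u : ℕ → N.C, (∀ i < r.2.length, u i = h (r.2.getD i 0)) ∧ ∀ x ∈ r.1, litOK N f c u x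

/-- some choice of the names satisfies all the requirements -/
def Th (z : List Req) (N : Str sig) (f c : ℕ → N.C) : Prop :=
  ∃ h : ℕ → N.C, ∀ r ∈ z, reqOK N f c h r

theorem litOK_def (x : Lit) : DefP (sig := sig) (α := ((ℕ ⊕ ℕ) ⊕ ℕ) ⊕ ℕ) (fun N w =>
    litOK N (fun a => w (Sum.inl (Sum.inl (Sum.inl a)))) (fun a => w (Sum.inl (Sum.inl (Sum.inr a))))
      (fun a => w (Sum.inr a)) x) := by
  let g : Var → ((ℕ ⊕ ℕ) ⊕ ℕ) ⊕ ℕ := fun v => match v with
    | Sum.inl a => Sum.inl (Sum.inl (Sum.inl a))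
    | Sum.inr (Sum.inl a) => Sum.inl (Sum.inl (Sum.inr a))
    | Sum.inr (Sum.inr a) => Sum.inr a
  refine ((DefP.holdE (sig := sig) x.2.1 (x.2.2.map g)).iff (DefP.const (x.1 = 1))).congr
    fun N w => ?_
  unfold litOK
  rw [List.map_map]
  have : (w ∘ g) = env (fun a => w (Sum.inl (Sum.inl (Sum.inl a))))
      (fun a => w (Sum.inl (Sum.inl (Sum.inr a)))) (fun a => w (Sum.inr a)) := by
    funext v
    rcases v with a | a | a <;> rfl
  rw [this]

theorem reqOK_def (r : Req) : DefP (sig := sig) (α := (ℕ ⊕ ℕ) ⊕ ℕ) (fun N w =>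
    reqOK N (fun a => w (Sum.inl (Sum.inl a))) (fun a => w (Sum.inl (Sum.inr a)))
      (fun a => w (Sum.inr a)) r) := by
  have h1 : DefP (sig := sig) (α := ((ℕ ⊕ ℕ) ⊕ ℕ) ⊕ ℕ) (fun N w =>
      (∀ i ∈ List.range r.2.length, w (Sum.inr i) = w (Sum.inl (Sum.inr (r.2.getD i 0)))) ∧
      ∀ x ∈ r.1, litOK N (fun a => w (Sum.inl (Sum.inl (Sum.inl a))))
        (fun a => w (Sum.inl (Sum.inl (Sum.inr a)))) (fun a => w (Sum.inr a)) x) :=
    DefP.and (DefP.allMem _ fun i _ => DefP.eq _ _) (DefP.allMem _ fun x _ => litOK_def x)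
  refine h1.exBlock.congr fun N w => ?_
  refine exists_congr fun u => ?_
  simp only [List.mem_range]
  rfl

theorem Th_def (z : List Req) : DefF (sig := sig) (Th z) := by
  have h1 : DefP (sig := sig) (α := (ℕ ⊕ ℕ) ⊕ ℕ) (fun N w =>
      ∀ r ∈ z, reqOK N (fun a => w (Sum.inl (Sum.inl a))) (fun a => w (Sum.inl (Sum.inr a)))
      (fun a => w (Sum.inr a)) r) := DefP.allMem _ fun r _ => reqOK_def r
  exact h1.exBlock.congr fun N w => Iff.rfl

theorem exists_bound {X : Type} (g : X → ℕ) (L : List X) : ∃ B, ∀ x ∈ L, g x < B := by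
  induction L with
  | nil => exact ⟨0, by simp⟩
  | cons a L ih =>
      obtain ⟨B, hB⟩ := ih
      refine ⟨max (g a + 1) B, fun x hx => ?_⟩
      rcases List.mem_cons.1 hx with rfl | hx
      · exact lt_of_lt_of_le (Nat.lt_succ_self _) (le_max_left _ _)
      · exact lt_of_lt_of_le (hB x hx) (le_max_right _ _)

/-- the bound of the members of `c` occurring in a variable -/
def cbd (v : Var) : ℕ := Sum.elim (fun _ => 0) (Sum.elim (fun j => j + 1) (fun _ => 0)) v

/-- the bound of the local variables occurring in a variable -/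
def ubd (v : Var) : ℕ := Sum.elim (fun _ => 0) (Sum.elim (fun _ => 0) (fun j => j + 1)) v

theorem litOK_congr {N : Str sig} {f c u c' u' : ℕ → N.C} {x : Lit}
    (hc : ∀ v ∈ x.2.2, ∀ j < cbd v, c j = c' j) (hu : ∀ v ∈ x.2.2, ∀ j < ubd v, u j = u' j) :
    litOK N f c u x ↔ litOK N f c' u' x := by
  unfold litOK
  have : x.2.2.map (env f c u) = x.2.2.map (env f c' u') := by
    refine List.map_congr_left fun v hv => ?_
    rcases v with a | a | a
    · rfl
    · exact hc _ hv a (Nat.lt_succ_self a)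
    · exact hu _ hv a (Nat.lt_succ_self a)
  rw [this]

/-- bound for the members of `c` occurring in `z` -/
def CB (x : List Req × ℕ) : Prop := ∀ r ∈ x.1, ∀ y ∈ r.1, ∀ v ∈ y.2.2, cbd v ≤ x.2

theorem cbd_prim : Primrec cbd := by
  have h := Primrec.sumCasesOn (α := Var) (β := ℕ) (γ := ℕ ⊕ ℕ) (σ := ℕ) (f := id)
    (g := fun _ _ => 0) (h := fun _ w => Sum.elim (fun j => j + 1) (fun _ => 0) w)
    Primrec.id (Primrec.const 0).to₂ (by
      have h2 := Primrec.sumCasesOn (α := Var × (ℕ ⊕ ℕ)) (β := ℕ) (γ := ℕ) (σ := ℕ)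
        (f := fun x => x.2) (g := fun _ j => j + 1) (h := fun _ _ => 0)
        Primrec.snd (Primrec.succ.comp Primrec.snd).to₂ (Primrec.const 0).to₂
      exact h2.of_eq fun x => by rcases x with ⟨_, a | a⟩ <;> rfl)
  exact h.of_eq fun v => by rcases v with a | a | a <;> rfl

theorem CB_prim : PrimrecPred CB := by
  have h3 : Sg 0 (fun w : (((List Req × ℕ) × Req) × Lit) × Var => cbd w.2 ≤ w.1.1.1.2) :=
    Sg.le (cbd_prim.comp Primrec.snd)
      (Primrec.snd.comp (Primrec.fst.comp (Primrec.fst.comp Primrec.fst)))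
  have h2 : Sg 0 (fun w : ((List Req × ℕ) × Req) × Lit => ∀ v ∈ w.2.2.2, cbd v ≤ w.1.1.2) :=
    Sg.allMem h3 (Primrec.snd.comp (Primrec.snd.comp Primrec.snd))
  have h1 : Sg 0 (fun w : (List Req × ℕ) × Req => ∀ y ∈ w.2.1, ∀ v ∈ y.2.2, cbd v ≤ w.1.2) :=
    Sg.allMem h2 (Primrec.fst.comp Primrec.snd)
  exact Sg.allMem h1 Primrec.fst

theorem CB_ex (z : List Req) : ∃ m, CB (z, m) := by
  have h1 : ∀ y : Lit, ∃ B, ∀ v ∈ y.2.2, cbd v < B := fun y => exists_bound cbd _
  choose b1 hb1 using h1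
  have h2 : ∀ r : Req, ∃ B, ∀ y ∈ r.1, b1 y < B := fun r => exists_bound b1 _
  choose b2 hb2 using h2
  obtain ⟨m, hm⟩ := exists_bound b2 z
  refine ⟨m, fun r hr y hy v hv => ?_⟩
  exact ((hb1 y v hv).trans ((hb2 r y hy).trans (hm r hr))).le

theorem CB_spec {M : Str sig} (f c : ℕ → M.C) (z : List Req) (m : ℕ) (h : CB (z, m)) :
    Th z M f c ↔ Th z M f (trunc (f 0) c m) := by
  refine exists_congr fun k => forall_congr' fun r => forall_congr' fun hr => ?_
  refine exists_congr fun u => and_congr Iff.rfl ?_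
  refine forall_congr' fun x => forall_congr' fun hx => ?_
  refine litOK_congr (fun v hv j hj => ?_) (fun v hv j _ => rfl)
  have := h r hr x hx v hv
  simp only [trunc]
  rw [if_pos (by omega)]

variable {A : (Lg sig).Structure ℕ}

theorem holdE_Sg (hA : ComputablePred (fun p : ℕ × List ℕ => Holds sig A p.1 p.2)) :
    Sg 1 (fun p : ℕ × List ℕ => HoldE (NS A) p.1 p.2) ∧
    Sg 1 (fun p : ℕ × List ℕ => ¬ HoldE (NS A) p.1 p.2) := by
  have e : ∀ p : ℕ × List ℕ, HoldE (NS A) p.1 p.2 ↔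
      (p.1 = 0 ∧ (p.2.length = 2 ∧ p.2.getD 0 0 = p.2.getD 1 0)) ∨
      (¬ p.1 = 0 ∧ Holds sig A (p.1 - 1) p.2) := by
    rintro ⟨s, l⟩
    simp only [HoldE]
    refine or_congr ?_ ?_
    · refine and_congr Iff.rfl ?_
      constructor
      · rintro ⟨a, rfl⟩; exact ⟨rfl, rfl⟩
      · rintro ⟨h1, h2⟩
        match l, h1, h2 with
        | [a, b], _, h2 => exact ⟨a, by simp at h2; subst h2; rfl⟩
    · constructor
      · rintro ⟨i, rfl, h⟩; exact ⟨by omega, h⟩
      · rintro ⟨h1, h2⟩; exact ⟨s - 1, by omega, h2⟩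
  have p1 : PrimrecPred (fun p : ℕ × List ℕ => p.1 = 0) :=
    Primrec.eq.comp Primrec.fst (Primrec.const 0)
  have p2 : PrimrecPred (fun p : ℕ × List ℕ => p.2.length = 2) :=
    Primrec.eq.comp (Primrec.list_length.comp Primrec.snd) (Primrec.const 2)
  have p3 : PrimrecPred (fun p : ℕ × List ℕ => p.2.getD 0 0 = p.2.getD 1 0) :=
    Primrec.eq.comp ((Primrec.list_getD 0).comp Primrec.snd (Primrec.const 0))
      ((Primrec.list_getD 0).comp Primrec.snd (Primrec.const 1))
  have hf : Primrec (fun p : ℕ × List ℕ => (p.1 - 1, p.2)) :=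
    (Primrec.nat_sub.comp Primrec.fst (Primrec.const 1)).pair Primrec.snd
  have c1 : Sg 1 (fun p : ℕ × List ℕ => Holds sig A (p.1 - 1) p.2) :=
    Sg.comp (f := fun p : ℕ × List ℕ => (p.1 - 1, p.2)) (Sg.of_computable hA) hf
  have c2 : Sg 1 (fun p : ℕ × List ℕ => ¬ Holds sig A (p.1 - 1) p.2) :=
    Sg.comp (f := fun p : ℕ × List ℕ => (p.1 - 1, p.2)) (Sg.of_computable hA.not) hf
  constructor
  · exact (((Sg.prim p1).and ((Sg.prim p2).and (Sg.prim p3))).or
      ((Sg.nprim p1).and c1)).congr fun p => (e p).symm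
  · refine (((Sg.nprim p1).or ((Sg.nprim p2).or (Sg.nprim p3))).and
      ((Sg.prim p1).or c2)).congr fun p => ?_
    rw [e p]
    tauto

theorem env_prim : Primrec₂ (fun (w : List ℕ × List ℕ) (v : Var) =>
    env (X := ℕ) id (pad w.1) (pad w.2) v) := by
  have h2 := Primrec.sumCasesOn (α := ((List ℕ × List ℕ) × Var) × (ℕ ⊕ ℕ)) (β := ℕ) (γ := ℕ)
    (σ := ℕ) (f := fun x => x.2) (g := fun x j => x.1.1.1.getD j 0)
    (h := fun x j => x.1.1.2.getD j 0) Primrec.snd
    ((Primrec.list_getD 0).comp (Primrec.fst.comp (Primrec.fst.comp (Primrec.fst.comp Primrec.fst)))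
      Primrec.snd)
    ((Primrec.list_getD 0).comp (Primrec.snd.comp (Primrec.fst.comp (Primrec.fst.comp Primrec.fst)))
      Primrec.snd)
  have h2' : Primrec₂ (fun (x : (List ℕ × List ℕ) × Var) (w : ℕ ⊕ ℕ) =>
      (Sum.elim (fun j => x.1.1.getD j 0) (fun j => x.1.2.getD j 0) w : ℕ)) :=
    h2.of_eq fun x => by rcases x with ⟨_, a | a⟩ <;> rfl
  have h := Primrec.sumCasesOn (α := (List ℕ × List ℕ) × Var) (β := ℕ) (γ := ℕ ⊕ ℕ) (σ := ℕ)
    (f := fun x => x.2) (g := fun _ j => j) Primrec.snd Primrec.snd h2'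
  exact h.of_eq fun x => by rcases x with ⟨⟨a, b⟩, v | v | v⟩ <;> rfl

theorem litOK_Sg (hA : ComputablePred (fun p : ℕ × List ℕ => Holds sig A p.1 p.2)) :
    Sg 1 (fun w : (List ℕ × List ℕ) × Lit => litOK (NS A) id (pad w.1.1) (pad w.1.2) w.2) := by
  obtain ⟨c1, c2⟩ := holdE_Sg hA
  have hf : Primrec (fun w : (List ℕ × List ℕ) × Lit =>
      (w.2.2.1, w.2.2.2.map (fun v => env (X := ℕ) id (pad w.1.1) (pad w.1.2) v))) := by
    refine (Primrec.fst.comp (Primrec.snd.comp Primrec.snd)).pair ?_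
    refine Primrec.list_map (Primrec.snd.comp (Primrec.snd.comp Primrec.snd)) ?_
    exact env_prim.comp (Primrec.fst.comp Primrec.fst) Primrec.snd
  have d1 := Sg.comp (f := fun w : (List ℕ × List ℕ) × Lit =>
      (w.2.2.1, w.2.2.2.map (fun v => env (X := ℕ) id (pad w.1.1) (pad w.1.2) v))) c1 hf
  have d2 := Sg.comp (f := fun w : (List ℕ × List ℕ) × Lit =>
      (w.2.2.1, w.2.2.2.map (fun v => env (X := ℕ) id (pad w.1.1) (pad w.1.2) v))) c2 hf
  have p1 : PrimrecPred (fun w : (List ℕ × List ℕ) × Lit => w.2.1 = 1) :=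
    Primrec.eq.comp (Primrec.fst.comp Primrec.snd) (Primrec.const 1)
  refine (((Sg.prim p1).and d1).or ((Sg.nprim p1).and d2)).congr fun w => ?_
  simp only [litOK]
  constructor
  · rintro (⟨h1, h2⟩ | ⟨h1, h2⟩)
    · exact ⟨fun _ => h1, fun _ => h2⟩
    · exact ⟨fun h => absurd h h2, fun h => absurd h h1⟩
  · intro h
    by_cases h1 : w.2.1 = 1
    · exact Or.inl ⟨h1, h.2 h1⟩
    · exact Or.inr ⟨h1, fun h2 => h1 (h.1 h2)⟩

theorem pad_map_range {g : ℕ → ℕ} {B j : ℕ} (h : j < B) : pad ((List.range B).map g) j = g j := by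
  simp only [pad]
  rw [List.getD_eq_getElem?_getD]
  simp [h]

theorem Th_list (z : List Req) (c : ℕ → ℕ) : Th z (NS A) id c ↔
    ∃ H : List ℕ, ∀ r ∈ z, ∃ U : List ℕ, (∀ i < r.2.length, pad U i = pad H (r.2.getD i 0)) ∧
      ∀ x ∈ r.1, litOK (NS A) id c (pad U) x := by
  constructor
  · rintro ⟨h, hh⟩
    have b1 : ∀ r : Req, ∃ B, ∀ n ∈ r.2, n < B := fun r => exists_bound id _
    choose b1 hb1 using b1
    obtain ⟨B, hB⟩ := exists_bound b1 z
    refine ⟨(List.range B).map h, fun r hr => ?_⟩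
    obtain ⟨u, hu1, hu2⟩ := hh r hr
    have b2 : ∀ y : Lit, ∃ B, ∀ v ∈ y.2.2, ubd v < B := fun y => exists_bound ubd _
    choose b2 hb2 using b2
    obtain ⟨B2, hB2⟩ := exists_bound b2 r.1
    refine ⟨(List.range (max B2 r.2.length)).map u, fun i hi => ?_, fun x hx => ?_⟩
    · have e1 : pad ((List.range (max B2 r.2.length)).map (u : ℕ → ℕ)) i = u i :=
        pad_map_range (g := u) (lt_of_lt_of_le hi (le_max_right _ _))
      have hlt : r.2.getD i 0 < B := by
        rw [List.getD_eq_getElem _ _ hi]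
        exact (hb1 r _ (List.getElem_mem hi)).trans (hB r hr)
      exact e1.trans ((hu1 i hi).trans (pad_map_range (g := h) hlt).symm)
    · refine (litOK_congr (N := NS A) (fun v _ j _ => rfl) (fun v hv j hj => ?_)).1 (hu2 x hx)
      refine (pad_map_range (g := u) ?_).symm
      exact lt_of_lt_of_le (hj.trans ((hb2 x v hv).trans (hB2 x hx))) (le_max_left _ _)
  · rintro ⟨H, hH⟩
    refine ⟨pad H, fun r hr => ?_⟩
    obtain ⟨U, h1, h2⟩ := hH r hr
    exact ⟨pad U, h1, h2⟩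

theorem Th_Sg (hA : ComputablePred (fun p : ℕ × List ℕ => Holds sig A p.1 p.2)) :
    Sg 1 (fun x : List Req × List ℕ => Th x.1 (NS A) id (pad x.2)) := by
  have h4 : Sg 1 (fun w : ((((List Req × List ℕ) × List ℕ) × Req) × List ℕ) × Lit =>
      litOK (NS A) id (pad w.1.1.1.1.2) (pad w.1.2) w.2) := by
    refine Sg.comp (f := fun w : ((((List Req × List ℕ) × List ℕ) × Req) × List ℕ) × Lit =>
      ((w.1.1.1.1.2, w.1.2), w.2)) (litOK_Sg hA) ?_
    exact ((Primrec.snd.comp (Primrec.fst.comp (Primrec.fst.comp (Primrec.fst.comp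
      Primrec.fst)))).pair (Primrec.snd.comp Primrec.fst)).pair Primrec.snd
  have h3' : Sg 1 (fun w : ((((List Req × List ℕ) × List ℕ) × Req) × List ℕ) × ℕ =>
      pad w.1.2 w.2 = pad w.1.1.1.2 (w.1.1.2.2.getD w.2 0)) := by
    refine Sg.eq ?_ ?_
    · exact (Primrec.list_getD 0).comp (Primrec.snd.comp Primrec.fst) Primrec.snd
    · refine (Primrec.list_getD 0).comp (Primrec.snd.comp (Primrec.fst.comp (Primrec.fst.comp
        Primrec.fst))) ?_
      exact (Primrec.list_getD 0).comp (Primrec.snd.comp (Primrec.snd.comp (Primrec.fst.comp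
        Primrec.fst))) Primrec.snd
  have h3 : Sg 1 (fun w : (((List Req × List ℕ) × List ℕ) × Req) × List ℕ =>
      (∀ i < w.1.2.2.length, pad w.2 i = pad w.1.1.2 (w.1.2.2.getD i 0)) ∧
      ∀ x ∈ w.1.2.1, litOK (NS A) id (pad w.1.1.1.2) (pad w.2) x) :=
    Sg.and (Sg.allLt h3' (Primrec.list_length.comp (Primrec.snd.comp (Primrec.snd.comp
      Primrec.fst)))) (Sg.allMem h4 (Primrec.fst.comp (Primrec.snd.comp Primrec.fst)))
  have h2 := Sg.ex h3
  have h1 := Sg.allMem h2 (L := fun w : (List Req × List ℕ) × List ℕ => w.1.1)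
    (Primrec.fst.comp Primrec.fst)
  exact (Sg.ex h1).congr fun x => (Th_list x.1 (pad x.2)).symm

/-- Truth of the coded families at a generic sequence is `Delta_3`. -/
theorem GenSeq.Th_truth {M : Str sig} {f c : ℕ → M.C} {t : ℕ → ℕ} (h : GenSeq A M f c t)
    (hA : ComputablePred (fun p : ℕ × List ℕ => Holds sig A p.1 p.2)) :
    Sg 3 (fun z : List Req => Th z M f c) ∧ Sg 3 (fun z : List Req => ¬ Th z M f c) :=
  ⟨h.truth Th_def (Th_Sg hA) CB_prim CB_ex (CB_spec f c),
    (h.truth_not' Th_def (Th_Sg hA) CB_prim CB_ex (CB_spec f c)).succ⟩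

end FD55
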