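import Mathlib
import Pool.Agent.Lib.MP_fd2900_lc.H55.Names
import Pool.Agent.Lib.MP_fd2900_lc.H55.Copy

/-!
Recursively defined paths with `Delta_3` decisions; the requirements along the path.
-/

namespace FD55

open FirstOrder FirstOrder.Language

variable {sig : ℕ → Option ℕ}

open Classical in
/-- the path with decisions `D` -/
noncomputable def pth (D : List ℕ → Prop) : ℕ → List ℕ
  | 0 => []
  | n + 1 => pth D n ++ [if D (pth D n) then 1 else 0]

theorem pth_length (D : List ℕ → Prop) : ∀ n, (pth D n).length = n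
  | 0 => rfl
  | n + 1 => by simp [pth, pth_length D n]

theorem pth_take (D : List ℕ → Prop) : ∀ n i, i ≤ n → (pth D n).take i = pth D i
  | 0, i, h => by
      obtain rfl : i = 0 := by omega
      rfl
  | n + 1, i, h => by
      rcases Nat.lt_or_ge n i with h1 | h1
      · obtain rfl : i = n + 1 := by omega
        rw [List.take_of_length_le]
        rw [pth_length]
      · rw [pth, List.take_append_of_le_length (by rw [pth_length]; exact h1)]
        exact pth_take D n i h1

theorem pth_getD (D : List ℕ → Prop) (n i : ℕ) (h : i < n) :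
    (D (pth D i) → (pth D n).getD i 0 = 1) ∧ (¬ D (pth D i) → (pth D n).getD i 0 = 0) := by
  have h1 : (pth D n).getD i 0 = (pth D (i + 1)).getD i 0 := by
    rw [← pth_take D n (i + 1) h, List.getD_eq_getElem?_getD, List.getD_eq_getElem?_getD,
      List.getElem?_take_of_lt (Nat.lt_succ_self i)]
  rw [h1, pth]
  have h2 : (pth D i).length = i := pth_length D i
  constructor
  · intro hD
    rw [if_pos hD, List.getD_append_right _ _ _ _ (by omega)]
    simp [h2]
  · intro hD
    rw [if_neg hD, List.getD_append_right _ _ _ _ (by omega)]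
    simp [h2]

theorem pth_iff (D : List ℕ → Prop) (τ : List ℕ) :
    τ = pth D τ.length ↔ ∀ i < τ.length, (τ.getD i 0 = 1 ∧ D (τ.take i)) ∨
      (τ.getD i 0 = 0 ∧ ¬ D (τ.take i)) := by
  constructor
  · intro h i hi
    have e1 : τ.take i = pth D i := by rw [h]; exact pth_take D _ i (by omega)
    have e2 := pth_getD D τ.length i hi
    rw [← h] at e2
    rw [e1]
    by_cases hD : D (pth D i)
    · exact Or.inl ⟨e2.1 hD, hD⟩
    · exact Or.inr ⟨e2.2 hD, hD⟩
  · intro h
    have main : ∀ n ≤ τ.length, τ.take n = pth D n := by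
      intro n
      induction n with
      | zero => intro _; simp [pth]
      | succ n ih =>
          intro hn
          have ih' := ih (by omega)
          rw [List.take_succ_eq_append_getElem (by omega), ih', pth]
          congr 1
          have := h n (by omega)
          rw [ih', List.getD_eq_getElem _ _ (by omega)] at this
          rcases this with ⟨a, b⟩ | ⟨a, b⟩
          · rw [a, if_pos b]
          · rw [a, if_neg b]
    rw [← main _ le_rfl, List.take_length]

/-- `Delta_3` decisions give a `Delta_3` path -/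
theorem pth_Sg {D : List ℕ → Prop} (h1 : Sg 3 D) (h2 : Sg 3 (fun τ => ¬ D τ)) :
    Sg 3 (fun n => D (pth D n)) ∧ Sg 3 (fun n => ¬ D (pth D n)) := by
  have pt : Primrec (fun w : (ℕ × List ℕ) × ℕ => w.1.2.take w.2) :=
    Primrec.list_take.comp Primrec.snd (Primrec.snd.comp Primrec.fst)
  have pg : Primrec (fun w : (ℕ × List ℕ) × ℕ => w.1.2.getD w.2 0) :=
    (Primrec.list_getD 0).comp (Primrec.snd.comp Primrec.fst) Primrec.snd
  have a1 : Sg 3 (fun w : (ℕ × List ℕ) × ℕ => (w.1.2.getD w.2 0 = 1 ∧ D (w.1.2.take w.2)) ∨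
      (w.1.2.getD w.2 0 = 0 ∧ ¬ D (w.1.2.take w.2))) := by
    refine Sg.or (Sg.and (Sg.eq pg (Primrec.const 1)) ?_) (Sg.and (Sg.eq pg (Primrec.const 0)) ?_)
    · exact Sg.comp (f := fun w : (ℕ × List ℕ) × ℕ => w.1.2.take w.2) h1 pt
    · exact Sg.comp (f := fun w : (ℕ × List ℕ) × ℕ => w.1.2.take w.2) h2 pt
  have a2 : Sg 3 (fun w : ℕ × List ℕ => ∀ i < w.2.length,
      (w.2.getD i 0 = 1 ∧ D (w.2.take i)) ∨ (w.2.getD i 0 = 0 ∧ ¬ D (w.2.take i))) :=
    Sg.allLt a1 (Primrec.list_length.comp Primrec.snd)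
  have a3 : Sg 3 (fun w : ℕ × List ℕ => w.2.length = w.1) :=
    Sg.eq (Primrec.list_length.comp Primrec.snd) Primrec.fst
  have key : ∀ G : List ℕ → Prop, ∀ n, (∃ τ : List ℕ, (∀ i < τ.length,
      (τ.getD i 0 = 1 ∧ D (τ.take i)) ∨ (τ.getD i 0 = 0 ∧ ¬ D (τ.take i))) ∧ τ.length = n ∧
      G τ) ↔ G (pth D n) := by
    intro G n
    constructor
    · rintro ⟨τ, h1, h2, h3⟩
      have := (pth_iff D τ).2 h1
      rw [h2] at this
      rwa [← this]
    · intro hG
      exact ⟨pth D n, (pth_iff D _).1 (by rw [pth_length]), pth_length D n, hG⟩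
  constructor
  · have a4 : Sg 3 (fun w : ℕ × List ℕ => D w.2) :=
      Sg.comp (f := fun w : ℕ × List ℕ => w.2) h1 Primrec.snd
    exact (Sg.ex (a2.and (a3.and a4))).congr fun n => key D n
  · have a4 : Sg 3 (fun w : ℕ × List ℕ => ¬ D w.2) :=
      Sg.comp (f := fun w : ℕ × List ℕ => w.2) h2 Primrec.snd
    exact (Sg.ex (a2.and (a3.and a4))).congr fun n => key (fun τ => ¬ D τ) n

/-- solutions of an existential formula coded by a list of literals -/
def Sol (M : Str sig) (f c : ℕ → M.C) (e : List Lit) (x : M.C) : Prop :=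
  ∃ u : ℕ → M.C, u 0 = x ∧ ∀ y ∈ e, litOK M f c u y

/-- the literal `u 0 ≠ u 1` -/
def neqL : List Lit := [(0, 0, [Sum.inr (Sum.inr 0), Sum.inr (Sum.inr 1)])]

/-- the literal `u 0 = f 0` -/
def eqzL : List Lit := [(1, 0, [Sum.inr (Sum.inr 0), Sum.inl 0])]

/-- the arguments `u 0, ..., u (n-1)` -/
def uargs (n : ℕ) : List Var := (List.range n).map fun i => Sum.inr (Sum.inr i)

theorem reqOK_sol (M : Str sig) (f c h : ℕ → M.C) (e : List Lit) (i : ℕ) :
    reqOK M f c h (e, [i]) ↔ Sol M f c e (h i) := by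
  refine exists_congr fun u => and_congr ?_ Iff.rfl
  simp

theorem holdE_pair (M : Str sig) (a b : M.C) : HoldE M 0 [a, b] ↔ a = b := by
  simp only [HoldE, true_and]
  constructor
  · rintro (⟨x, hx⟩ | ⟨i, hi, _⟩)
    · simp only [List.cons.injEq, and_true] at hx
      rw [hx.1, hx.2]
    · omega
  · intro hh; exact Or.inl ⟨b, by rw [hh]⟩

theorem reqOK_neq (M : Str sig) (f c h : ℕ → M.C) (i j : ℕ) :
    reqOK M f c h (neqL, [i, j]) ↔ h i ≠ h j := by
  unfold reqOK neqL
  simp only [List.mem_singleton, forall_eq, litOK, List.map_cons, List.map_nil, env, Sum.elim_inr]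
  constructor
  · rintro ⟨u, h1, h2⟩
    rw [holdE_pair] at h2
    have a0 := h1 0 (by simp)
    have a1 := h1 1 (by simp)
    simp only [List.getD_cons_zero, List.getD_cons_succ] at a0 a1
    rw [a0, a1] at h2
    intro hh
    exact absurd (h2.1 hh) (by norm_num)
  · intro hne
    refine ⟨fun k => if k = 0 then h i else h j, ?_, ?_⟩
    · intro k hk
      simp only [List.length_cons, List.length_nil] at hk
      interval_cases k <;> simp
    · rw [holdE_pair]
      simp [hne]

theorem reqOK_eqz (M : Str sig) (f c h : ℕ → M.C) (i : ℕ) :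
    reqOK M f c h (eqzL, [i]) ↔ h i = f 0 := by
  unfold reqOK eqzL
  simp only [List.mem_singleton, forall_eq, litOK, List.map_cons, List.map_nil, env, Sum.elim_inr,
    Sum.elim_inl]
  constructor
  · rintro ⟨u, h1, h2⟩
    rw [holdE_pair] at h2
    have a0 := h1 0 (by simp)
    simp only [List.getD_cons_zero] at a0
    rw [a0] at h2
    exact h2.2 trivial
  · intro hh
    refine ⟨fun k => h i, ?_, ?_⟩
    · intro k hk
      simp only [List.length_cons, List.length_nil] at hk
      interval_cases k; simp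
    · rw [holdE_pair]
      simp [hh]

theorem reqOK_fact (M : Str sig) (f c h : ℕ → M.C) (b s : ℕ) (l : List ℕ) :
    reqOK M f c h ([(b, s, uargs l.length)], l) ↔ (HoldE M s (l.map h) ↔ b = 1) := by
  have e : ∀ u : ℕ → M.C, (∀ i < l.length, u i = h (l.getD i 0)) →
      (uargs l.length).map (env f c u) = l.map h := by
    intro u hu
    refine List.ext_getElem (by simp [uargs]) fun i hi hi' => ?_
    have hi2 : i < l.length := by simpa using hi'
    simp only [uargs, List.map_map, List.getElem_map, List.getElem_range, Function.comp, env,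
      Sum.elim_inr]
    rw [hu i hi2, List.getD_eq_getElem _ _ hi2]
  unfold reqOK
  simp only [List.mem_singleton, forall_eq, litOK]
  constructor
  · rintro ⟨u, h1, h2⟩
    rwa [e u h1] at h2
  · intro hh
    refine ⟨fun i => h (l.getD i 0), fun i _ => rfl, ?_⟩
    rw [e _ (fun i _ => rfl)]
    exact hh

theorem reqOK_congr {M : Str sig} {f c h h' : ℕ → M.C} {r : Req} (H : ∀ n ∈ r.2, h n = h' n)
    (hr : reqOK M f c h r) : reqOK M f c h' r := by
  obtain ⟨u, h1, h2⟩ := hr
  refine ⟨u, fun i hi => ?_, h2⟩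
  rw [h1 i hi]
  rw [List.getD_eq_getElem _ _ hi]
  exact H _ (List.getElem_mem hi)

end FD55
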