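import Mathlib
import Pool.Agent.Lib.MP_fd2900_lc.H55.Path

/-!
The construction of a `Delta_3` numbering of a model in which every element is existentially
algebraic over the parameters and a generic sequence.
-/

namespace FD55

open FirstOrder FirstOrder.Language

variable {sig : ℕ → Option ℕ}

/-- names: number `ν` codes (formula, number of solutions, index) -/
def nm (ν : ℕ) : List Lit × ℕ × ℕ :=
  ((Encodable.decode ν : Option (List Lit × ℕ × ℕ))).getD ([], 0, 0)

theorem nm_encode (x : List Lit × ℕ × ℕ) : nm (Encodable.encode x) = x := by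
  unfold nm
  rw [Encodable.encodek]
  rfl

theorem nm_prim : Primrec nm :=
  Primrec.option_getD.comp Primrec.decode (Primrec.const ([], 0, 0))

/-- canonical names -/
def cn (ν : ℕ) : Prop := Encodable.encode (nm ν) = ν ∧ (nm ν).2.2 < (nm ν).2.1

theorem cn_prim : PrimrecPred cn :=
  (Primrec.eq.comp (Primrec.encode.comp nm_prim) Primrec.id).and
    (Primrec.nat_lt.comp (Primrec.snd.comp (Primrec.snd.comp nm_prim))
      (Primrec.fst.comp (Primrec.snd.comp nm_prim)))

/-- names in the same block -/
def sb (ν' ν : ℕ) : Prop := cn ν' ∧ (nm ν').1 = (nm ν).1 ∧ (nm ν').2.1 = (nm ν).2.1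

/-- requirements: `k` different solutions of `e` -/
def zc (x : List Lit × ℕ) : List Req :=
  (List.range x.2).flatMap fun i => (x.1, [i]) :: (List.range i).map fun j => (neqL, [j, i])

theorem zc_prim : Primrec zc := by
  refine Primrec.list_flatMap (Primrec.list_range.comp Primrec.snd) ?_
  refine Primrec.list_cons.comp ?_ ?_
  · exact (Primrec.fst.comp Primrec.fst).pair (Primrec.list_cons.comp Primrec.snd
      (Primrec.const []))
  · refine Primrec.list_map (Primrec.list_range.comp Primrec.snd) ?_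
    exact (Primrec.const neqL).pair (Primrec.list_cons.comp Primrec.snd
      (Primrec.list_cons.comp (Primrec.snd.comp Primrec.fst) (Primrec.const [])))

theorem Th_zc (M : Str sig) (f c : ℕ → M.C) (e : List Lit) (k : ℕ) :
    Th (zc (e, k)) M f c ↔ ∃ s : Finset M.C, s.card = k ∧ ∀ y ∈ s, Sol M f c e y := by
  rw [exists_finset_iff]
  refine exists_congr fun h => ?_
  simp only [zc, List.mem_flatMap, List.mem_cons, List.mem_map, List.mem_range]
  constructor
  · intro H j hj
    refine ⟨fun j' hj' => ?_, ?_⟩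
    · have := H (neqL, [j', j]) ⟨j, hj, Or.inr ⟨j', hj', rfl⟩⟩
      rwa [reqOK_neq] at this
    · have := H (e, [j]) ⟨j, hj, Or.inl rfl⟩
      rwa [reqOK_sol] at this
  · rintro H r ⟨j, hj, rfl | ⟨j', hj', rfl⟩⟩
    · rw [reqOK_sol]; exact (H j hj).2
    · rw [reqOK_neq]; exact (H j hj).1 j' hj'

/-- `e` has exactly `k` solutions -/
def val (M : Str sig) (f c : ℕ → M.C) (x : List Lit × ℕ) : Prop :=
  Th (zc x) M f c ∧ ¬ Th (zc (x.1, x.2 + 1)) M f c

theorem val_Sg {M : Str sig} {f c : ℕ → M.C}
    (h1 : Sg 3 (fun z : List Req => Th z M f c)) (h2 : Sg 3 (fun z : List Req => ¬ Th z M f c)) :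
    Sg 3 (val M f c) ∧ Sg 3 (fun x => ¬ val M f c x) := by
  have p2 : Primrec (fun x : List Lit × ℕ => zc (x.1, x.2 + 1)) :=
    zc_prim.comp (Primrec.fst.pair (Primrec.succ.comp Primrec.snd))
  constructor
  · exact (Sg.comp h1 zc_prim).and (Sg.comp (f := fun x : List Lit × ℕ => zc (x.1, x.2 + 1)) h2 p2)
  · refine ((Sg.comp h2 zc_prim).or
      (Sg.comp (f := fun x : List Lit × ℕ => zc (x.1, x.2 + 1)) h1 p2)).congr fun x => ?_
    unfold val
    tauto

/-- valid names -/
def vn (M : Str sig) (f c : ℕ → M.C) (ν : ℕ) : Prop := cn ν ∧ val M f c ((nm ν).1, (nm ν).2.1)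

/-- the facts: symbol and names -/
def fct (t : ℕ) : ℕ × List ℕ :=
  let p := ((Encodable.decode t.unpair.1 : Option (ℕ × List ℕ))).getD (0, [])
  (p.1, p.2.map fun ν => if ν ≤ t then ν else 0)

theorem fct_prim : Primrec fct := by
  have hp : Primrec (fun t : ℕ =>
      ((Encodable.decode t.unpair.1 : Option (ℕ × List ℕ))).getD (0, [])) :=
    Primrec.option_getD.comp (Primrec.decode.comp (Primrec.fst.comp Primrec.unpair))
      (Primrec.const (0, []))
  refine (Primrec.fst.comp hp).pair (Primrec.list_map (Primrec.snd.comp hp) ?_)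
  exact Primrec.ite (Primrec.nat_le.comp Primrec.snd Primrec.fst) Primrec.snd (Primrec.const 0)

theorem fct_le (t : ℕ) : ∀ ν ∈ (fct t).2, ν ≤ t := by
  intro ν hν
  obtain ⟨μ, _, rfl⟩ := List.mem_map.1 hν
  split_ifs with h
  · exact h
  · exact Nat.zero_le _

theorem fct_eq (s : ℕ) (l : List ℕ) (t : ℕ) (h1 : t.unpair.1 = Encodable.encode (s, l))
    (h2 : ∀ ν ∈ l, ν ≤ t) : fct t = (s, l) := by
  unfold fct
  rw [h1]
  simp only [Encodable.encodek, Option.getD_some, Prod.mk.injEq, true_and]
  conv_rhs => rw [← List.map_id l]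
  refine List.map_congr_left fun ν hν => ?_
  simp [h2 ν hν]

instance (ν' ν : ℕ) : Decidable (sb ν' ν) := by unfold sb cn; infer_instance

theorem sb_prim : PrimrecRel sb := by
  have h1 : PrimrecPred (fun x : ℕ × ℕ => cn x.1) := cn_prim.comp Primrec.fst
  have h2 : PrimrecPred (fun x : ℕ × ℕ => (nm x.1).1 = (nm x.2).1) :=
    Primrec.eq.comp (Primrec.fst.comp (nm_prim.comp Primrec.fst))
      (Primrec.fst.comp (nm_prim.comp Primrec.snd))
  have h3 : PrimrecPred (fun x : ℕ × ℕ => (nm x.1).2.1 = (nm x.2).2.1) :=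
    Primrec.eq.comp (Primrec.fst.comp (Primrec.snd.comp (nm_prim.comp Primrec.fst)))
      (Primrec.fst.comp (Primrec.snd.comp (nm_prim.comp Primrec.snd)))
  exact h1.and (h2.and h3)

/-- requirements for the position `p` with bit `b` -/
def rqB (p b : ℕ) : List Req :=
  if p % 2 = 0 then
    (if b = 1 then ((nm (p / 2)).1, [p / 2]) :: (List.range (p / 2)).flatMap
        (fun ν' => if sb ν' (p / 2) then [(neqL, [ν', p / 2])] else [])
      else [(eqzL, [p / 2])])
  else [([(b, (fct (p / 2)).1, uargs (fct (p / 2)).2.length)], (fct (p / 2)).2)]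

theorem uargs_prim : Primrec uargs := by
  refine Primrec.list_map Primrec.list_range ?_
  exact (Primrec.sumInr.comp (Primrec.sumInr.comp Primrec.snd))

theorem rqB_prim : Primrec₂ rqB := by
  have hp : Primrec (fun x : ℕ × ℕ => x.1 / 2) := Primrec.nat_div.comp Primrec.fst
    (Primrec.const 2)
  refine Primrec.ite (Primrec.eq.comp (Primrec.nat_mod.comp Primrec.fst (Primrec.const 2))
    (Primrec.const 0)) ?_ ?_
  · refine Primrec.ite (Primrec.eq.comp Primrec.snd (Primrec.const 1)) ?_ ?_
    · refine Primrec.list_cons.comp ?_ ?_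
      · exact (Primrec.fst.comp (nm_prim.comp hp)).pair
          (Primrec.list_cons.comp hp (Primrec.const []))
      · refine Primrec.list_flatMap (Primrec.list_range.comp hp) ?_
        refine Primrec.ite (sb_prim.comp Primrec.snd (hp.comp Primrec.fst)) ?_ (Primrec.const [])
        refine Primrec.list_cons.comp ?_ (Primrec.const [])
        exact (Primrec.const neqL).pair (Primrec.list_cons.comp Primrec.snd
          (Primrec.list_cons.comp (hp.comp Primrec.fst) (Primrec.const [])))
    · refine Primrec.list_cons.comp ?_ (Primrec.const [])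
      exact (Primrec.const eqzL).pair (Primrec.list_cons.comp hp (Primrec.const []))
  · refine Primrec.list_cons.comp ?_ (Primrec.const [])
    have hf := fct_prim.comp hp
    refine Primrec.pair ?_ (Primrec.snd.comp hf)
    refine Primrec.list_cons.comp ?_ (Primrec.const [])
    exact Primrec.snd.pair ((Primrec.fst.comp hf).pair
      (uargs_prim.comp (Primrec.list_length.comp (Primrec.snd.comp hf))))

/-- all the requirements of a finite path -/
def rq (τ : List ℕ) : List Req :=
  (List.range τ.length).flatMap fun p => rqB p (τ.getD p 0)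

theorem rq_prim : Primrec rq := by
  refine Primrec.list_flatMap (Primrec.list_range.comp Primrec.list_length) ?_
  exact rqB_prim.comp Primrec.snd ((Primrec.list_getD 0).comp Primrec.fst Primrec.snd)

/-- the decisions -/
def dec (M : Str sig) (f c : ℕ → M.C) (τ : List ℕ) : Prop :=
  (τ.length % 2 = 0 ∧ vn M f c (τ.length / 2)) ∨
    (¬ τ.length % 2 = 0 ∧ ¬ Th (rq (τ ++ [0])) M f c)

theorem dec_Sg {M : Str sig} {f c : ℕ → M.C}
    (h1 : Sg 3 (fun z : List Req => Th z M f c)) (h2 : Sg 3 (fun z : List Req => ¬ Th z M f c)) :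
    Sg 3 (dec M f c) ∧ Sg 3 (fun x => ¬ dec M f c x) := by
  obtain ⟨v1, v2⟩ := val_Sg h1 h2
  have hl2 : Primrec (fun τ : List ℕ => τ.length / 2) :=
    Primrec.nat_div.comp Primrec.list_length (Primrec.const 2)
  have p0 : PrimrecPred (fun τ : List ℕ => τ.length % 2 = 0) :=
    Primrec.eq.comp (Primrec.nat_mod.comp Primrec.list_length (Primrec.const 2)) (Primrec.const 0)
  have p1 : PrimrecPred (fun τ : List ℕ => cn (τ.length / 2)) := cn_prim.comp hl2
  have p2 : Primrec (fun τ : List ℕ => ((nm (τ.length / 2)).1, (nm (τ.length / 2)).2.1)) :=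
    (Primrec.fst.comp (nm_prim.comp hl2)).pair
      (Primrec.fst.comp (Primrec.snd.comp (nm_prim.comp hl2)))
  have p3 : Primrec (fun τ : List ℕ => rq (τ ++ [0])) :=
    rq_prim.comp (Primrec.list_append.comp Primrec.id (Primrec.const [0]))
  have q1 := Sg.comp (f := fun τ : List ℕ => ((nm (τ.length / 2)).1, (nm (τ.length / 2)).2.1)) v1 p2
  have q2 := Sg.comp (f := fun τ : List ℕ => ((nm (τ.length / 2)).1, (nm (τ.length / 2)).2.1)) v2 p2
  have q3 := Sg.comp (f := fun τ : List ℕ => rq (τ ++ [0])) h1 p3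
  have q4 := Sg.comp (f := fun τ : List ℕ => rq (τ ++ [0])) h2 p3
  constructor
  · exact ((Sg.prim p0).and ((Sg.prim p1).and q1)).or ((Sg.nprim p0).and q4)
  · refine (((Sg.nprim p0).or ((Sg.nprim p1).or q2)).and ((Sg.prim p0).or q3)).congr
      fun τ => ?_
    unfold dec vn
    tauto

end FD55
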