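import Mathlib
import Pool.Agent.Lib.MP_fd2900_lc.H55.Build

/-!
The numbering: extension of partial assignments, compactness, surjectivity.
-/

namespace FD55

open FirstOrder FirstOrder.Language

variable {sig : ℕ → Option ℕ}

section
variable (M : Str sig) (f c : ℕ → M.C)

open Classical in
/-- the bit of the true path at position `p` -/
noncomputable def bit (p : ℕ) : ℕ := if dec M f c (pth (dec M f c) p) then 1 else 0

/-- `h` satisfies the requirements at position `p` of the true path -/
def OKp (h : ℕ → M.C) (p : ℕ) : Prop := ∀ r ∈ rqB p (bit M f c p), reqOK M f c h r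

variable {M f c}

theorem bit_getD (n p : ℕ) (h : p < n) : (pth (dec M f c) n).getD p 0 = bit M f c p := by
  obtain ⟨h1, h2⟩ := pth_getD (dec M f c) n p h
  unfold bit
  split_ifs with hD
  · exact h1 hD
  · exact h2 hD

/-- the names occurring at position `p` -/
theorem rqB_names (p b : ℕ) : ∀ r ∈ rqB p b, ∀ ν ∈ r.2, ν ≤ p / 2 := by
  intro r hr ν hν
  unfold rqB at hr
  split_ifs at hr with h1 h2
  · rcases List.mem_cons.1 hr with rfl | hr
    · simp only [List.mem_singleton] at hν
      omega
    · obtain ⟨ν', hν', hr⟩ := List.mem_flatMap.1 hr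
      rw [List.mem_range] at hν'
      split_ifs at hr with h3
      · rw [List.mem_singleton] at hr
        subst hr
        simp only [List.mem_cons, List.not_mem_nil, or_false] at hν
        omega
      · simp at hr
  · rw [List.mem_singleton] at hr
    subst hr
    simp only [List.mem_singleton] at hν
    omega
  · rw [List.mem_singleton] at hr
    subst hr
    exact fct_le _ _ hν

theorem OKp_congr {h h' : ℕ → M.C} {p : ℕ} (H : ∀ ν ≤ p / 2, h ν = h' ν)
    (hp : OKp M f c h p) : OKp M f c h' p := fun r hr =>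
  reqOK_congr (fun ν hν => H ν (rqB_names _ _ r hr ν hν)) (hp r hr)

theorem OKp_odd (h : ℕ → M.C) (t : ℕ) : OKp M f c h (2 * t + 1) ↔
    (HoldE M (fct t).1 ((fct t).2.map h) ↔ bit M f c (2 * t + 1) = 1) := by
  unfold OKp rqB
  rw [if_neg (by omega), show (2 * t + 1) / 2 = t by omega]
  simp only [List.mem_singleton, forall_eq]
  rw [reqOK_fact]

theorem dec_even (τ : List ℕ) (h : τ.length % 2 = 0) :
    dec M f c τ ↔ vn M f c (τ.length / 2) := by
  unfold dec
  simp [h]

theorem dec_odd (τ : List ℕ) (h : τ.length % 2 = 1) :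
    dec M f c τ ↔ ¬ Th (rq (τ ++ [0])) M f c := by
  unfold dec
  simp [h]

theorem bit_even (ν : ℕ) : (vn M f c ν → bit M f c (2 * ν) = 1) ∧
    (¬ vn M f c ν → bit M f c (2 * ν) = 0) := by
  have key : dec M f c (pth (dec M f c) (2 * ν)) ↔ vn M f c ν := by
    rw [dec_even _ (by rw [pth_length]; omega), pth_length, show 2 * ν / 2 = ν by omega]
  exact ⟨fun h => if_pos (key.2 h), fun h => if_neg fun h' => h (key.1 h')⟩

theorem OKp_even_valid (h : ℕ → M.C) (ν : ℕ) (hv : vn M f c ν) : OKp M f c h (2 * ν) ↔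
    (Sol M f c (nm ν).1 (h ν) ∧ ∀ ν' < ν, sb ν' ν → h ν' ≠ h ν) := by
  unfold OKp rqB
  rw [(bit_even ν).1 hv, if_pos (by omega), if_pos rfl, show 2 * ν / 2 = ν by omega]
  constructor
  · intro H
    constructor
    · have := H _ (List.mem_cons_self)
      rwa [reqOK_sol] at this
    · intro ν' hν' hsb
      have := H (neqL, [ν', ν]) (List.mem_cons_of_mem _ (List.mem_flatMap.2
        ⟨ν', List.mem_range.2 hν', by simp [hsb]⟩))
      rwa [reqOK_neq] at this
  · rintro ⟨h1, h2⟩ r hr
    rcases List.mem_cons.1 hr with rfl | hr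
    · rw [reqOK_sol]; exact h1
    · obtain ⟨ν', hν', hr⟩ := List.mem_flatMap.1 hr
      rw [List.mem_range] at hν'
      split_ifs at hr with h3
      · rw [List.mem_singleton] at hr
        subst hr
        rw [reqOK_neq]
        exact h2 ν' hν' h3
      · simp at hr

theorem OKp_even_invalid (h : ℕ → M.C) (ν : ℕ) (hv : ¬ vn M f c ν) :
    OKp M f c h (2 * ν) ↔ h ν = f 0 := by
  unfold OKp rqB
  rw [(bit_even ν).2 hv, if_pos (by omega), if_neg (by omega), show 2 * ν / 2 = ν by omega]
  simp only [List.mem_singleton, forall_eq]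
  rw [reqOK_eqz]

/-- counting of solutions -/
theorem val_iff (e : List Lit) (k : ℕ) (hv : val M f c (e, k)) :
    {x | Sol M f c e x}.Finite ∧ {x | Sol M f c e x}.ncard = k := by
  obtain ⟨h1, h2⟩ := hv
  rw [Th_zc] at h1
  simp only at h2
  rw [Th_zc] at h2
  have hfin : {x | Sol M f c e x}.Finite := by
    by_contra hinf
    obtain ⟨t, ht, hc⟩ := Set.Infinite.exists_subset_card_eq hinf (k + 1)
    exact h2 ⟨t, hc, fun y hy => ht hy⟩
  refine ⟨hfin, ?_⟩
  obtain ⟨s, hs, hs'⟩ := h1
  have hle : k ≤ {x | Sol M f c e x}.ncard := by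
    rw [← hs, ← Set.ncard_coe_finset]
    exact Set.ncard_le_ncard (fun y hy => hs' y hy) hfin
  by_contra hne
  have hlt : k + 1 ≤ {x | Sol M f c e x}.ncard := by omega
  rw [Set.ncard_eq_toFinset_card _ hfin] at hlt
  obtain ⟨t, ht, hc⟩ := Finset.exists_subset_card_eq hlt
  exact h2 ⟨t, hc, fun y hy => by simpa using ht hy⟩

theorem val_of_finite (e : List Lit) (hfin : {x | Sol M f c e x}.Finite) :
    val M f c (e, {x | Sol M f c e x}.ncard) := by
  constructor
  · rw [Th_zc]
    refine ⟨hfin.toFinset, (Set.ncard_eq_toFinset_card _ hfin).symm, fun y hy => by simpa using hy⟩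
  · simp only
    rw [Th_zc]
    rintro ⟨s, hs, hs'⟩
    have : s.card ≤ {x | Sol M f c e x}.ncard := by
      rw [← Set.ncard_coe_finset]
      exact Set.ncard_le_ncard (fun y hy => hs' y hy) hfin
    omega

theorem vn_pos {ν : ℕ} (hv : vn M f c ν) : ∃ x, Sol M f c (nm ν).1 x := by
  obtain ⟨h1, h2⟩ := val_iff _ _ hv.2
  have : 0 < {x | Sol M f c (nm ν).1 x}.ncard := by
    rw [h2]
    have := hv.1.2
    omega
  rw [Set.ncard_pos h1] at this
  exact this

/-- a new solution for the name `ν` -/
theorem new_solution (h : ℕ → M.C) {ν : ℕ} (hv : vn M f c ν) :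
    ∃ y, Sol M f c (nm ν).1 y ∧ ∀ ν' < ν, sb ν' ν → h ν' ≠ y := by
  classical
  by_contra hcon
  push Not at hcon
  obtain ⟨h1, h2⟩ := val_iff _ _ hv.2
  set V := (Finset.range ν).filter (fun ν' => sb ν' ν) with hV
  have hsub : {x | Sol M f c (nm ν).1 x} ⊆ ((V.image h : Finset M.C) : Set M.C) := by
    intro y hy
    obtain ⟨ν', a, b, d⟩ := hcon y hy
    exact Finset.mem_coe.2 (Finset.mem_image.2 ⟨ν', by simp [hV, a, b], d⟩)
  have hle : {x | Sol M f c (nm ν).1 x}.ncard ≤ V.card := by
    refine (Set.ncard_le_ncard hsub (Finset.finite_toSet _)).trans ?_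
    rw [Set.ncard_coe_finset]
    exact Finset.card_image_le
  have hlt : V.card < (nm ν).2.1 := by
    have hmaps : ∀ ν' ∈ V, (nm ν').2.2 ∈ (Finset.range (nm ν).2.1).erase (nm ν).2.2 := by
      intro ν' hν'
      simp only [hV, Finset.mem_filter, Finset.mem_range] at hν'
      obtain ⟨a, b1, b2, b3⟩ := hν'
      rw [Finset.mem_erase, Finset.mem_range]
      refine ⟨fun hh => ?_, ?_⟩
      · have : nm ν' = nm ν := Prod.ext b2 (Prod.ext b3 hh)
        have e1 := b1.1
        have e2 := hv.1.1
        rw [this, e2] at e1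
        omega
      · rw [← b3]; exact b1.2
    have hinj : Set.InjOn (fun ν' => (nm ν').2.2) (V : Set ℕ) := by
      intro a ha b hb hab
      simp only [hV, Finset.coe_filter, Finset.mem_range, Set.mem_ofPred_eq] at ha hb
      obtain ⟨_, a1, a2, a3⟩ := ha
      obtain ⟨_, b1, b2, b3⟩ := hb
      have : nm a = nm b := Prod.ext (a2.trans b2.symm) (Prod.ext (a3.trans b3.symm) hab)
      rw [← a1.1, ← b1.1, this]
    have := Finset.card_le_card_of_injOn _ hmaps hinj
    rw [Finset.card_erase_of_mem (Finset.mem_range.2 hv.1.2), Finset.card_range] at this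
    have := hv.1.2
    omega
  rw [h2] at hle
  omega

theorem partial_exists : ∀ n, ∃ h : ℕ → M.C, ∀ p < n, OKp M f c h p
  | 0 => ⟨fun _ => f 0, fun p hp => by omega⟩
  | n + 1 => by
      classical
      obtain ⟨h, hh⟩ := partial_exists n
      rcases Nat.even_or_odd' n with ⟨ν, rfl | rfl⟩
      · -- even position
        have upd : ∀ y, ∀ p < 2 * ν, OKp M f c (Function.update h ν y) p := by
          intro y p hp
          refine OKp_congr (fun μ hμ => ?_) (hh p hp)
          rw [Function.update_of_ne (by omega)]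
        by_cases hv : vn M f c ν
        · obtain ⟨y, h1, h2⟩ := new_solution h hv
          refine ⟨Function.update h ν y, fun p hp => ?_⟩
          rcases Nat.lt_succ_iff_lt_or_eq.1 hp with hp | rfl
          · exact upd y p hp
          · rw [OKp_even_valid _ _ hv, Function.update_self]
            refine ⟨h1, fun ν' hν' hs => ?_⟩
            rw [Function.update_of_ne (by omega)]
            exact h2 ν' hν' hs
        · refine ⟨Function.update h ν (f 0), fun p hp => ?_⟩
          rcases Nat.lt_succ_iff_lt_or_eq.1 hp with hp | rfl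
          · exact upd _ p hp
          · rw [OKp_even_invalid _ _ hv, Function.update_self]
      · -- odd position
        set D := dec M f c with hD
        have hdec : D (pth D (2 * ν + 1)) ↔ ¬ Th (rq (pth D (2 * ν + 1) ++ [0])) M f c :=
          dec_odd _ (by rw [pth_length]; omega)
        have hrq : ∀ (b : ℕ) (g : ℕ → M.C),
            (∀ r ∈ rq (pth D (2 * ν + 1) ++ [b]), reqOK M f c g r) ↔
            ((∀ p < 2 * ν + 1, OKp M f c g p) ∧ ∀ r ∈ rqB (2 * ν + 1) b, reqOK M f c g r) := by
          intro b g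
          have hlen : (pth D (2 * ν + 1) ++ [b]).length = 2 * ν + 1 + 1 := by
            rw [List.length_append, pth_length]; rfl
          have hg1 : ∀ p < 2 * ν + 1, (pth D (2 * ν + 1) ++ [b]).getD p 0 = bit M f c p := by
            intro p hp
            rw [List.getD_append _ _ _ _ (by rw [pth_length]; exact hp)]
            exact bit_getD _ _ hp
          have hg2 : (pth D (2 * ν + 1) ++ [b]).getD (2 * ν + 1) 0 = b := by
            rw [List.getD_append_right _ _ _ _ (by rw [pth_length]), pth_length]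
            simp
          simp only [rq, List.mem_flatMap, List.mem_range, hlen]
          constructor
          · intro H
            constructor
            · intro p hp r hr
              refine H r ⟨p, by omega, ?_⟩
              rw [hg1 p hp]
              exact hr
            · intro r hr
              refine H r ⟨2 * ν + 1, by omega, ?_⟩
              rw [hg2]
              exact hr
          · rintro ⟨H1, H2⟩ r ⟨p, hp, hr⟩
            rcases Nat.lt_succ_iff_lt_or_eq.1 hp with hp | rfl
            · rw [hg1 p hp] at hr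
              exact H1 p hp r hr
            · rw [hg2] at hr
              exact H2 r hr
        by_cases hT : Th (rq (pth D (2 * ν + 1) ++ [0])) M f c
        · obtain ⟨g, hg⟩ := hT
          have hb : bit M f c (2 * ν + 1) = 0 := by
            unfold bit
            rw [if_neg]
            rw [← hD, hdec, not_not]
            exact ⟨g, hg⟩
          obtain ⟨g1, g2⟩ := (hrq 0 g).1 hg
          refine ⟨g, fun p hp => ?_⟩
          rcases Nat.lt_succ_iff_lt_or_eq.1 hp with hp | rfl
          · exact g1 p hp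
          · unfold OKp
            rw [hb]
            exact g2
        · have hb : bit M f c (2 * ν + 1) = 1 := by
            unfold bit
            rw [if_pos]
            rw [← hD, hdec]
            exact hT
          refine ⟨h, fun p hp => ?_⟩
          rcases Nat.lt_succ_iff_lt_or_eq.1 hp with hp | rfl
          · exact hh p hp
          · rw [OKp_odd, hb]
            refine ⟨fun _ => rfl, fun _ => ?_⟩
            by_contra hno
            refine hT ⟨h, (hrq 0 h).2 ⟨hh, ?_⟩⟩
            unfold rqB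
            rw [if_neg (by omega), show (2 * ν + 1) / 2 = ν by omega]
            simp only [List.mem_singleton, forall_eq]
            rw [reqOK_fact]
            exact ⟨fun h => absurd h hno, fun h => absurd h (by norm_num)⟩

/-- the possible values of the name `ν` -/
def Sv (M : Str sig) (f c : ℕ → M.C) (ν : ℕ) : Set M.C :=
  {x | (vn M f c ν → Sol M f c (nm ν).1 x) ∧ (¬ vn M f c ν → x = f 0)}

theorem Sv_finite (ν : ℕ) : (Sv M f c ν).Finite := by
  by_cases hv : vn M f c ν
  · exact (val_iff _ _ hv.2).1.subset fun x hx => hx.1 hv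
  · exact (Set.finite_singleton (f 0)).subset fun x hx => hx.2 hv

theorem Sv_nonempty (ν : ℕ) : (Sv M f c ν).Nonempty := by
  by_cases hv : vn M f c ν
  · obtain ⟨x, hx⟩ := vn_pos hv
    exact ⟨x, fun _ => hx, fun h => absurd hv h⟩
  · exact ⟨f 0, fun h => absurd h hv, fun _ => rfl⟩

theorem mem_Sv_of_OKp {h : ℕ → M.C} {ν : ℕ} (hp : OKp M f c h (2 * ν)) : h ν ∈ Sv M f c ν := by
  by_cases hv : vn M f c ν
  · exact ⟨fun _ => ((OKp_even_valid _ _ hv).1 hp).1, fun h => absurd hv h⟩
  · exact ⟨fun h => absurd h hv, fun _ => (OKp_even_invalid _ _ hv).1 hp⟩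

theorem total_exists : ∃ h : ℕ → M.C, ∀ p, OKp M f c h p := by
  classical
  letI : TopologicalSpace M.C := ⊥
  haveI : DiscreteTopology M.C := ⟨rfl⟩
  let K : Set (ℕ → M.C) := Set.pi Set.univ (Sv M f c)
  let t : ℕ → Set (ℕ → M.C) := fun n => {h | h ∈ K ∧ ∀ p < n, OKp M f c h p}
  have hclosed : ∀ n, IsClosed {h : ℕ → M.C | ∀ p < n, OKp M f c h p} := by
    intro n
    rw [← isOpen_compl_iff, isOpen_iff_forall_mem_open]
    intro h hh
    refine ⟨Set.pi (Finset.range n : Set ℕ) (fun i => {h i}), ?_, ?_, ?_⟩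
    · intro g hg hcon
      apply hh
      intro p hp
      refine OKp_congr (fun ν hν => ?_) (hcon p hp)
      exact hg ν (Finset.mem_coe.2 (Finset.mem_range.2 (by omega)))
    · exact isOpen_set_pi (Finset.finite_toSet _) (fun i _ => isOpen_discrete _)
    · intro i _
      exact Set.mem_singleton _
  have hK : IsCompact K := isCompact_univ_pi fun ν => (Sv_finite ν).isCompact
  have hKc : IsClosed K := isClosed_set_pi fun ν _ => isClosed_discrete _
  have ht : ∀ n, t n = K ∩ {h : ℕ → M.C | ∀ p < n, OKp M f c h p} := fun n => rfl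
  have hne : (⋂ n, t n).Nonempty := by
    refine IsCompact.nonempty_iInter_of_sequence_nonempty_isCompact_isClosed t ?_ ?_ ?_ ?_
    · intro n h hh
      exact ⟨hh.1, fun p hp => hh.2 p (by omega)⟩
    · intro n
      obtain ⟨h, hh⟩ := partial_exists (M := M) (f := f) (c := c) n
      choose s hs using fun ν => Sv_nonempty (M := M) (f := f) (c := c) ν
      refine ⟨fun ν => if 2 * ν < n then h ν else s ν, ?_, ?_⟩
      · intro ν _
        simp only
        split_ifs with hlt
        · exact mem_Sv_of_OKp (hh _ hlt)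
        · exact hs ν
      · intro p hp
        refine OKp_congr (fun ν hν => ?_) (hh p hp)
        rw [if_pos (by omega)]
    · rw [ht]
      exact hK.inter_right (hclosed 0)
    · intro n
      rw [ht]
      exact hKc.inter (hclosed n)
  obtain ⟨h, hh⟩ := hne
  refine ⟨h, fun p => ?_⟩
  have := Set.mem_iInter.1 hh (p + 1)
  exact this.2 p (Nat.lt_succ_self p)

/-- every solution of a formula with finitely many solutions has a name -/
theorem mem_range_of_sol {h : ℕ → M.C} (hh : ∀ p, OKp M f c h p) {x : M.C} {e : List Lit}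
    (hx : Sol M f c e x) (hfin : {y | Sol M f c e y}.Finite) : ∃ ν, h ν = x := by
  classical
  set k := {y | Sol M f c e y}.ncard with hk
  have hval : val M f c (e, k) := val_of_finite e hfin
  let g : ℕ → ℕ := fun i => Encodable.encode (e, k, i)
  have hnm : ∀ i, nm (g i) = (e, k, i) := fun i => nm_encode _
  have hvn : ∀ i < k, vn M f c (g i) := by
    intro i hi
    refine ⟨⟨?_, ?_⟩, ?_⟩
    · rw [hnm]
    · rw [hnm]; exact hi
    · rw [hnm]; exact hval
  have hsol : ∀ i < k, Sol M f c e (h (g i)) := by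
    intro i hi
    have := ((OKp_even_valid h (g i) (hvn i hi)).1 (hh _)).1
    rwa [hnm] at this
  have hne : ∀ i < k, ∀ j < k, g i < g j → h (g i) ≠ h (g j) := by
    intro i hi j hj hlt
    refine ((OKp_even_valid h (g j) (hvn j hj)).1 (hh _)).2 _ hlt ?_
    refine ⟨(hvn i hi).1, ?_, ?_⟩
    · rw [hnm, hnm]
    · rw [hnm, hnm]
  have hinj : Set.InjOn (fun i => h (g i)) (Finset.range k : Set ℕ) := by
    intro i hi j hj hij
    simp only [Finset.coe_range, Set.mem_Iio] at hi hj
    rcases lt_trichotomy (g i) (g j) with hlt | heq | hlt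
    · exact absurd hij (hne i hi j hj hlt)
    · have : (e, k, i) = (e, k, j) := Encodable.encode_injective heq
      simpa using this
    · exact absurd hij.symm (hne j hj i hi hlt)
  have hcard : ((Finset.range k).image (fun i => h (g i))).card = k := by
    rw [Finset.card_image_of_injOn hinj, Finset.card_range]
  have hsub : (Finset.range k).image (fun i => h (g i)) ⊆ hfin.toFinset := by
    intro y hy
    obtain ⟨i, hi, rfl⟩ := Finset.mem_image.1 hy
    rw [Set.Finite.mem_toFinset]
    exact hsol i (Finset.mem_range.1 hi)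
  have heq := Finset.eq_of_subset_of_card_le hsub (by
    rw [hcard, hk, Set.ncard_eq_toFinset_card _ hfin])
  have hx' : x ∈ hfin.toFinset := by rw [Set.Finite.mem_toFinset]; exact hx
  rw [← heq] at hx'
  obtain ⟨i, _, hi⟩ := Finset.mem_image.1 hx'
  exact ⟨_, hi⟩

/-- every named element is a solution of a formula with finitely many solutions -/
theorem sol_of_name {h : ℕ → M.C} (hh : ∀ p, OKp M f c h p) (ν : ℕ) :
    ∃ e : List Lit, Sol M f c e (h ν) ∧ {y | Sol M f c e y}.Finite := by
  have hS := mem_Sv_of_OKp (hh (2 * ν))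
  by_cases hv : vn M f c ν
  · exact ⟨_, hS.1 hv, (val_iff _ _ hv.2).1⟩
  · refine ⟨eqzL, ?_, ?_⟩
    · rw [← reqOK_sol M f c h eqzL ν, reqOK_eqz]
      exact hS.2 hv
    · refine (Set.finite_singleton (f 0)).subset fun y hy => ?_
      have : reqOK M f c (fun _ => y) (eqzL, [0]) := (reqOK_sol M f c (fun _ => y) eqzL 0).2 hy
      rw [reqOK_eqz] at this
      exact this

/-- The main construction. -/
theorem numbering_exists
    (h1 : Sg 3 (fun z : List Req => Th z M f c)) (h2 : Sg 3 (fun z : List Req => ¬ Th z M f c)) :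
    ∃ h : ℕ → M.C, (∀ x, (∃ ν, h ν = x) ↔
        ∃ e : List Lit, Sol M f c e x ∧ {y | Sol M f c e y}.Finite) ∧
      Sg 3 (fun p : ℕ × List ℕ => HoldE M p.1 (p.2.map h)) ∧
      Sg 3 (fun p : ℕ × List ℕ => ¬ HoldE M p.1 (p.2.map h)) := by
  obtain ⟨h, hh⟩ := total_exists (M := M) (f := f) (c := c)
  obtain ⟨d1, d2⟩ := dec_Sg h1 h2
  obtain ⟨b1, b2⟩ := pth_Sg d1 d2
  have hbit : ∀ p, dec M f c (pth (dec M f c) p) ↔ bit M f c p = 1 := by
    intro p
    unfold bit
    split_ifs with hD <;> simp [hD]
  have key : ∀ (s : ℕ) (l : List ℕ) (t : ℕ), t.unpair.1 = Encodable.encode (s, l) →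
      (∀ ν ∈ l, ν ≤ t) → (HoldE M s (l.map h) ↔
        dec M f c (pth (dec M f c) (2 * t + 1))) := by
    intro s l t e1 e2
    have := (OKp_odd h t).1 (hh _)
    rw [fct_eq s l t e1 e2] at this
    rw [hbit]
    exact this
  have hex : ∀ (s : ℕ) (l : List ℕ), ∃ t : ℕ, t.unpair.1 = Encodable.encode (s, l) ∧
      ∀ ν ∈ l, ν ≤ t := by
    intro s l
    obtain ⟨B, hB⟩ := exists_bound id l
    refine ⟨Nat.pair (Encodable.encode (s, l)) B, by simp, fun ν hν => ?_⟩
    exact ((hB ν hν).le).trans (Nat.right_le_pair _ _)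
  have p1 : PrimrecPred (fun x : (ℕ × List ℕ) × ℕ => x.2.unpair.1 = Encodable.encode x.1) :=
    Primrec.eq.comp (Primrec.fst.comp (Primrec.unpair.comp Primrec.snd))
      (Primrec.encode.comp Primrec.fst)
  have p2 : Sg 3 (fun x : (ℕ × List ℕ) × ℕ => ∀ ν ∈ x.1.2, ν ≤ x.2) :=
    Sg.allMem (P := fun w : ((ℕ × List ℕ) × ℕ) × ℕ => w.2 ≤ w.1.2)
      (Sg.le Primrec.snd (Primrec.snd.comp Primrec.fst)) (Primrec.snd.comp Primrec.fst)
  have p3 : Primrec (fun x : (ℕ × List ℕ) × ℕ => 2 * x.2 + 1) :=
    Primrec.succ.comp (Primrec.nat_mul.comp (Primrec.const 2) Primrec.snd)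
  refine ⟨h, fun x => ⟨?_, ?_⟩, ?_, ?_⟩
  · rintro ⟨ν, rfl⟩
    exact sol_of_name hh ν
  · rintro ⟨e, hx, hfin⟩
    exact mem_range_of_sol hh hx hfin
  · have q := Sg.comp (f := fun x : (ℕ × List ℕ) × ℕ => 2 * x.2 + 1) b1 p3
    refine (Sg.exNat ((Sg.prim p1).and (p2.and q))).congr fun p => ?_
    constructor
    · rintro ⟨t, e1, e2, e3⟩
      exact (key p.1 p.2 t e1 e2).2 e3
    · intro hp
      obtain ⟨t, e1, e2⟩ := hex p.1 p.2
      exact ⟨t, e1, e2, (key p.1 p.2 t e1 e2).1 hp⟩
  · have q := Sg.comp (f := fun x : (ℕ × List ℕ) × ℕ => 2 * x.2 + 1) b2 p3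
    refine (Sg.exNat ((Sg.prim p1).and (p2.and q))).congr fun p => ?_
    constructor
    · rintro ⟨t, e1, e2, e3⟩
      exact fun hp => e3 ((key p.1 p.2 t e1 e2).1 hp)
    · intro hp
      obtain ⟨t, e1, e2⟩ := hex p.1 p.2
      exact ⟨t, e1, e2, fun hd => hp ((key p.1 p.2 t e1 e2).2 hd)⟩

end

end FD55
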