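import Mathlib
import Pool.Agent.Lib.MP_fd2900_lc.H55.Number

/-!
Disjunctive normal form of quantifier-free formulas; existential algebraicity by literals.
-/

namespace FD55

open FirstOrder FirstOrder.Language

variable {sig : ℕ → Option ℕ}

theorem term_var {β : Type} (t : (Lg sig).Term β) : ∃ a, t = Term.var a := by
  cases t with
  | var a => exact ⟨a, rfl⟩
  | func f ts => exact Empty.elim f

/-- truth of a literal with arguments in `α` -/
def litA (N : Str sig) {α : Type} (v : α → N.C) (x : ℕ × ℕ × List α) : Prop :=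
  (HoldE N x.2.1 (x.2.2.map v) ↔ x.1 = 1)

theorem atomic_lit {α : Type} (φ : (Lg sig).BoundedFormula α 0) (h : φ.IsAtomic) :
    ∃ (s : ℕ) (l : List α), ∀ (N : Str sig) (v : α → N.C),
      (Formula.Realize (L := Lg sig) φ v ↔ HoldE N s (l.map v)) := by
  cases h with
  | equal t₁ t₂ =>
      obtain ⟨a, rfl⟩ := term_var t₁
      obtain ⟨b, rfl⟩ := term_var t₂
      rcases a with a | a
      · rcases b with b | b
        · refine ⟨0, [a, b], fun N v => ?_⟩
          simp only [List.map_cons, List.map_nil]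
          rw [holdE_pair]
          simp [Formula.Realize]
        · exact Fin.elim0 b
      · exact Fin.elim0 a
  | @rel l R ts =>
      obtain ⟨i, hi⟩ := R
      have hts : ∀ j, ∃ a : α, ts j = Term.var (Sum.inl a) := by
        intro j
        obtain ⟨a, ha⟩ := term_var (ts j)
        rcases a with a | a
        · exact ⟨a, ha⟩
        · exact Fin.elim0 a
      choose g hg using hts
      refine ⟨i + 1, List.ofFn g, fun N v => ?_⟩
      have e1 : Formula.Realize (L := Lg sig)
          (Relations.boundedFormula (⟨i, hi⟩ : (Lg sig).Relations l) ts) v ↔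
          N.str.RelMap (n := l) ⟨i, hi⟩ (fun j => v (g j)) := by
        unfold Formula.Realize
        rw [BoundedFormula.realize_rel]
        simp only [hg, Term.realize_var, Sum.elim_inl]
      rw [e1]
      have key : ∀ (m : ℕ) (e : m = l) (h1 : sig i = some m) (g' : Fin m → N.C),
          (N.str.RelMap (n := m) ⟨i, h1⟩ g' ↔
            N.str.RelMap (n := l) ⟨i, hi⟩ (fun j => g' (Fin.cast e.symm j))) := by
        intro m e h1 g'
        subst e
        rfl
      have hlen : ((List.ofFn g).map v).length = l := by simp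
      constructor
      · intro hR
        refine Or.inr ⟨i, rfl, by rw [hlen]; exact hi, ?_⟩
        refine (key _ hlen _ _).2 ?_
        convert hR using 1
        funext j
        simp
      · rintro (⟨h0, _⟩ | ⟨i', hi', h', hR⟩)
        · omega
        · obtain rfl : i = i' := by omega
          have := (key _ hlen h' _).1 hR
          convert this using 1
          funext j
          simp

theorem dnf {α : Type} (φ : (Lg sig).BoundedFormula α 0) (h : φ.IsQF) :
    (∃ D : List (List (ℕ × ℕ × List α)), ∀ (N : Str sig) (v : α → N.C),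
      (Formula.Realize (L := Lg sig) φ v ↔ ∃ Λ ∈ D, ∀ x ∈ Λ, litA N v x)) ∧
    (∃ D : List (List (ℕ × ℕ × List α)), ∀ (N : Str sig) (v : α → N.C),
      (¬ Formula.Realize (L := Lg sig) φ v ↔ ∃ Λ ∈ D, ∀ x ∈ Λ, litA N v x)) := by
  induction h with
  | falsum =>
      refine ⟨⟨[], fun N v => ?_⟩, ⟨[ [] ], fun N v => ?_⟩⟩
      · simp only [List.not_mem_nil, false_and, exists_false, iff_false]
        exact fun h => h
      · simp only [List.mem_singleton, exists_eq_left, List.not_mem_nil, false_imp_iff,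
          implies_true, iff_true]
        exact fun h => h
  | of_isAtomic h =>
      obtain ⟨s, l, hs⟩ := atomic_lit _ h
      refine ⟨⟨[ [(1, s, l)] ], fun N v => ?_⟩, ⟨[ [(0, s, l)] ], fun N v => ?_⟩⟩
      · rw [hs]
        simp only [List.mem_singleton, exists_eq_left, forall_eq, litA]
        simp
      · rw [hs]
        simp only [List.mem_singleton, exists_eq_left, forall_eq, litA]
        simp
  | @imp φ₁ φ₂ h₁ h₂ ih₁ ih₂ =>
      obtain ⟨⟨D1, hD1⟩, ⟨D1', hD1'⟩⟩ := ih₁
      obtain ⟨⟨D2, hD2⟩, ⟨D2', hD2'⟩⟩ := ih₂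
      have hr : ∀ (N : Str sig) (v : α → N.C), Formula.Realize (L := Lg sig) (φ₁.imp φ₂) v ↔
          (Formula.Realize (L := Lg sig) φ₁ v → Formula.Realize (L := Lg sig) φ₂ v) := by
        intro N v
        exact BoundedFormula.realize_imp
      refine ⟨⟨D1' ++ D2, fun N v => ?_⟩,
        ⟨D1.flatMap (fun a => D2'.map (fun b => a ++ b)), fun N v => ?_⟩⟩
      · rw [hr]
        have e1 := hD1' N v
        have e2 := hD2 N v
        constructor
        · intro himp
          by_cases h1 : Formula.Realize (L := Lg sig) φ₁ v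
          · obtain ⟨Λ, a, b⟩ := e2.1 (himp h1)
            exact ⟨Λ, List.mem_append_right _ a, b⟩
          · obtain ⟨Λ, a, b⟩ := e1.1 h1
            exact ⟨Λ, List.mem_append_left _ a, b⟩
        · rintro ⟨Λ, a, b⟩ h1
          rcases List.mem_append.1 a with a | a
          · exact absurd h1 (e1.2 ⟨Λ, a, b⟩)
          · exact e2.2 ⟨Λ, a, b⟩
      · rw [hr]
        have e1 := hD1 N v
        have e2 := hD2' N v
        constructor
        · intro hn
          rw [Classical.not_imp] at hn
          obtain ⟨Λ1, a1, b1⟩ := e1.1 hn.1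
          obtain ⟨Λ2, a2, b2⟩ := e2.1 hn.2
          refine ⟨Λ1 ++ Λ2, List.mem_flatMap.2 ⟨Λ1, a1, List.mem_map.2 ⟨Λ2, a2, rfl⟩⟩, ?_⟩
          intro x hx
          rcases List.mem_append.1 hx with hx | hx
          · exact b1 x hx
          · exact b2 x hx
        · rintro ⟨Λ, a, b⟩ himp
          obtain ⟨Λ1, a1, a⟩ := List.mem_flatMap.1 a
          obtain ⟨Λ2, a2, rfl⟩ := List.mem_map.1 a
          have h1 := e1.2 ⟨Λ1, a1, fun x hx => b x (List.mem_append_left _ hx)⟩
          exact e2.2 ⟨Λ2, a2, fun x hx => b x (List.mem_append_right _ hx)⟩ (himp h1)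

/-- `x` satisfies a formula with parameters in `C` which has only finitely many solutions -/
def Alg (sig : ℕ → Option ℕ) {M : Type} [(Lg sig).Structure M] (C : Set M) (x : M) : Prop :=
  ∃ φ : (Lg sig).Formula (C ⊕ Unit), φ.Realize (Sum.elim (fun a => (a : M)) fun _ => x) ∧
    {y | φ.Realize (Sum.elim (fun a => (a : M)) fun _ => y)}.Finite

/-- `x` satisfies an existential formula `∃ z, θ (x, z)` (`θ` quantifier-free) with parameters in
`C` which has only finitely many solutions -/
def ExAlg (sig : ℕ → Option ℕ) {M : Type} [(Lg sig).Structure M] (C : Set M) (x : M) : Prop :=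
  ∃ (n : ℕ) (θ : (Lg sig).Formula ((C ⊕ Unit) ⊕ Fin n)), θ.IsQF ∧
    (∃ z : Fin n → M, θ.Realize (Sum.elim (Sum.elim (fun a => (a : M)) fun _ => x) z)) ∧
    {y | ∃ z : Fin n → M, θ.Realize (Sum.elim (Sum.elim (fun a => (a : M)) fun _ => y) z)}.Finite

/-- existential algebraicity gives a finite set defined by a list of literals -/
theorem sol_of_exAlg {M : Str sig} (f c : ℕ → M.C) {C : Set M.C}
    (hC : ∀ x ∈ C, x ∈ Set.range f ∨ x ∈ Set.range c) {x : M.C} (h : ExAlg sig C x) :
    ∃ e : List Lit, Sol M f c e x ∧ {y | Sol M f c e y}.Finite := by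
  classical
  obtain ⟨n, θ, hqf, ⟨z, hz⟩, hfin⟩ := h
  obtain ⟨⟨D, hD⟩, _⟩ := dnf θ hqf
  obtain ⟨Λ, hΛ, hlit⟩ := (hD M _).1 hz
  -- the coding of the variables
  have hcode : ∀ a : C, ∃ v : Var, ∀ u : ℕ → M.C, env f c u v = (a : M.C) := by
    rintro ⟨a, ha⟩
    rcases hC a ha with ⟨i, rfl⟩ | ⟨i, rfl⟩
    · exact ⟨Sum.inl i, fun u => rfl⟩
    · exact ⟨Sum.inr (Sum.inl i), fun u => rfl⟩
  choose code hcode using hcode
  let V : (C ⊕ Unit) ⊕ Fin n → Var := Sum.elim (Sum.elim code (fun _ => Sum.inr (Sum.inr 0)))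
    (fun j => Sum.inr (Sum.inr (j.1 + 1)))
  let e : List Lit := Λ.map (fun x => (x.1, x.2.1, x.2.2.map V))
  have hV : ∀ u : ℕ → M.C, (env f c u ∘ V) =
      Sum.elim (Sum.elim (fun a : C => (a : M.C)) fun _ : Unit => u 0)
        (fun j : Fin n => u (j.1 + 1)) := by
    intro u
    funext w
    rcases w with (a | a) | j
    · exact hcode a u
    · rfl
    · rfl
  have hsol : ∀ y, Sol M f c e y ↔ ∃ u : ℕ → M.C, u 0 = y ∧ ∀ x ∈ Λ,
      litA M (Sum.elim (Sum.elim (fun a : C => (a : M.C)) fun _ : Unit => y)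
        (fun j : Fin n => u (j.1 + 1))) x := by
    intro y
    refine exists_congr fun u => ?_
    constructor
    · rintro ⟨h0, h1⟩
      refine ⟨h0, fun x hx => ?_⟩
      have := h1 _ (List.mem_map.2 ⟨x, hx, rfl⟩)
      unfold litOK at this
      simp only [List.map_map, hV, h0] at this
      exact this
    · rintro ⟨h0, h1⟩
      refine ⟨h0, fun x hx => ?_⟩
      obtain ⟨x', hx', rfl⟩ := List.mem_map.1 hx
      have := h1 x' hx'
      unfold litOK
      simp only [List.map_map, hV, h0]
      exact this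
  refine ⟨e, (hsol x).2 ⟨fun j => if h : 0 < j ∧ j - 1 < n then z ⟨j - 1, h.2⟩ else x, by simp, ?_⟩, ?_⟩
  · intro y hy
    have := hlit y hy
    have e1 : (fun j : Fin n => (fun j => if h : 0 < j ∧ j - 1 < n then z ⟨j - 1, h.2⟩ else x)
        (j.1 + 1)) = z := by
      funext j
      simp
    rw [e1]
    exact this
  · refine hfin.subset fun y hy => ?_
    obtain ⟨u, h0, h1⟩ := (hsol y).1 hy
    exact ⟨fun j => u (j.1 + 1), (hD M _).2 ⟨Λ, hΛ, h1⟩⟩

end FD55
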