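import Mathlib
import Pool.Agent.Lib.MP_fd2900_lc.H55.DNF

/-!
Algebraic closure: monotonicity, transitivity, sequential independence.
-/

namespace FD55

open FirstOrder FirstOrder.Language

variable {sig : ℕ → Option ℕ}

theorem Alg.mono {M : Type} [(Lg sig).Structure M] {C C' : Set M} (h : C ⊆ C') {x : M}
    (hx : Alg sig C x) : Alg sig C' x := by
  obtain ⟨φ, h1, h2⟩ := hx
  let g : C ⊕ Unit → C' ⊕ Unit := Sum.map (Set.inclusion h) id
  have key : ∀ y : M, (φ.relabel g).Realize (Sum.elim (fun a : C' => (a : M)) fun _ => y) ↔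
      φ.Realize (Sum.elim (fun a : C => (a : M)) fun _ => y) := by
    intro y
    rw [Formula.realize_relabel]
    refine iff_of_eq (congrArg _ ?_)
    funext w
    rcases w with w | w <;> rfl
  exact ⟨φ.relabel g, (key x).2 h1, h2.subset fun y hy => (key y).1 hy⟩

theorem Alg.of_mem {M : Type} [(Lg sig).Structure M] {C : Set M} {x : M} (hx : x ∈ C) :
    Alg sig C x := by
  have key : ∀ y : M, (Term.equal (Term.var (Sum.inr ())) (Term.var (Sum.inl ⟨x, hx⟩)) :
      (Lg sig).Formula (C ⊕ Unit)).Realize (Sum.elim (fun a : C => (a : M)) fun _ => y) ↔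
      y = x := fun y => by simp
  exact ⟨_, (key x).2 rfl, (Set.finite_singleton x).subset fun y hy => (key y).1 hy⟩

theorem Alg.trans {M : Str sig} {S B : Set M.C} (hB : ∀ b ∈ B, Alg sig S b) {x : M.C}
    (hx : Alg sig B x) : Alg sig S x := by
  classical
  obtain ⟨φ, hφx, hφfin⟩ := hx
  obtain ⟨s, hs⟩ := formula_support φ
  set l : List B := s.toLeft.toList with hl
  have hmem : ∀ b : B, Sum.inl b ∈ s → b ∈ l := fun b hb => by
    rw [hl, Finset.mem_toList, Finset.mem_toLeft]; exact hb
  have hB' : ∀ b : B, ∃ ψ : (Lg sig).Formula (S ⊕ Unit),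
      ψ.Realize (Sum.elim (fun a : S => (a : M.C)) fun _ => (b : M.C)) ∧
      {y | ψ.Realize (Sum.elim (fun a : S => (a : M.C)) fun _ => y)}.Finite := fun b => hB b.1 b.2
  choose ψ hψ1 hψ2 using hB'
  set K := {y | φ.Realize (Sum.elim (fun a : B => (a : M.C)) fun _ => y)}.ncard with hK
  let g : B ⊕ Unit → ℕ ⊕ Unit := Sum.map (fun b => l.idxOf b) id
  let P : ∀ N : Str sig, (ℕ ⊕ Unit → N.C) → Prop := fun N v => (φ.relabel g).Realize v
  have hP : DefP P := ⟨φ.relabel g, fun _ _ => Iff.rfl⟩
  have hPiff : ∀ (u u' : ℕ → M.C), (∀ i < l.length, u i = u' i) → ∀ y,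
      P M (Sum.elim u fun _ => y) → P M (Sum.elim u' fun _ => y) := by
    intro u u' huu y h
    have h' : φ.Realize ((Sum.elim u fun _ => y) ∘ g) := Formula.realize_relabel.1 h
    refine Formula.realize_relabel.2 ((hs M _ _ ?_).1 h')
    rintro (b | b) hb
    · exact huu _ (List.idxOf_lt_length_iff.2 (hmem b hb))
    · rfl
  let u0 : ℕ → M.C := fun i => if h : i < l.length then (l[i] : M.C) else x
  have hu0 : ∀ b ∈ l, u0 (l.idxOf b) = (b : M.C) := by
    intro b hb
    have hi : l.idxOf b < l.length := List.idxOf_lt_length_iff.2 hb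
    simp [u0, hi]
  have hPu0 : ∀ y, P M (Sum.elim u0 fun _ => y) ↔
      φ.Realize (Sum.elim (fun a : B => (a : M.C)) fun _ => y) := by
    intro y
    refine Formula.realize_relabel.trans (hs M _ _ ?_)
    rintro (b | b) hb
    · exact hu0 b (hmem b hb)
    · rfl
  -- the formula
  have h1 : DefP (sig := sig) (α := (S ⊕ Unit) ⊕ ℕ) (fun N w =>
      (∀ b ∈ l, (ψ b).Realize (Sum.elim (fun a => w (Sum.inl (Sum.inl a)))
        (fun _ => w (Sum.inr (l.idxOf b))))) ∧
      (P N (Sum.elim (fun i => w (Sum.inr i)) (fun _ => w (Sum.inl (Sum.inr ())))) ∧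
      ¬ Cnt (K + 1) P N (fun i => w (Sum.inr i)))) := by
    refine DefP.and (DefP.allMem l fun b _ => ?_) (DefP.and ?_ ?_)
    · refine ⟨(ψ b).relabel (Sum.elim (fun a => Sum.inl (Sum.inl a))
        (fun _ => Sum.inr (l.idxOf b))), fun N w => ?_⟩
      rw [Formula.realize_relabel]
      refine iff_of_eq (congrArg _ ?_)
      funext t
      rcases t with t | t <;> rfl
    · refine (hP.comap (β := (S ⊕ Unit) ⊕ ℕ) (Sum.elim (fun i => Sum.inr i)
        (fun _ => Sum.inl (Sum.inr ())))).congr fun N w => ?_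
      refine iff_of_eq (congrArg _ ?_)
      funext t
      rcases t with t | t <;> rfl
    · exact ((hP.cnt (K + 1)).comap (β := (S ⊕ Unit) ⊕ ℕ) (fun i => Sum.inr i)).not
  obtain ⟨χ, hχ⟩ := h1.exBlock
  have hχ' : ∀ y : M.C, χ.Realize (Sum.elim (fun a : S => (a : M.C)) fun _ => y) ↔
      ∃ u : ℕ → M.C, (∀ b ∈ l, (ψ b).Realize (Sum.elim (fun a : S => (a : M.C))
        (fun _ => u (l.idxOf b)))) ∧ P M (Sum.elim u fun _ => y) ∧ ¬ Cnt (K + 1) P M u := by
    intro y
    rw [← hχ M]
    exact Iff.rfl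
  refine ⟨χ, (hχ' x).2 ⟨u0, ?_, (hPu0 x).2 hφx, ?_⟩, ?_⟩
  · intro b hb
    rw [hu0 b hb]
    exact hψ1 b
  · rintro ⟨t, ht, ht'⟩
    have : t.card ≤ K := by
      rw [← Set.ncard_coe_finset]
      exact Set.ncard_le_ncard (fun y hy => (hPu0 y).1 (ht' y hy)) hφfin
    omega
  · -- finiteness
    let R : Set (Fin l.length → M.C) := Set.pi Set.univ (fun i =>
      {y | (ψ l[i]).Realize (Sum.elim (fun a : S => (a : M.C)) fun _ => y)})
    have hR : R.Finite := Set.Finite.pi fun i => hψ2 _
    let ext : (Fin l.length → M.C) → ℕ → M.C := fun r i =>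
      if h : i < l.length then r ⟨i, h⟩ else x
    let R' : Set (Fin l.length → M.C) := {r | r ∈ R ∧ {y | P M (Sum.elim (ext r) fun _ => y)}.Finite}
    have hR' : R'.Finite := hR.subset fun r hr => hr.1
    have hU : (⋃ r ∈ R', {y | P M (Sum.elim (ext r) fun _ => y)}).Finite :=
      hR'.biUnion fun r hr => hr.2
    refine hU.subset fun y hy => ?_
    obtain ⟨u, hu1, hu2, hu3⟩ := (hχ' y).1 hy
    have hext : ∀ i < l.length, u i = ext (fun i => u i.1) i := by
      intro i hi
      simp only [ext, dif_pos hi]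
    refine Set.mem_iUnion₂.2 ⟨fun i => u i.1, ⟨?_, ?_⟩, hPiff u _ hext y hu2⟩
    · intro i _
      have hn : l.Nodup := Finset.nodup_toList _
      have := hu1 l[i] (List.getElem_mem _)
      have hidx : l.idxOf l[i] = i.1 := hn.idxOf_getElem i.1 i.2
      rw [hidx] at this
      exact this
    · by_contra hinf
      refine hu3 (cnt_of_infinite (P := P) (N := M) (v := u) (fun hf => hinf ?_) (K + 1))
      refine hf.subset fun y hy => ?_
      exact hPiff _ u (fun i hi => (hext i hi).symm) y hy

/-- greedy choice of a sequentially independent sequence -/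
theorem exists_seq {M : Str sig} (hcount : Countable M.C) (S : Set M.C) (x0 : M.C) :
    ∃ (d : ℕ → M.C) (tl : ℕ → ℕ), Primrec tl ∧
      (∀ j, (tl j = 2 ∧ ¬ Alg sig (S ∪ {x | ∃ j' < j, d j' = x}) (d j)) ∨ (tl j = 0 ∧ d j = x0)) ∧
      ∀ x, Alg sig (S ∪ Set.range d) x := by
  classical
  have hne : Nonempty M.C := M.ne
  obtain ⟨m, hm⟩ := exists_surjective_nat M.C
  set J : Set ℕ := {i | ¬ Alg sig (S ∪ {x | ∃ j < i, m j = x}) (m i)} with hJ
  -- a set containing all the chosen elements generates everything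
  have gen : ∀ B : Set M.C, (∀ i ∈ J, m i ∈ B) → ∀ x, Alg sig (S ∪ B) x := by
    intro B hB
    have main : ∀ i, Alg sig (S ∪ B) (m i) := by
      intro i
      induction i using Nat.strong_induction_on with
      | _ i ih =>
        by_cases hi : i ∈ J
        · exact Alg.of_mem (Or.inr (hB i hi))
        · have hi' : Alg sig (S ∪ {x | ∃ j < i, m j = x}) (m i) := by
            by_contra h; exact hi h
          refine Alg.trans (fun b hb => ?_) hi'
          rcases hb with hb | ⟨j, hj, rfl⟩
          · exact Alg.of_mem (Or.inl hb)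
          · exact ih j hj
    intro x
    obtain ⟨i, rfl⟩ := hm x
    exact main i
  by_cases hfin : J.Finite
  · -- finite case
    set L := hfin.toFinset.sort (· ≤ ·) with hL
    have hmemL : ∀ i, i ∈ L ↔ i ∈ J := fun i => by
      rw [hL, Finset.mem_sort, Set.Finite.mem_toFinset]
    have hsorted : L.Pairwise (· < ·) := by
      have := Finset.sortedLT_sort hfin.toFinset
      exact this.pairwise
    refine ⟨fun k => if h : k < L.length then m L[k] else x0, fun k => if k < L.length then 2 else 0,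
      Primrec.ite (Primrec.nat_lt.comp Primrec.id (Primrec.const _)) (Primrec.const 2)
        (Primrec.const 0), ?_, ?_⟩
    · intro k
      by_cases hk : k < L.length
      · left
        refine ⟨if_pos hk, ?_⟩
        simp only [dif_pos hk]
        have hkJ : L[k] ∈ J := (hmemL _).1 (List.getElem_mem hk)
        intro hcon
        refine hkJ (hcon.mono ?_)
        rintro x (hx | ⟨j', hj', rfl⟩)
        · exact Or.inl hx
        · refine Or.inr ⟨L[j'], ?_, ?_⟩
          · exact List.pairwise_iff_getElem.1 hsorted j' k _ hk hj'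
          · rw [dif_pos (by omega)]
      · right
        exact ⟨if_neg hk, dif_neg hk⟩
    · intro x
      refine gen _ (fun i hi => ?_) x
      obtain ⟨k, hk, hkk⟩ := List.getElem_of_mem ((hmemL i).2 hi)
      refine ⟨k, ?_⟩
      simp only [dif_pos hk, hkk]
  · -- infinite case
    have hinf : (Set.ofPred (fun i => i ∈ J)).Infinite := hfin
    refine ⟨fun k => m (Nat.nth (fun i => i ∈ J) k), fun _ => 2, Primrec.const 2, ?_, ?_⟩
    · intro k
      left
      refine ⟨rfl, ?_⟩
      have hkJ : Nat.nth (fun i => i ∈ J) k ∈ J := Nat.nth_mem_of_infinite hinf k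
      intro hcon
      refine hkJ (hcon.mono ?_)
      rintro x (hx | ⟨j', hj', rfl⟩)
      · exact Or.inl hx
      · exact Or.inr ⟨_, Nat.nth_strictMono hinf hj', rfl⟩
    · intro x
      refine gen _ (fun i hi => ?_) x
      exact ⟨Nat.count (fun i => i ∈ J) i, by
        show m (Nat.nth (fun i => i ∈ J) (Nat.count (fun i => i ∈ J) i)) = m i
        rw [Nat.nth_count hi]⟩

end FD55
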