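import Mathlib
import Pool.Agent.Lib.MP_fd2900_lc.H55.Truth

/-!
Strongly minimal theories: uniform finiteness; chains of elementary substructures.
-/

namespace FD55

open FirstOrder FirstOrder.Language

variable {sig : ℕ → Option ℕ}

/-- A complete theory with only infinite models all of whose models are minimal. -/
structure StronglyMinimal (T : (Lg sig).Theory) : Prop where
  complete : T.IsComplete
  infinite : ∀ (M : Type) [(Lg sig).Structure M] [T.Model M] [Nonempty M], Infinite M
  minimal : ∀ (M : Type) [(Lg sig).Structure M] [T.Model M] [Nonempty M] (n : ℕ)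
    (ψ : (Lg sig).Formula (Fin n ⊕ Unit)) (b : Fin n → M),
    {a | ψ.Realize (Sum.elim b fun _ => a)}.Finite ∨ {a | ¬ ψ.Realize (Sum.elim b fun _ => a)}.Finite

theorem StronglyMinimal.min {T : (Lg sig).Theory} (hT : StronglyMinimal T) (M : Str sig)
    [T.Model M.C] : MinimalStr M := fun n ψ b => hT.minimal M.C n ψ b

variable {α : Type}

/-- Uniform finiteness. -/
theorem StronglyMinimal.bound {T : (Lg sig).Theory} (hT : StronglyMinimal T)
    {P : ∀ N : Str sig, (α ⊕ Unit → N.C) → Prop} (hP : DefP P) (M : Str sig) [hM : T.Model M.C] :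
    ∃ K, ∀ v : α → M.C, Cnt K P M v → {a | ¬ P M (Sum.elim v fun _ => a)}.Finite := by
  classical
  by_contra hcon
  push Not at hcon
  choose v hv1 hv2 using hcon
  let U : Ultrafilter ℕ := Filter.hyperfilter ℕ
  let MS : Type := (U : Filter ℕ).Product (fun _ : ℕ => M.C)
  let _ : (Lg sig).Structure MS :=
    FirstOrder.Language.Ultraproduct.structure (L := Lg sig) (M := fun _ : ℕ => M.C) (u := U)
  have hne : Nonempty MS := FirstOrder.Language.Ultraproduct.Product.instNonempty
  let N : Str sig := ⟨MS, inferInstance, hne⟩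
  have hmod : T.Model N.C := by
    refine ⟨fun φ hφ => ?_⟩
    refine (FirstOrder.Language.Ultraproduct.sentence_realize (L := Lg sig)
      (M := fun _ : ℕ => M.C) (u := U) φ).2 ?_
    exact Filter.Eventually.of_forall fun _ => hM.realize_of_mem φ hφ
  let w : α → N.C := fun a =>
    ((fun K => v K a : ∀ _ : ℕ, M.C) : (U : Filter ℕ).Product (fun _ : ℕ => M.C))
  have transfer : ∀ {Q : ∀ N : Str sig, (α → N.C) → Prop}, DefP Q →
      (∀ᶠ K in (U : Filter ℕ), Q M (v K)) → Q N w := by
    rintro Q ⟨φ, hφ⟩ h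
    rw [hφ]
    refine (FirstOrder.Language.Ultraproduct.realize_formula_cast (L := Lg sig)
      (M := fun _ : ℕ => M.C) (u := U) φ (fun a K => v K a)).2 ?_
    filter_upwards [h] with K hK
    exact (hφ M (v K)).1 hK
  have hle : (U : Filter ℕ) ≤ Filter.cofinite := Filter.hyperfilter_le_cofinite
  have c1 : ∀ k, Cnt k P N w := fun k => by
    refine transfer (hP.cnt k) ?_
    have : ∀ᶠ K in Filter.cofinite, k ≤ K := by
      rw [Nat.cofinite_eq_atTop]
      exact Filter.eventually_ge_atTop k
    filter_upwards [hle this] with K hK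
    exact (hv1 K).mono hK
  have c2 : ∀ k, Cnt k (fun N v => ¬ P N v) N w := fun k => by
    refine transfer (hP.not.cnt k) (Filter.Eventually.of_forall fun K => ?_)
    exact cnt_of_infinite (P := fun N v => ¬ P N v) (hv2 K) k
  rcases (hT.min N).def hP w with h | h
  · exact not_finite_of_cnt c1 h
  · exact not_finite_of_cnt (P := fun N v => ¬ P N v) c2 h

/-- one large `k` decides the iterated steps for all `k` -/
theorem StronglyMinimal.stab {T : (Lg sig).Theory} (hT : StronglyMinimal T) (M : Str sig)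
    [T.Model M.C] (t : ℕ → ℕ) {Θ : ∀ N : Str sig, (ℕ → N.C) → (ℕ → N.C) → Prop} (hΘ : DefF Θ)
    (f : ℕ → M.C) :
    ∀ j i, ∃ K, ∀ x : ℕ → M.C, Tr t K Θ j i M f x → ∀ k, Tr t k Θ j i M f x
  | 0, _ => ⟨0, fun _ h _ => h⟩
  | j + 1, i => by
      obtain ⟨K1, hK1⟩ := hT.stab M t hΘ f j (i + 1)
      have hd := stpP_def t i (DefF.tr (t := t) (k := K1) hΘ j (i + 1))
      obtain ⟨K2, hK2⟩ := hT.bound hd M
      refine ⟨max K1 K2, fun x hx k => ?_⟩
      by_cases ht : t i = 2
      · have h1 : Cnt K2 (stpP t i (Tr t K1 Θ j (i + 1))) M (Sum.elim f x) := by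
          obtain ⟨s, hs, h⟩ := hx
          rw [if_pos ht] at hs
          obtain ⟨u, hu, hc⟩ := Finset.exists_subset_card_eq (s := s) (n := K2)
            (by rw [hs]; exact le_max_right _ _)
          exact ⟨u, hc, fun y hy => ⟨(h y (hu hy)).1,
            Tr_mono (le_max_left K1 K2) _ _ _ (h y (hu hy)).2⟩⟩
        have h2 := hK2 _ h1
        have hinf : ¬ {a | stpP t i (Tr t K1 Θ j (i + 1)) M
            (Sum.elim (Sum.elim f x) fun _ => a)}.Finite := by
          intro hfin
          have := hT.infinite M.C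
          refine Set.infinite_univ (α := M.C) ((hfin.union h2).subset fun y _ => ?_)
          by_cases hy : stpP t i (Tr t K1 Θ j (i + 1)) M (Sum.elim (Sum.elim f x) fun _ => y)
          · exact Or.inl hy
          · exact Or.inr hy
        obtain ⟨s, hs, h⟩ := cnt_of_infinite hinf k
        refine ⟨s, by rw [if_pos ht]; exact hs, fun y hy => ?_⟩
        have := h y hy
        rw [stpP_elim] at this
        exact ⟨this.1, hK1 _ this.2 k⟩
      · obtain ⟨s, hs, h⟩ := hx
        rw [if_neg ht] at hs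
        refine ⟨s, by rw [if_neg ht]; exact hs, fun y hy => ⟨(h y hy).1, ?_⟩⟩
        exact hK1 _ (Tr_mono (le_max_left K1 K2) _ _ _ (h y hy).2) k

/-- the structure of an elementary substructure -/
def SS {N : Str sig} (S : (Lg sig).ElementarySubstructure N.C) (a : S) : Str sig :=
  ⟨S, inferInstance, ⟨a⟩⟩

/-- A chain of elementary substructures with new elements `g i`. -/
structure Chain (N : Str sig) (f : ℕ → N.C)
    (S : ℕ → (Lg sig).ElementarySubstructure N.C) (g : ℕ → N.C) : Prop where
  base : ∀ a, f a ∈ S 0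
  mono : ∀ i x, x ∈ S i → x ∈ S (i + 1)
  memg : ∀ i, g i ∈ S (i + 1)
  notg : ∀ i, g i ∉ S i

theorem Chain.le {N : Str sig} {f : ℕ → N.C} {S : ℕ → (Lg sig).ElementarySubstructure N.C}
    {g : ℕ → N.C} (h : Chain N f S g) {i j : ℕ} (hij : i ≤ j) : ∀ x, x ∈ S i → x ∈ S j := by
  induction hij with
  | refl => exact fun x hx => hx
  | step _ ih => exact fun x hx => h.mono _ _ (ih x hx)

/-- transfer from an elementary substructure -/
theorem sub_transfer {N : Str sig} (S : (Lg sig).ElementarySubstructure N.C)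
    {P : ∀ N : Str sig, (α → N.C) → Prop} (hP : DefP P) (a : S) (v : α → S) :
    P (SS S a) v ↔ P N (fun i => (v i : N.C)) :=
  hP.transfer (SS S a) N S.subtype v

/-- finite sets definable over an elementary substructure lie in it -/
theorem mem_of_finite {N : Str sig} (S : (Lg sig).ElementarySubstructure N.C)
    {P : ∀ N : Str sig, (α ⊕ Unit → N.C) → Prop} (hP : DefP P) (v : α → N.C) (a0 : S)
    (hv : ∀ a, v a ∈ S) (hfin : {y | P N (Sum.elim v fun _ => y)}.Finite) :
    ∀ y, P N (Sum.elim v fun _ => y) → y ∈ S := by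
  classical
  set n := hfin.toFinset.card with hn
  have h1 : Cnt n P N v := ⟨hfin.toFinset, rfl, fun y hy => by simpa using hy⟩
  have h2 : Cnt n P (SS S a0) (fun a => (⟨v a, hv a⟩ : S)) :=
    (sub_transfer S (hP.cnt n) a0 (fun a => (⟨v a, hv a⟩ : S))).2 h1
  obtain ⟨s, hs, h3⟩ := h2
  have h4 : ∀ y ∈ s, P N (Sum.elim v fun _ => ((show S from y) : N.C)) := by
    intro y hy
    have := (sub_transfer S hP a0 (Sum.elim (fun a => (⟨v a, hv a⟩ : S)) fun _ => y)).1 (h3 y hy)
    have e : (fun i => ((Sum.elim (fun a => (⟨v a, hv a⟩ : S)) (fun _ : Unit => y) i : S) : N.C)) =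
        Sum.elim v fun _ => ((show S from y) : N.C) := by
      funext i; rcases i with i | i <;> rfl
    rw [e] at this
    exact this
  let s' : Finset N.C := Finset.image (fun y : S => (y : N.C)) (show Finset S from s)
  have hcard : s'.card = n :=
    (Finset.card_image_of_injective _ Subtype.val_injective).trans hs
  have hsub : s' ⊆ hfin.toFinset := by
    intro y hy
    obtain ⟨z, hz, rfl⟩ := Finset.mem_image.1 hy
    rw [Set.Finite.mem_toFinset]
    exact h4 z hz
  have heq := Finset.eq_of_subset_of_card_le hsub (by rw [hcard])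
  intro y hy
  have : y ∈ hfin.toFinset := by rw [Set.Finite.mem_toFinset]; exact hy
  rw [← heq] at this
  obtain ⟨z, hz, rfl⟩ := Finset.mem_image.1 this
  exact (show S from z).2

/-- block version of the Tarski-Vaught property -/
theorem tv_block {N : Str sig} (S : (Lg sig).ElementarySubstructure N.C)
    {P : ∀ N : Str sig, (α ⊕ ℕ → N.C) → Prop} (hP : DefP P) (v : α → N.C) (a0 : S)
    (hv : ∀ a, v a ∈ S) (h : ∃ u : ℕ → N.C, P N (Sum.elim v u)) :
    ∃ u : ℕ → N.C, (∀ i, u i ∈ S) ∧ P N (Sum.elim v u) := by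
  obtain ⟨u, hu⟩ := (sub_transfer S hP.exBlock a0 (fun a => (⟨v a, hv a⟩ : S))).2 h
  refine ⟨fun i => ((show S from u i) : N.C), fun i => (show S from u i).2, ?_⟩
  have := (sub_transfer S hP a0 (Sum.elim (fun a => (⟨v a, hv a⟩ : S)) u)).1 hu
  have e : (fun i => ((Sum.elim (fun a => (⟨v a, hv a⟩ : S)) u i : S) : N.C)) =
      Sum.elim v fun i => ((show S from u i) : N.C) := by
    funext i; rcases i with i | i <;> rfl
  rw [e] at this
  exact this

theorem exists_chain (A : (Lg sig).Structure ℕ) : ∃ (N : Str sig)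
    (F : (NS A).C ↪ₑ[Lg sig] N.C) (S : ℕ → (Lg sig).ElementarySubstructure N.C) (g : ℕ → N.C),
    Chain N (fun a : ℕ => F (show (NS A).C from a)) S g := by
  classical
  have hcard : (Lg sig).card ≤ Cardinal.aleph0 := by
    unfold FirstOrder.Language.card
    exact Cardinal.mk_le_aleph0
  have hinf : Infinite (NS A).C := inferInstanceAs (Infinite ℕ)
  obtain ⟨N, ⟨F⟩, hN⟩ := FirstOrder.Language.exists_elementaryEmbedding_card_eq_of_ge (Lg sig)
    (NS A).C (Cardinal.aleph 1) (by
      rw [Cardinal.lift_id, Cardinal.lift_id]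
      exact hcard.trans (Cardinal.aleph0_le_aleph 1)) (by
      rw [Cardinal.lift_id, Cardinal.lift_id]
      exact (Cardinal.mk_nat.le).trans (Cardinal.aleph0_le_aleph 1))
  have hNe : Nonempty N := ⟨F (show (NS A).C from (0 : ℕ))⟩
  let NN : Str sig := ⟨N, inferInstance, hNe⟩
  have hlt : Cardinal.aleph0 < Cardinal.mk NN.C := by
    rw [show Cardinal.mk NN.C = Cardinal.aleph 1 from hN]
    exact Cardinal.aleph0_lt_aleph_one
  have step : ∀ s : Set NN.C, Cardinal.mk s ≤ Cardinal.aleph0 →
      ∃ S : (Lg sig).ElementarySubstructure NN.C, s ⊆ S ∧ Cardinal.mk S = Cardinal.aleph0 := by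
    intro s hs
    obtain ⟨S, h1, h2⟩ := FirstOrder.Language.exists_elementarySubstructure_card_eq (Lg sig) s
      Cardinal.aleph0 le_rfl (by rw [Cardinal.lift_id, Cardinal.lift_id]; exact hs)
      (by rw [Cardinal.lift_id, Cardinal.lift_id]; exact hcard)
      (by rw [Cardinal.lift_id, Cardinal.lift_id]; exact hlt.le)
    rw [Cardinal.lift_id, Cardinal.lift_id] at h2
    exact ⟨S, h1, h2⟩
  have next : ∀ S : {S : (Lg sig).ElementarySubstructure NN.C // Cardinal.mk S = Cardinal.aleph0},
      ∃ (S' : {S : (Lg sig).ElementarySubstructure NN.C // Cardinal.mk S = Cardinal.aleph0})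
        (g : NN.C), (∀ x, x ∈ S.1 → x ∈ S'.1) ∧ g ∈ S'.1 ∧ g ∉ S.1 := by
    intro S
    have : ∃ g : NN.C, g ∉ S.1 := by
      by_contra hcon
      push Not at hcon
      have : Cardinal.mk NN.C ≤ Cardinal.mk S.1 :=
        Cardinal.mk_le_of_injective (f := fun x => (⟨x, hcon x⟩ : S.1))
          fun a b hab => congrArg Subtype.val hab
      rw [S.2] at this
      exact absurd hlt (not_lt.2 this)
    obtain ⟨g, hg⟩ := this
    obtain ⟨S', h1, h2⟩ := step (insert g (S.1 : Set NN.C)) (by
      refine (Cardinal.mk_insert_le).trans ?_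
      have : Cardinal.mk ((S.1 : Set NN.C)) = Cardinal.aleph0 := S.2
      rw [this]
      simp)
    exact ⟨⟨S', h2⟩, g, fun x hx => h1 (Set.mem_insert_of_mem _ hx), h1 (Set.mem_insert _ _), hg⟩
  choose nS ng h1 h2 h3 using next
  obtain ⟨S0, hS0, hc0⟩ := step (Set.range (fun a : ℕ => F (show (NS A).C from a))) (by
    exact Cardinal.mk_range_le.trans (by simp))
  let Sq : ℕ → {S : (Lg sig).ElementarySubstructure NN.C // Cardinal.mk S = Cardinal.aleph0} :=
    fun n => Nat.rec ⟨S0, hc0⟩ (fun _ S => nS S) n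
  refine ⟨NN, F, fun n => (Sq n).1, fun n => ng (Sq n), ⟨?_, ?_, ?_, ?_⟩⟩
  · exact fun a => hS0 ⟨a, rfl⟩
  · exact fun i x hx => h1 (Sq i) x hx
  · exact fun i => h2 (Sq i)
  · exact fun i => h3 (Sq i)

end FD55
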