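import Mathlib
import Pool.Agent.Lib.MP_fd2900_lc.H55.Path

/-!
The construction for the iterated existential closure: names with parameters among earlier names,
facts decided positively whenever possible.
-/

namespace FD55

open FirstOrder FirstOrder.Language

variable {sig : ℕ → Option ℕ}

/-- names: (formula, parameters, number of solutions, index, padding) -/
abbrev NT := List Lit × List ℕ × ℕ × ℕ × ℕ

/-- the data of the name `ν` -/
def nn (ν : ℕ) : NT := ((Encodable.decode ν : Option NT)).getD ([], [], 0, 0, 0)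

theorem nn_encode (x : NT) : nn (Encodable.encode x) = x := by
  unfold nn
  rw [Encodable.encodek]
  rfl

theorem nn_prim : Primrec nn :=
  Primrec.option_getD.comp Primrec.decode (Primrec.const ([], [], 0, 0, 0))

/-- formula -/
def nE (ν : ℕ) : List Lit := (nn ν).1
/-- parameters -/
def nV (ν : ℕ) : List ℕ := (nn ν).2.1
/-- number of solutions -/
def nK (ν : ℕ) : ℕ := (nn ν).2.2.1
/-- index -/
def nI (ν : ℕ) : ℕ := (nn ν).2.2.2.1
/-- padding -/
def nS (ν : ℕ) : ℕ := (nn ν).2.2.2.2

theorem nE_prim : Primrec nE := Primrec.fst.comp nn_prim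
theorem nV_prim : Primrec nV := Primrec.fst.comp (Primrec.snd.comp nn_prim)
theorem nK_prim : Primrec nK := Primrec.fst.comp (Primrec.snd.comp (Primrec.snd.comp nn_prim))
theorem nI_prim : Primrec nI :=
  Primrec.fst.comp (Primrec.snd.comp (Primrec.snd.comp (Primrec.snd.comp nn_prim)))
theorem nS_prim : Primrec nS :=
  Primrec.snd.comp (Primrec.snd.comp (Primrec.snd.comp (Primrec.snd.comp nn_prim)))

/-- canonical names -/
def cnn (ν : ℕ) : Prop := Encodable.encode (nn ν) = ν ∧ nI ν < nK ν ∧ ∀ μ ∈ nV ν, μ < ν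

theorem cnn_prim : PrimrecPred cnn := by
  have h3 : Sg 0 (fun ν : ℕ => ∀ μ ∈ nV ν, μ < ν) :=
    Sg.allMem (P := fun w : ℕ × ℕ => w.2 < w.1) (Sg.lt Primrec.snd Primrec.fst) nV_prim
  exact (Primrec.eq.comp (Primrec.encode.comp nn_prim) Primrec.id).and
    ((Primrec.nat_lt.comp nI_prim nK_prim).and h3)

/-- names in the same block -/
def sbn (ν' ν : ℕ) : Prop := Encodable.encode (nn ν') = ν' ∧ nI ν' < nK ν' ∧ nE ν' = nE ν ∧
  nV ν' = nV ν ∧ nK ν' = nK ν ∧ nS ν' = nS ν

instance (ν' ν : ℕ) : Decidable (sbn ν' ν) := by unfold sbn; infer_instance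

theorem sbn_prim : PrimrecRel sbn := by
  have f1 : ∀ {g : ℕ → ℕ}, Primrec g → Primrec (fun x : ℕ × ℕ => g x.1) :=
    fun hg => hg.comp Primrec.fst
  have f2 : ∀ {g : ℕ → ℕ}, Primrec g → Primrec (fun x : ℕ × ℕ => g x.2) :=
    fun hg => hg.comp Primrec.snd
  refine (Primrec.eq.comp (Primrec.encode.comp (nn_prim.comp Primrec.fst)) Primrec.fst).and
    ((Primrec.nat_lt.comp (f1 nI_prim) (f1 nK_prim)).and
    ((Primrec.eq.comp (nE_prim.comp Primrec.fst) (nE_prim.comp Primrec.snd)).and
    ((Primrec.eq.comp (nV_prim.comp Primrec.fst) (nV_prim.comp Primrec.snd)).and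
    ((Primrec.eq.comp (f1 nK_prim) (f2 nK_prim)).and
      (Primrec.eq.comp (f1 nS_prim) (f2 nS_prim))))))

/-- doubling: real names -/
def dbl (l : List ℕ) : List ℕ := l.map fun μ => 2 * μ

theorem dbl_prim : Primrec dbl :=
  Primrec.list_map Primrec.id (Primrec.nat_mul.comp (Primrec.const 2) Primrec.snd)

/-- the requirement list: there are `k` solutions of `e` with the parameters `v` -/
def tst (x : (List Lit × List ℕ) × ℕ) : List Req :=
  (List.range x.2).flatMap fun i => (x.1.1, (2 * i + 1) :: dbl x.1.2) ::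
    (List.range i).map fun j => (neqL, [2 * j + 1, 2 * i + 1])

theorem tst_prim : Primrec tst := by
  have hodd : ∀ {α : Type} [Primcodable α] {g : α → ℕ}, Primrec g →
      Primrec (fun x => 2 * g x + 1) := fun hg =>
    Primrec.succ.comp (Primrec.nat_mul.comp (Primrec.const 2) hg)
  refine Primrec.list_flatMap (Primrec.list_range.comp Primrec.snd) ?_
  refine Primrec.list_cons.comp ?_ ?_
  · exact (Primrec.fst.comp (Primrec.fst.comp Primrec.fst)).pair
      (Primrec.list_cons.comp (hodd Primrec.snd)
        (dbl_prim.comp (Primrec.snd.comp (Primrec.fst.comp Primrec.fst))))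
  · refine Primrec.list_map (Primrec.list_range.comp Primrec.snd) ?_
    exact (Primrec.const neqL).pair (Primrec.list_cons.comp (hodd Primrec.snd)
      (Primrec.list_cons.comp (hodd (Primrec.snd.comp Primrec.fst)) (Primrec.const [])))

/-- the fact number `t`: a list of requirements with real names clipped -/
def fcz (t : ℕ) : List Req :=
  (((Encodable.decode t.unpair.1 : Option (List Req))).getD []).map fun r =>
    (r.1, r.2.map fun n => if n % 2 = 0 ∧ t < n / 2 then 0 else n)

theorem fcz_prim : Primrec fcz := by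
  have hp : Primrec (fun t : ℕ => ((Encodable.decode t.unpair.1 : Option (List Req))).getD []) :=
    Primrec.option_getD.comp (Primrec.decode.comp (Primrec.fst.comp Primrec.unpair))
      (Primrec.const [])
  refine Primrec.list_map hp ?_
  refine (Primrec.fst.comp Primrec.snd).pair ?_
  refine Primrec.list_map (Primrec.snd.comp Primrec.snd) ?_
  refine Primrec.ite (PrimrecPred.and ?_ ?_) (Primrec.const 0) Primrec.snd
  · exact Primrec.eq.comp (Primrec.nat_mod.comp Primrec.snd (Primrec.const 2)) (Primrec.const 0)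
  · exact Primrec.nat_lt.comp (Primrec.fst.comp Primrec.fst)
      (Primrec.nat_div.comp Primrec.snd (Primrec.const 2))

/-- content of the position `p` with bit `b`, with local names -/
def cont (p b : ℕ) : List Req :=
  if p % 2 = 0 then
    (if b = 1 then (nE (p / 2), (2 * (p / 2)) :: dbl (nV (p / 2))) ::
        (List.range (p / 2)).flatMap
          (fun ν' => if sbn ν' (p / 2) then [(neqL, [2 * ν', 2 * (p / 2)])] else [])
      else [(eqzL, [2 * (p / 2)])])
  else (if b = 1 then fcz (p / 2) else [])

theorem cont_prim : Primrec₂ cont := by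
  have hp : Primrec (fun x : ℕ × ℕ => x.1 / 2) := Primrec.nat_div.comp Primrec.fst
    (Primrec.const 2)
  have h2p : Primrec (fun x : ℕ × ℕ => 2 * (x.1 / 2)) := Primrec.nat_mul.comp (Primrec.const 2) hp
  refine Primrec.ite (Primrec.eq.comp (Primrec.nat_mod.comp Primrec.fst (Primrec.const 2))
    (Primrec.const 0)) ?_ ?_
  · refine Primrec.ite (Primrec.eq.comp Primrec.snd (Primrec.const 1)) ?_ ?_
    · refine Primrec.list_cons.comp ?_ ?_
      · exact (nE_prim.comp hp).pair
          (Primrec.list_cons.comp h2p (dbl_prim.comp (nV_prim.comp hp)))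
      · refine Primrec.list_flatMap (Primrec.list_range.comp hp) ?_
        refine Primrec.ite (sbn_prim.comp Primrec.snd (hp.comp Primrec.fst)) ?_ (Primrec.const [])
        refine Primrec.list_cons.comp ?_ (Primrec.const [])
        exact (Primrec.const neqL).pair (Primrec.list_cons.comp
          (Primrec.nat_mul.comp (Primrec.const 2) Primrec.snd)
          (Primrec.list_cons.comp (h2p.comp Primrec.fst) (Primrec.const [])))
    · refine Primrec.list_cons.comp ?_ (Primrec.const [])
      exact (Primrec.const eqzL).pair (Primrec.list_cons.comp h2p (Primrec.const []))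
  · exact Primrec.ite (Primrec.eq.comp Primrec.snd (Primrec.const 1)) (fcz_prim.comp hp)
      (Primrec.const [])

/-- global names of the local names of the position `p` -/
def ren (p n : ℕ) : ℕ := if n % 2 = 0 then n else 2 * Nat.pair p (n / 2) + 1

/-- renaming of a list of requirements -/
def renL (p : ℕ) (z : List Req) : List Req := z.map fun r => (r.1, r.2.map (ren p))

theorem renL_prim : Primrec₂ renL := by
  refine Primrec.list_map Primrec.snd ?_
  refine (Primrec.fst.comp Primrec.snd).pair ?_
  refine Primrec.list_map (Primrec.snd.comp Primrec.snd) ?_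
  refine Primrec.ite ?_ Primrec.snd ?_
  · exact Primrec.eq.comp (Primrec.nat_mod.comp Primrec.snd (Primrec.const 2)) (Primrec.const 0)
  · refine Primrec.succ.comp (Primrec.nat_mul.comp (Primrec.const 2) ?_)
    exact Primrec₂.natPair.comp (Primrec.fst.comp (Primrec.fst.comp Primrec.fst))
      (Primrec.nat_div.comp Primrec.snd (Primrec.const 2))

/-- all the requirements of a finite path -/
def rqn (τ : List ℕ) : List Req :=
  (List.range τ.length).flatMap fun p => renL p (cont p (τ.getD p 0))

theorem rqn_prim : Primrec rqn := by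
  refine Primrec.list_flatMap (Primrec.list_range.comp Primrec.list_length) ?_
  exact renL_prim.comp Primrec.snd
    (cont_prim.comp Primrec.snd ((Primrec.list_getD 0).comp Primrec.fst Primrec.snd))

/-- the decisions -/
def dcn (M : Str sig) (f c : ℕ → M.C) (τ : List ℕ) : Prop :=
  (τ.length % 2 = 0 ∧ (cnn (τ.length / 2) ∧
    Th (rqn τ ++ renL τ.length (tst ((nE (τ.length / 2), nV (τ.length / 2)), nK (τ.length / 2))))
      M f c ∧
    ¬ Th (rqn τ ++ renL τ.length
      (tst ((nE (τ.length / 2), nV (τ.length / 2)), nK (τ.length / 2) + 1))) M f c)) ∨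
    (¬ τ.length % 2 = 0 ∧ Th (rqn τ ++ renL τ.length (fcz (τ.length / 2))) M f c)

theorem dcn_Sg {M : Str sig} {f c : ℕ → M.C}
    (h1 : Sg 3 (fun z : List Req => Th z M f c)) (h2 : Sg 3 (fun z : List Req => ¬ Th z M f c)) :
    Sg 3 (dcn M f c) ∧ Sg 3 (fun x => ¬ dcn M f c x) := by
  have hl2 : Primrec (fun τ : List ℕ => τ.length / 2) :=
    Primrec.nat_div.comp Primrec.list_length (Primrec.const 2)
  have p0 : PrimrecPred (fun τ : List ℕ => τ.length % 2 = 0) :=
    Primrec.eq.comp (Primrec.nat_mod.comp Primrec.list_length (Primrec.const 2)) (Primrec.const 0)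
  have p1 : PrimrecPred (fun τ : List ℕ => cnn (τ.length / 2)) := cnn_prim.comp hl2
  have pp : ∀ {g : List ℕ → List Req}, Primrec g →
      Sg 3 (fun τ : List ℕ => Th (rqn τ ++ renL τ.length (g τ)) M f c) ∧
      Sg 3 (fun τ : List ℕ => ¬ Th (rqn τ ++ renL τ.length (g τ)) M f c) := fun {g} hg =>
    have hp : Primrec (fun τ : List ℕ => rqn τ ++ renL τ.length (g τ)) :=
      Primrec.list_append.comp rqn_prim (renL_prim.comp Primrec.list_length hg)
    ⟨Sg.comp (f := fun τ : List ℕ => rqn τ ++ renL τ.length (g τ)) h1 hp,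
      Sg.comp (f := fun τ : List ℕ => rqn τ ++ renL τ.length (g τ)) h2 hp⟩
  obtain ⟨q1, q1'⟩ := pp (g := fun τ => tst ((nE (τ.length / 2), nV (τ.length / 2)),
    nK (τ.length / 2))) (tst_prim.comp (((nE_prim.comp hl2).pair (nV_prim.comp hl2)).pair
    (nK_prim.comp hl2)))
  obtain ⟨q2, q2'⟩ := pp (g := fun τ => tst ((nE (τ.length / 2), nV (τ.length / 2)),
    nK (τ.length / 2) + 1)) (tst_prim.comp (((nE_prim.comp hl2).pair (nV_prim.comp hl2)).pair
    (Primrec.succ.comp (nK_prim.comp hl2))))
  obtain ⟨q3, q3'⟩ := pp (g := fun τ => fcz (τ.length / 2)) (fcz_prim.comp hl2)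
  constructor
  · exact ((Sg.prim p0).and ((Sg.prim p1).and (q1.and q2'))).or ((Sg.nprim p0).and q3)
  · refine (((Sg.nprim p0).or ((Sg.nprim p1).or (q1'.or q2))).and
      ((Sg.prim p0).or q3')).congr fun τ => ?_
    unfold dcn
    tauto

end FD55
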