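import Mathlib
import Pool.Agent.Lib.MP_fd2900_lc.H55.AlgTrans

/-!
Exchange for algebraic closure in infinite minimal structures; independence over finite sets.
-/

namespace FD55

open FirstOrder FirstOrder.Language

variable {sig : ℕ → Option ℕ}

/-- finite character -/
theorem Alg.fin {M : Str sig} {C : Set M.C} {x : M.C} (h : Alg sig C x) :
    ∃ C0 : Set M.C, C0 ⊆ C ∧ C0.Finite ∧ Alg sig C0 x := by
  classical
  obtain ⟨φ, h1, h2⟩ := h
  obtain ⟨s, hs⟩ := formula_support φ
  set C0 : Set M.C := Subtype.val '' (s.toLeft : Set C) with hC0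
  have hsub : C0 ⊆ C := by
    rintro _ ⟨a, _, rfl⟩
    exact a.2
  refine ⟨C0, hsub, (Finset.finite_toSet _).image _, ?_⟩
  let g : C ⊕ Unit → C0 ⊕ Unit :=
    Sum.elim (fun a => if h : (a : M.C) ∈ C0 then Sum.inl ⟨a, h⟩ else Sum.inr ()) Sum.inr
  have key : ∀ y : M.C, (φ.relabel g).Realize (Sum.elim (fun a : C0 => (a : M.C)) fun _ => y) ↔
      φ.Realize (Sum.elim (fun a : C => (a : M.C)) fun _ => y) := by
    intro y
    rw [Formula.realize_relabel]
    refine hs M _ _ ?_
    rintro (a | a) ha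
    · have : (a : M.C) ∈ C0 := ⟨a, Finset.mem_coe.2 (Finset.mem_toLeft.2 ha), rfl⟩
      simp only [Function.comp, g, Sum.elim_inl, dif_pos this]
    · rfl
  exact ⟨φ.relabel g, (key x).2 h1, h2.subset fun y hy => (key y).1 hy⟩

theorem finite_of_not_cnt {α : Type} {P : ∀ N : Str sig, (α ⊕ Unit → N.C) → Prop} {N : Str sig}
    {v : α → N.C} {k : ℕ} (h : ¬ Cnt k P N v) : {y | P N (Sum.elim v fun _ => y)}.Finite := by
  by_contra hinf
  exact h (cnt_of_infinite (P := P) hinf k)

theorem not_cnt_of_finite {α : Type} {P : ∀ N : Str sig, (α ⊕ Unit → N.C) → Prop} {N : Str sig}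
    {v : α → N.C} (h : {y | P N (Sum.elim v fun _ => y)}.Finite) : ∃ k, ¬ Cnt (k + 1) P N v := by
  refine ⟨h.toFinset.card, ?_⟩
  rintro ⟨s, hs, h'⟩
  have : s ⊆ h.toFinset := fun y hy => by
    rw [Set.Finite.mem_toFinset]
    exact h' y hy
  have := Finset.card_le_card this
  omega

/-- exchange -/
theorem Alg.exchange {M : Str sig} (hmin : MinimalStr M) (hinfM : Infinite M.C) {C : Set M.C}
    {a b : M.C} (h1 : Alg sig (insert b C) a) (h2 : ¬ Alg sig C a) : Alg sig (insert a C) b := by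
  classical
  obtain ⟨φ, hφ, hfin⟩ := h1
  let v0 : C → M.C := fun c => (c : M.C)
  let g : (insert b C : Set M.C) ⊕ Unit → (C ⊕ Unit) ⊕ Unit :=
    Sum.elim (fun t => if h : (t : M.C) = b then Sum.inl (Sum.inr ()) else
      Sum.inl (Sum.inl ⟨t, Set.mem_of_mem_insert_of_ne t.2 h⟩)) (fun _ => Sum.inr ())
  let P : ∀ N : Str sig, ((C ⊕ Unit) ⊕ Unit → N.C) → Prop := fun N w => (φ.relabel g).Realize w
  have hP : DefP P := ⟨φ.relabel g, fun _ _ => Iff.rfl⟩
  have hPb : ∀ x : M.C, P M (Sum.elim (Sum.elim v0 fun _ => b) fun _ => x) ↔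
      φ.Realize (Sum.elim (fun t : (insert b C : Set M.C) => (t : M.C)) fun _ => x) := by
    intro x
    refine Formula.realize_relabel.trans (iff_of_eq (congrArg _ ?_))
    funext t
    rcases t with t | t
    · simp only [Function.comp, g, Sum.elim_inl]
      split_ifs with h
      · exact h.symm
      · rfl
    · rfl
  have hfinP : {x | P M (Sum.elim (Sum.elim v0 fun _ => b) fun _ => x)}.Finite :=
    hfin.subset fun x hx => (hPb x).1 hx
  obtain ⟨k, hk⟩ := not_cnt_of_finite (P := P) (N := M) hfinP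
  -- the formula `psi`
  let Q : ∀ N : Str sig, ((C ⊕ Unit) ⊕ Unit → N.C) → Prop := fun N w =>
    P N (Sum.elim (Sum.elim (fun c => w (Sum.inl (Sum.inl c))) fun _ => w (Sum.inr ()))
      fun _ => w (Sum.inl (Sum.inr ()))) ∧
    ¬ Cnt (k + 1) P N (Sum.elim (fun c => w (Sum.inl (Sum.inl c))) fun _ => w (Sum.inr ()))
  have hQ : DefP Q := by
    refine DefP.and ?_ (DefP.not ?_)
    · refine (hP.comap (β := (C ⊕ Unit) ⊕ Unit) (Sum.elim (Sum.elim (fun c => Sum.inl (Sum.inl c))
        fun _ => Sum.inr ()) fun _ => Sum.inl (Sum.inr ()))).congr fun N w => ?_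
      refine iff_of_eq (congrArg _ ?_)
      funext t
      rcases t with (t | t) | t <;> rfl
    · refine ((hP.cnt (k + 1)).comap (β := (C ⊕ Unit) ⊕ Unit)
        (Sum.elim (fun c => Sum.inl (Sum.inl c)) fun _ => Sum.inr ())).congr fun N w => ?_
      refine iff_of_eq (congrArg _ ?_)
      funext t
      rcases t with t | t <;> rfl
  have hQab : Q M (Sum.elim (Sum.elim v0 fun _ => a) fun _ => b) := ⟨(hPb a).2 hφ, hk⟩
  by_cases hf1 : {y | Q M (Sum.elim (Sum.elim v0 fun _ => a) fun _ => y)}.Finite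
  · -- `b` is algebraic
    obtain ⟨θ, hθ⟩ := hQ
    let g' : (C ⊕ Unit) ⊕ Unit → (insert a C : Set M.C) ⊕ Unit :=
      Sum.elim (Sum.elim (fun c => Sum.inl ⟨c, Set.mem_insert_of_mem _ c.2⟩)
        (fun _ => Sum.inl ⟨a, Set.mem_insert _ _⟩)) Sum.inr
    have key : ∀ y : M.C, (θ.relabel g').Realize
        (Sum.elim (fun t : (insert a C : Set M.C) => (t : M.C)) fun _ => y) ↔
        Q M (Sum.elim (Sum.elim v0 fun _ => a) fun _ => y) := by
      intro y
      rw [Formula.realize_relabel, hθ]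
      refine iff_of_eq (congrArg _ ?_)
      funext t
      rcases t with (t | t) | t <;> rfl
    exact ⟨θ.relabel g', (key b).2 hQab, hf1.subset fun y hy => (key y).1 hy⟩
  · exfalso
    have hf2 := (hmin.def hQ (Sum.elim v0 fun _ => a)).resolve_left hf1
    obtain ⟨l, hl⟩ := not_cnt_of_finite (P := fun N w => ¬ Q N w) (N := M) hf2
    have hχ : DefP (fun N (w : C ⊕ Unit → N.C) => ¬ Cnt (l + 1) (fun N w => ¬ Q N w) N w) :=
      (hQ.not.cnt (l + 1)).not
    have hinf : ¬ {x : M.C | ¬ Cnt (l + 1) (fun N w => ¬ Q N w) M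
        (Sum.elim v0 fun _ : Unit => x)}.Finite := by
      intro hf
      apply h2
      obtain ⟨θ, hθ⟩ := hχ
      refine ⟨θ, (hθ M _).1 hl, hf.subset fun y hy => (hθ M _).2 hy⟩
    obtain ⟨t, ht, htc⟩ := Set.Infinite.exists_subset_card_eq hinf (k + 1)
    have hbad : (⋃ x ∈ t, {y | ¬ Q M (Sum.elim (Sum.elim v0 fun _ : Unit => x)
        fun _ : Unit => y)}).Finite := by
      refine (Finset.finite_toSet t).biUnion fun x hx => ?_
      exact finite_of_not_cnt (P := fun N w => ¬ Q N w) (ht hx)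
    obtain ⟨y, hy⟩ := hbad.infinite_compl.nonempty
    have hy' : ∀ x ∈ t, Q M (Sum.elim (Sum.elim v0 fun _ : Unit => x) fun _ : Unit => y) := by
      intro x hx
      by_contra hcon
      exact hy (Set.mem_iUnion₂.2 ⟨x, hx, hcon⟩)
    have hne : t.Nonempty := by
      rw [← Finset.card_pos, htc]; omega
    obtain ⟨x0, hx0⟩ := hne
    exact (hy' x0 hx0).2 ⟨t, htc, fun x hx => (hy' x hx).1⟩

/-- an independent set stays independent over a finite set after removing a finite set -/
theorem indep_finite {M : Str sig} (hmin : MinimalStr M) (hinfM : Infinite M.C) (S : Set M.C)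
    (I : Set M.C) (hI : ∀ b ∈ I, ¬ Alg sig (S ∪ (I \ {b})) b) (F : Set M.C) (hF : F.Finite) :
    ∃ I0 : Set M.C, I0 ⊆ I ∧ I0.Finite ∧
      ∀ b ∈ I \ I0, ¬ Alg sig (S ∪ (F ∪ I0) ∪ ((I \ I0) \ {b})) b := by
  classical
  induction F, hF using Set.Finite.induction_on with
  | empty =>
      refine ⟨∅, Set.empty_subset _, Set.finite_empty, ?_⟩
      intro b hb
      have hb' : b ∈ I := hb.1
      intro hcon
      refine hI b hb' (hcon.mono ?_)
      rintro x ((hx | (hx | hx)) | hx)
      · exact Or.inl hx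
      · exact absurd hx (Set.notMem_empty x)
      · exact absurd hx (Set.notMem_empty x)
      · exact Or.inr ⟨hx.1.1, hx.2⟩
  | @insert x F _ _ ih =>
      obtain ⟨I0, h1, h2, h3⟩ := ih
      by_cases hx : Alg sig (S ∪ (F ∪ I0) ∪ (I \ I0)) x
      · obtain ⟨C0, c1, c2, c3⟩ := hx.fin
        refine ⟨I0 ∪ (C0 ∩ (I \ I0)), ?_, h2.union (c2.subset Set.inter_subset_left), ?_⟩
        · exact Set.union_subset h1 fun y hy => hy.2.1
        · rintro b ⟨hb1, hb2⟩ hcon
          have hbI0 : b ∉ I0 := fun h => hb2 (Or.inl h)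
          have hbC0 : b ∉ C0 := fun h => hb2 (Or.inr ⟨h, hb1, hbI0⟩)
          refine h3 b ⟨hb1, hbI0⟩ (Alg.trans (fun y hy => ?_) hcon)
          -- every parameter is algebraic
          have hx' : Alg sig (S ∪ (F ∪ I0) ∪ ((I \ I0) \ {b})) x := by
            refine c3.mono fun z hz => ?_
            rcases c1 hz with hz' | hz'
            · exact Or.inl hz'
            · refine Or.inr ⟨hz', fun heq => hbC0 ?_⟩
              rw [Set.mem_singleton_iff] at heq
              exact heq ▸ hz
          rcases hy with (hy | (hy | (hy | hy))) | hy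
          · exact Alg.of_mem (Or.inl (Or.inl hy))
          · rcases Set.mem_insert_iff.1 hy with rfl | hy
            · exact hx'
            · exact Alg.of_mem (Or.inl (Or.inr (Or.inl hy)))
          · exact Alg.of_mem (Or.inl (Or.inr (Or.inr hy)))
          · refine Alg.of_mem (Or.inr ⟨hy.2, fun heq => hbC0 ?_⟩)
            rw [Set.mem_singleton_iff] at heq
            exact heq ▸ hy.1
          · refine Alg.of_mem (Or.inr ⟨⟨hy.1.1, fun h => hy.1.2 (Or.inl h)⟩, hy.2⟩)
      · refine ⟨I0, h1, h2, ?_⟩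
        intro b hb hcon
        apply hx
        have hcon' : Alg sig (insert x (S ∪ (F ∪ I0) ∪ ((I \ I0) \ {b}))) b := by
          refine hcon.mono ?_
          rintro y ((hy | (hy | hy)) | hy)
          · exact Or.inr (Or.inl (Or.inl hy))
          · rcases Set.mem_insert_iff.1 hy with rfl | hy
            · exact Or.inl rfl
            · exact Or.inr (Or.inl (Or.inr (Or.inl hy)))
          · exact Or.inr (Or.inl (Or.inr (Or.inr hy)))
          · exact Or.inr (Or.inr hy)
        have := Alg.exchange hmin hinfM hcon' (h3 b hb)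
        refine this.mono ?_
        rintro y (rfl | (hy | hy))
        · exact Or.inr hb
        · exact Or.inl hy
        · exact Or.inr hy.1

end FD55
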