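import Mathlib
import Pool.Agent.Lib.MP_fd2900_lc.H55.Bound

/-!
Iterated steps and realisations along a chain of elementary substructures.
-/

namespace FD55

open FirstOrder FirstOrder.Language

variable {sig : ℕ → Option ℕ}

section
variable {N : Str sig} (t : ℕ → ℕ) (f : ℕ → N.C) (S : ℕ → (Lg sig).ElementarySubstructure N.C)
  (g : ℕ → N.C)

/-- admissible values of the coordinate `i` -/
def okv (i : ℕ) (y : N.C) : Prop := (t i = 2 → y = g i) ∧ (t i ≠ 2 → y ∈ S i) ∧ (t i = 0 → y = f 0)

/-- realisation of `Θ` by admissible values of the coordinates `i, ..., i + j - 1` -/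
def RR (Θ : ∀ N : Str sig, (ℕ → N.C) → (ℕ → N.C) → Prop) : ℕ → ℕ → (ℕ → N.C) → Prop
  | 0, _, x => Θ N f x
  | j + 1, i, x => ∃ y, okv t f S g i y ∧ RR Θ j (i + 1) (Function.update x i y)

/-- explicit form -/
theorem RR_iff_ex (Θ : ∀ N : Str sig, (ℕ → N.C) → (ℕ → N.C) → Prop) : ∀ j i (x : ℕ → N.C),
    RR t f S g Θ j i x ↔ ∃ x' : ℕ → N.C, (∀ l, (l < i ∨ i + j ≤ l) → x' l = x l) ∧
      (∀ l, i ≤ l → l < i + j → okv t f S g l (x' l)) ∧ Θ N f x'
  | 0, i, x => by
      constructor
      · intro h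
        exact ⟨x, fun _ _ => rfl, fun l h1 h2 => by omega, h⟩
      · rintro ⟨x', h1, _, h3⟩
        have : x' = x := funext fun l => h1 l (by omega)
        rw [this] at h3
        exact h3
  | j + 1, i, x => by
      constructor
      · rintro ⟨y, hy, h⟩
        obtain ⟨x', h1, h2, h3⟩ := (RR_iff_ex Θ j (i + 1) _).1 h
        refine ⟨x', fun l hl => ?_, fun l hl1 hl2 => ?_, h3⟩
        · rw [h1 l (by omega), Function.update_of_ne (by omega)]
        · rcases Nat.lt_or_ge i l with h | h
          · exact h2 l (by omega) (by omega)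
          · obtain rfl : l = i := by omega
            rw [h1 l (by omega), Function.update_self]
            exact hy
      · rintro ⟨x', h1, h2, h3⟩
        refine ⟨x' i, h2 i le_rfl (by omega), (RR_iff_ex Θ j (i + 1) _).2 ⟨x', fun l hl => ?_,
          fun l hl1 hl2 => h2 l (by omega) (by omega), h3⟩⟩
        by_cases hli : l = i
        · subst hli; rw [Function.update_self]
        · rw [Function.update_of_ne hli]
          exact h1 l (by omega)

variable {t f S g}

theorem tv_single (hS : Chain N f S g) {i : ℕ} {α : Type}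
    {P : ∀ N : Str sig, (α ⊕ Unit → N.C) → Prop} (hP : DefP P) (v : α → N.C)
    (hv : ∀ a, v a ∈ S i) (h : ∃ y, P N (Sum.elim v fun _ => y)) :
    ∃ y ∈ S i, P N (Sum.elim v fun _ => y) := by
  have hP' := hP.comap (Sum.map id (fun _ : Unit => (0 : ℕ)) : α ⊕ Unit → α ⊕ ℕ)
  have e : ∀ u : ℕ → N.C, (Sum.elim v u ∘ (Sum.map id (fun _ : Unit => (0 : ℕ)) :
      α ⊕ Unit → α ⊕ ℕ)) = Sum.elim v (fun _ => u 0) := by
    intro u; funext x; rcases x with x | x <;> rfl
  obtain ⟨y, hy⟩ := h
  obtain ⟨u, hu1, hu2⟩ := tv_block (S i) hP' v ⟨f 0, hS.le (Nat.zero_le i) _ (hS.base 0)⟩ hv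
    ⟨fun _ => y, by rw [e]; exact hy⟩
  rw [e] at hu2
  exact ⟨u 0, hu1 0, hu2⟩

/-- Iterated steps for all `k` are the same as a realisation along the chain. -/
theorem RR_iff {T : (Lg sig).Theory} (hT : StronglyMinimal T) [T.Model N.C]
    (hS : Chain N f S g) {Θ : ∀ N : Str sig, (ℕ → N.C) → (ℕ → N.C) → Prop} (hΘ : DefF Θ) :
    ∀ j i (x : ℕ → N.C), (∀ l, x l ∈ S i) →
      ((∀ k, Tr t k Θ j i N f x) ↔ RR t f S g Θ j i x)
  | 0, i, x, _ => ⟨fun h => h 0, fun h _ => h⟩
  | j + 1, i, x, hx => by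
      have hf : ∀ i a, f a ∈ S i := fun i a => hS.le (Nat.zero_le i) _ (hS.base a)
      have hpar : ∀ a, Sum.elim f x a ∈ S i := by
        rintro (a | a)
        · exact hf i a
        · exact hx a
      have hupd : ∀ y, (y ∈ S (i + 1)) → ∀ l, Function.update x i y l ∈ S (i + 1) := by
        intro y hy l
        by_cases hl : l = i
        · subst hl; rw [Function.update_self]; exact hy
        · rw [Function.update_of_ne hl]; exact hS.mono i _ (hx l)
      have hmin := hT.min N
      by_cases ht : t i = 2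
      · have hgi : ∀ {P : ∀ N : Str sig, ((ℕ ⊕ ℕ) ⊕ Unit → N.C) → Prop}, DefP P →
            {y | P N (Sum.elim (Sum.elim f x) fun _ => y)}.Finite →
            ¬ P N (Sum.elim (Sum.elim f x) fun _ => g i) := by
          intro P hP hfin hcon
          exact hS.notg i (mem_of_finite (S i) hP _ ⟨f 0, hf i 0⟩ hpar hfin _ hcon)
        constructor
        · intro H
          refine ⟨g i, ⟨fun _ => rfl, fun h => absurd ht h, fun h => by omega⟩,
            (RR_iff hT hS hΘ j (i + 1) _ (hupd _ (hS.memg i))).1 fun k => ?_⟩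
          have hd := stpP_def t i (DefF.tr (t := t) (k := k) hΘ j (i + 1))
          have h1 : ∀ k', Cnt k' (stpP t i (Tr t k Θ j (i + 1))) N (Sum.elim f x) := by
            intro k'
            obtain ⟨s, hs, h⟩ := H (max k k')
            rw [if_pos ht] at hs
            obtain ⟨u, hu, hc⟩ := Finset.exists_subset_card_eq (s := s) (n := k')
              (by rw [hs]; exact le_max_right _ _)
            exact ⟨u, hc, fun y hy => ⟨(h y (hu hy)).1,
              Tr_mono (le_max_left k k') _ _ _ (h y (hu hy)).2⟩⟩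
          have h3 := (hmin.def hd _).resolve_left (not_finite_of_cnt h1)
          have h4 := hgi hd.not h3
          rw [not_not, stpP_elim] at h4
          exact h4.2
        · rintro ⟨y, hy, h⟩ k
          have hyg := hy.1 ht
          subst hyg
          have h2 := (RR_iff hT hS hΘ j (i + 1) _ (hupd _ (hS.memg i))).2 h k
          have hd := stpP_def t i (DefF.tr (t := t) (k := k) hΘ j (i + 1))
          have h1 : ¬ {y | stpP t i (Tr t k Θ j (i + 1)) N
              (Sum.elim (Sum.elim f x) fun _ => y)}.Finite := by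
            intro hfin
            refine hgi hd hfin ?_
            rw [stpP_elim]
            exact ⟨fun h => by omega, h2⟩
          obtain ⟨s, hs, h⟩ := cnt_of_infinite h1 k
          exact ⟨s, by rw [if_pos ht]; exact hs, fun y hy => h y hy⟩
      · constructor
        · intro H
          obtain ⟨K, hK⟩ := hT.stab N t hΘ f j (i + 1)
          have hd := stpP_def t i (DefF.tr (t := t) (k := K) hΘ j (i + 1))
          obtain ⟨s, hs, h⟩ := H K
          rw [if_neg ht] at hs
          obtain ⟨y, rfl⟩ := Finset.card_eq_one.1 hs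
          obtain ⟨y', hy', h'⟩ := tv_single hS hd (Sum.elim f x) hpar ⟨y, h y (by simp)⟩
          rw [stpP_elim] at h'
          refine ⟨y', ⟨fun h => absurd h ht, fun _ => hy', h'.1⟩, ?_⟩
          exact (RR_iff hT hS hΘ j (i + 1) _ (hupd _ (hS.mono i _ hy'))).1 (hK _ h'.2)
        · rintro ⟨y, hy, h⟩ k
          have h2 := (RR_iff hT hS hΘ j (i + 1) _ (hupd _ (hS.mono i _ (hy.2.1 ht)))).2 h k
          refine ⟨{y}, by rw [if_neg ht]; simp, fun y' hy' => ?_⟩
          rw [Finset.mem_singleton] at hy'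
          subst hy'
          exact ⟨hy.2.2, h2⟩

variable (t f S g)

/-- the realisations with `m` coordinates -/
def RS (m : ℕ) (Θ : ∀ N : Str sig, (ℕ → N.C) → (ℕ → N.C) → Prop) : Set (ℕ → N.C) :=
  {x | (∀ l < m, okv t f S g l (x l)) ∧ (∀ l, m ≤ l → x l = f 0) ∧ Θ N f x}

variable {t f S g}

theorem RS_nonempty_iff (m : ℕ) (Θ : ∀ N : Str sig, (ℕ → N.C) → (ℕ → N.C) → Prop) :
    (RS t f S g m Θ).Nonempty ↔ RR t f S g Θ m 0 (fun _ => f 0) := by
  rw [RR_iff_ex]
  constructor
  · rintro ⟨x, h1, h2, h3⟩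
    exact ⟨x, fun l hl => h2 l (by omega), fun l _ hl => h1 l (by omega), h3⟩
  · rintro ⟨x, h1, h2, h3⟩
    exact ⟨x, fun l hl => h2 l (Nat.zero_le _) (by omega), fun l hl => h1 l (by omega), h3⟩

end

/-- the realisations in the chain and the trees in the computable model -/
theorem RS_iff_TrL {T : (Lg sig).Theory} (hT : StronglyMinimal T) {N : Str sig} [T.Model N.C]
    (A : (Lg sig).Structure ℕ) (F : (NS A).C ↪ₑ[Lg sig] N.C)
    {S : ℕ → (Lg sig).ElementarySubstructure N.C} {g : ℕ → N.C}
    (hS : Chain N (fun a : ℕ => F (show (NS A).C from a)) S g) (t : ℕ → ℕ)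
    {Θ : ∀ N : Str sig, (ℕ → N.C) → (ℕ → N.C) → Prop} (hΘ : DefF Θ) (m : ℕ) :
    (RS t (fun a : ℕ => F (show (NS A).C from a)) S g m Θ).Nonempty ↔
      ∀ k, TrL t k (fun l => Θ (NS A) id (pad l)) m [] := by
  rw [RS_nonempty_iff, ← RR_iff hT hS hΘ m 0 _ (fun _ => hS.base 0)]
  refine forall_congr' fun k => ?_
  rw [← Tr_iff_TrL]
  have h2 := (DefF.tr (t := t) (k := k) hΘ m 0).transfer (NS A) N F id (pad [])
  have e2 : (fun a : ℕ => F (show (NS A).C from (pad [] a))) =
      (fun _ => F (show (NS A).C from (0 : ℕ))) := by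
    funext a
    have : pad [] a = (0 : ℕ) := by simp [pad]
    rw [this]
  have key : ∀ d d' : ℕ → N.C, d = d' →
      (Tr t k Θ m 0 N (fun a : ℕ => F (show (NS A).C from a)) d ↔
        Tr t k Θ m 0 N (fun a : ℕ => F (show (NS A).C from a)) d') := by
    rintro _ _ rfl; exact Iff.rfl
  exact (h2.trans (key _ _ e2)).symm

end FD55
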