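import Mathlib
import Pool.Agent.Lib.MP_fd2900_lc.H55.Real

/-!
The minimal pattern and multiplicity of a finite tuple.
-/

namespace FD55

open FirstOrder FirstOrder.Language

variable {sig : ℕ → Option ℕ}

/-- combination of a prefix, one value and a tail -/
def cmb {X : Type} (n0 i : ℕ) (f0 : X) (a : ℕ → X) (y : X) (u : ℕ → X) : ℕ → X := fun l =>
  if l < i then a l else if l = i then y else if l < n0 then u l else f0

theorem cmb_def (n0 i : ℕ) {Θ : ∀ N : Str sig, (ℕ → N.C) → (ℕ → N.C) → Prop} (hΘ : DefF Θ) :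
    DefP (sig := sig) (α := ((ℕ ⊕ ℕ) ⊕ Unit) ⊕ ℕ) (fun N w =>
      Θ N (fun b => w (Sum.inl (Sum.inl (Sum.inl b))))
        (cmb n0 i (w (Sum.inl (Sum.inl (Sum.inl 0)))) (fun l => w (Sum.inl (Sum.inl (Sum.inr l))))
          (w (Sum.inl (Sum.inr ()))) (fun l => w (Sum.inr l)))) := by
  refine (hΘ.comap (β := ((ℕ ⊕ ℕ) ⊕ Unit) ⊕ ℕ) (fun x => Sum.casesOn x
    (fun b => Sum.inl (Sum.inl (Sum.inl b)))
    (fun l => if l < i then Sum.inl (Sum.inl (Sum.inr l)) else if l = i then Sum.inl (Sum.inr ())
      else if l < n0 then Sum.inr l else Sum.inl (Sum.inl (Sum.inl 0))))).congr fun N w => ?_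
  have e : (w ∘ (fun x : ℕ ⊕ ℕ => (Sum.casesOn x
    (fun b => Sum.inl (Sum.inl (Sum.inl b)))
    (fun l => if l < i then Sum.inl (Sum.inl (Sum.inr l)) else if l = i then Sum.inl (Sum.inr ())
      else if l < n0 then Sum.inr l else Sum.inl (Sum.inl (Sum.inl 0))) :
        ((ℕ ⊕ ℕ) ⊕ Unit) ⊕ ℕ))) ∘ Sum.inr =
      (cmb n0 i (w (Sum.inl (Sum.inl (Sum.inl 0)))) (fun l => w (Sum.inl (Sum.inl (Sum.inr l))))
          (w (Sum.inl (Sum.inr ()))) (fun l => w (Sum.inr l))) := by
    funext l
    simp only [Function.comp, cmb]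
    split_ifs <;> rfl
  rw [e]
  rfl

/-- change of the pattern -/
def bump (n0 : ℕ) (t : ℕ → ℕ) (i : ℕ) : ℕ → ℕ := fun l =>
  if l < i then t l else if l = i then 2 else if l < n0 then 1 else t l

theorem RS_finite_or {N : Str sig} {f : ℕ → N.C} {S : ℕ → (Lg sig).ElementarySubstructure N.C}
    {g : ℕ → N.C} (hmin : MinimalStr N) (hS : Chain N f S g)
    {Θ : ∀ N : Str sig, (ℕ → N.C) → (ℕ → N.C) → Prop} (hΘ : DefF Θ) (t : ℕ → ℕ) (n0 : ℕ)
    (ht : ∀ l < n0, t l = 1 ∨ t l = 2) : (RS t f S g n0 Θ).Finite ∨
      ∃ i < n0, t i = 1 ∧ (RS (bump n0 t i) f S g n0 Θ).Nonempty := by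
  by_contra hcon
  push Not at hcon
  obtain ⟨hinf, hno⟩ := hcon
  apply hinf
  have hfS : ∀ i a, f a ∈ S i := fun i a => hS.le (Nat.zero_le i) _ (hS.base a)
  have hmem : ∀ x ∈ RS t f S g n0 Θ, ∀ i ≤ n0, ∀ l, trunc (f 0) x i l ∈ S i := by
    intro x hx i hi l
    simp only [trunc]
    split_ifs with hl
    · obtain ⟨h1, h2, _⟩ := hx.1 l (by omega)
      rcases ht l (by omega) with h | h
      · exact hS.le (by omega) _ (h2 (by omega))
      · rw [h1 h]
        exact hS.le (by omega : l + 1 ≤ i) _ (hS.memg l)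
    · exact hfS i 0
  have main : ∀ i ≤ n0, ((fun x => trunc (f 0) x i) '' (RS t f S g n0 Θ)).Finite := by
    intro i
    induction i with
    | zero =>
        intro _
        refine (Set.finite_singleton (fun _ => f 0)).subset ?_
        rintro _ ⟨x, _, rfl⟩
        rw [Set.mem_singleton_iff]
        funext l
        simp [trunc]
    | succ i ih =>
        intro hi
        have ih' := ih (by omega)
        let Y : (ℕ → N.C) → Set N.C := fun a =>
          {y | ∃ x ∈ RS t f S g n0 Θ, trunc (f 0) x i = a ∧ x i = y}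
        have hY : ∀ a ∈ ((fun x => trunc (f 0) x i) '' (RS t f S g n0 Θ)), (Y a).Finite := by
          rintro _ ⟨x0, hx0, rfl⟩
          rcases ht i (by omega) with h1 | h2
          · -- algebraic coordinate
            by_contra hYinf
            have hE := (cmb_def n0 i hΘ).exBlock
            have hparam : ∀ j, i ≤ j → ∀ b, Sum.elim f (trunc (f 0) x0 i) b ∈ S j := by
              rintro j hj (b | b)
              · exact hfS j b
              · exact hS.le hj _ (hmem x0 hx0 i (by omega) b)
            have hEinf : ¬ {y | ∃ u : ℕ → N.C, Θ N f (cmb n0 i (f 0) (trunc (f 0) x0 i) y u)}.Finite := by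
              intro hfin
              apply hYinf
              refine hfin.subset ?_
              rintro y ⟨x, hx, hxa, hxy⟩
              refine ⟨x, ?_⟩
              have : cmb n0 i (f 0) (trunc (f 0) x0 i) y x = x := by
                funext l
                simp only [cmb]
                split_ifs with c1 c2 c3
                · have hxa' : trunc (f 0) x i = trunc (f 0) x0 i := hxa
                  rw [← hxa']
                  simp [trunc, c1]
                · rw [c2]; exact hxy.symm
                · rfl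
                · exact (hx.2.1 l (by omega)).symm
              rw [this]
              exact hx.2.2
            have hEco := (hmin.def hE (Sum.elim f (trunc (f 0) x0 i))).resolve_left hEinf
            have hg : ∃ u : ℕ → N.C, Θ N f (cmb n0 i (f 0) (trunc (f 0) x0 i) (g i) u) := by
              by_contra hno
              exact hS.notg i (mem_of_finite (S i) hE.not _ ⟨f 0, hfS i 0⟩
                (hparam i le_rfl) hEco (g i) hno)
            obtain ⟨u, hu1, hu2⟩ := tv_block (S (i + 1)) (cmb_def n0 i hΘ)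
              (Sum.elim (Sum.elim f (trunc (f 0) x0 i)) (fun _ => g i)) ⟨f 0, hfS (i + 1) 0⟩
              (by
                rintro (b | b)
                · exact hparam (i + 1) (by omega) b
                · exact hS.memg i) hg
            have hne := hno i (by omega) h1
            apply Set.nonempty_iff_ne_empty.1 _ hne
            refine ⟨cmb n0 i (f 0) (trunc (f 0) x0 i) (g i) u, ?_, ?_, hu2⟩
            · intro l hl
              simp only [cmb, bump, okv, if_pos hl]
              split_ifs with c1 c2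
              · have := hx0.1 l (by omega)
                simp only [trunc, if_pos c1]
                exact this
              · subst c2
                exact ⟨fun _ => rfl, fun h => absurd rfl h, fun h => absurd h (by simp)⟩
              · exact ⟨fun h => absurd h (by simp),
                  fun _ => hS.le (by omega : i + 1 ≤ l) _ (hu1 l), fun h => absurd h (by simp)⟩
            · intro l hl
              simp only [cmb]
              rw [if_neg (by omega), if_neg (by omega), if_neg (by omega)]
          · refine (Set.finite_singleton (g i)).subset ?_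
            rintro y ⟨x, hx, _, hxy⟩
            rw [Set.mem_singleton_iff, ← hxy]
            exact (hx.1 i (by omega)).1 h2
        refine (Set.Finite.biUnion ih' (t := fun a => (fun y => Function.update a i y) '' (Y a))
          fun a ha => (hY a ha).image _).subset ?_
        rintro _ ⟨x, hx, rfl⟩
        refine Set.mem_iUnion₂.2 ⟨trunc (f 0) x i, ⟨x, hx, rfl⟩, x i, ⟨x, hx, rfl, rfl⟩, ?_⟩
        exact update_trunc _ _ _
  refine (main n0 le_rfl).subset ?_
  intro x hx
  refine ⟨x, hx, ?_⟩
  funext l
  simp only [trunc]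
  split_ifs with hl
  · rfl
  · exact (hx.2.1 l (by omega)).symm

/-- The class of predicates: definable, `Sigma_2` on the computable model, true at `c0`. -/
structure GG (A : (Lg sig).Structure ℕ) (M : Str sig) (fM c0 : ℕ → M.C)
    (G : ∀ N : Str sig, (ℕ → N.C) → (ℕ → N.C) → Prop) : Prop where
  dfn : DefF G
  sg : Sg 2 (fun l : List ℕ => G (NS A) id (pad l))
  tr : G M fM c0

theorem GG.and {A : (Lg sig).Structure ℕ} {M : Str sig} {fM c0 : ℕ → M.C}
    {G H : ∀ N : Str sig, (ℕ → N.C) → (ℕ → N.C) → Prop} (h : GG A M fM c0 G)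
    (h' : GG A M fM c0 H) : GG A M fM c0 (fun N f x => G N f x ∧ H N f x) :=
  ⟨h.dfn.and h'.dfn, h.sg.and h'.sg, h.tr, h'.tr⟩

theorem GG.true {A : (Lg sig).Structure ℕ} {M : Str sig} {fM c0 : ℕ → M.C} :
    GG A M fM c0 (fun _ _ _ => True) :=
  ⟨DefP.const True, Sg.const True, trivial⟩

section
variable {A : (Lg sig).Structure ℕ} {M : Str sig} {c0 : ℕ → M.C}
  {FM : (NS A).C ↪ₑ[Lg sig] M.C} {N : Str sig} {F : (NS A).C ↪ₑ[Lg sig] N.C}
  {S : ℕ → (Lg sig).ElementarySubstructure N.C} {g : ℕ → N.C}

theorem base_nonempty (n0 : ℕ)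
    (hc0 : ∀ l, n0 ≤ l → c0 l = FM (show (NS A).C from (0 : ℕ)))
    (hS : Chain N (fun a : ℕ => F (show (NS A).C from a)) S g) (t : ℕ → ℕ)
    (ht : ∀ l < n0, t l = 1) {G : ∀ N : Str sig, (ℕ → N.C) → (ℕ → N.C) → Prop} (hG : DefF G)
    (h : G M (fun a : ℕ => FM (show (NS A).C from a)) c0) :
    (RS t (fun a : ℕ => F (show (NS A).C from a)) S g n0 G).Nonempty := by
  have hP : DefP (sig := sig) (α := ℕ ⊕ ℕ) (fun N w => G N (fun b => w (Sum.inl b))
      (fun l => if l < n0 then w (Sum.inr l) else w (Sum.inl 0))) := by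
    refine (hG.comap (β := ℕ ⊕ ℕ) (fun x => Sum.casesOn x (fun b => Sum.inl b)
      (fun l => if l < n0 then Sum.inr l else Sum.inl 0))).congr fun N w => ?_
    have e : (w ∘ (fun x : ℕ ⊕ ℕ => (Sum.casesOn x (fun b => Sum.inl b)
      (fun l => if l < n0 then Sum.inr l else Sum.inl 0) : ℕ ⊕ ℕ))) ∘ Sum.inr =
        (fun l => if l < n0 then w (Sum.inr l) else w (Sum.inl 0)) := by
      funext l
      simp only [Function.comp]
      split_ifs <;> rfl
    rw [e]
    rfl
  have h1 : (fun (N : Str sig) (v : ℕ → N.C) => ∃ u : ℕ → N.C, G N (fun b => v b)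
      (fun l => if l < n0 then u l else v 0)) M (fun a : ℕ => FM (show (NS A).C from a)) := by
    refine ⟨c0, ?_⟩
    have : (fun l => if l < n0 then c0 l else FM (show (NS A).C from (0 : ℕ))) = c0 := by
      funext l
      split_ifs with hl
      · rfl
      · exact (hc0 l (by omega)).symm
    rw [this]
    exact h
  have hex := hP.exBlock
  have h2 := (hex.transfer (NS A) M FM (fun a : ℕ => (show (NS A).C from a))).2 h1
  obtain ⟨u, hu⟩ := h2
  have h3 := (hP.transfer (NS A) N F (Sum.elim (fun a : ℕ => (show (NS A).C from a)) u)).1 hu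
  refine ⟨_, fun l hl => ?_, fun l hl => ?_, h3⟩
  · simp only [if_pos hl]
    have : (F ∘ Sum.elim (fun a : ℕ => (show (NS A).C from a)) u) (Sum.inr l) ∈ S l :=
      hS.le (Nat.zero_le l) _ (hS.base (show ℕ from u l))
    exact ⟨fun h => by have := ht l hl; omega, fun _ => this, fun h => by have := ht l hl; omega⟩
  · simp only [if_neg (show ¬ l < n0 by omega)]
    rfl

theorem pattern_exists (n0 : ℕ)
    (hc0 : ∀ l, n0 ≤ l → c0 l = FM (show (NS A).C from (0 : ℕ)))
    (hS : Chain N (fun a : ℕ => F (show (NS A).C from a)) S g) (tl : ℕ → ℕ) :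
    ∀ i ≤ n0, ∃ (p : ℕ → ℕ) (G : ∀ N : Str sig, (ℕ → N.C) → (ℕ → N.C) → Prop),
      GG A M (fun a : ℕ => FM (show (NS A).C from a)) c0 G ∧
      (∀ l < n0, p l = 1 ∨ p l = 2) ∧ (∀ l, i ≤ l → l < n0 → p l = 1) ∧
      (∀ l, n0 ≤ l → p l = tl l) ∧
      (∀ H, GG A M (fun a : ℕ => FM (show (NS A).C from a)) c0 H →
        (RS p (fun a : ℕ => F (show (NS A).C from a)) S g n0
          (fun N f x => G N f x ∧ H N f x)).Nonempty) ∧
      (∀ l < i, p l = 1 →
        ¬ (RS (bump n0 p l) (fun a : ℕ => F (show (NS A).C from a)) S g n0 G).Nonempty)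
  | 0, _ => by
      refine ⟨fun l => if l < n0 then 1 else tl l, fun _ _ _ => True, GG.true, ?_, ?_, ?_, ?_, ?_⟩
      · intro l hl; left; simp [hl]
      · intro l _ hl; simp [hl]
      · intro l hl; simp [show ¬ l < n0 by omega]
      · intro H hH
        refine base_nonempty n0 hc0 hS _ (fun l hl => by simp [hl]) (GG.true.and hH).dfn
          (GG.true.and hH).tr
      · intro l hl; omega
  | i + 1, hi => by
      classical
      obtain ⟨p, G, hG, hp1, hp2, hp3, I1, I2⟩ := pattern_exists n0 hc0 hS tl i (by omega)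
      by_cases hA : ∀ H, GG A M (fun a : ℕ => FM (show (NS A).C from a)) c0 H →
        (RS (bump n0 p i) (fun a : ℕ => F (show (NS A).C from a)) S g n0
          (fun N f x => G N f x ∧ H N f x)).Nonempty
      · refine ⟨bump n0 p i, G, hG, ?_, ?_, ?_, hA, ?_⟩
        · intro l hl
          simp only [bump]
          split_ifs
          · exact hp1 l hl
          · right; rfl
          · left; rfl
        · intro l hl1 hl2
          simp only [bump]
          rw [if_neg (by omega), if_neg (by omega), if_pos hl2]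
        · intro l hl
          simp only [bump]
          rw [if_neg (by omega), if_neg (by omega), if_neg (by omega)]
          exact hp3 l hl
        · intro l hl hl1
          rcases Nat.lt_or_ge l i with h | h
          · have e : bump n0 (bump n0 p i) l = bump n0 p l := by
              funext l'
              simp only [bump]
              split_ifs <;> first | rfl | omega
            rw [e]
            refine I2 l h ?_
            simp only [bump] at hl1
            rwa [if_pos h] at hl1
          · obtain rfl : l = i := by omega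
            simp [bump] at hl1
      · push Not at hA
        obtain ⟨G1, hG1, hemp⟩ := hA
        refine ⟨p, fun N f x => G N f x ∧ G1 N f x, hG.and hG1, hp1,
          fun l h1 h2 => hp2 l (by omega) h2, hp3, ?_, ?_⟩
        · intro H hH
          obtain ⟨x, hx1, hx2, hx3, hx4, hx5⟩ := I1 _ (hG1.and hH)
          exact ⟨x, hx1, hx2, ⟨hx3, hx4⟩, hx5⟩
        · intro l hl hl1
          rcases Nat.lt_or_ge l i with h | h
          · rintro ⟨x, hx1, hx2, hx3, _⟩
            exact I2 l h hl1 ⟨x, hx1, hx2, hx3⟩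
          · obtain rfl : l = i := by omega
            rw [hemp]
            exact Set.not_nonempty_empty

/-- The size lemma: there are a pattern and a predicate, true at `c0`, all of whose realisations
of this pattern satisfy every predicate of the class which is true at `c0`. -/
theorem size_lemma (hmin : MinimalStr N) (n0 : ℕ)
    (hc0 : ∀ l, n0 ≤ l → c0 l = FM (show (NS A).C from (0 : ℕ)))
    (hS : Chain N (fun a : ℕ => F (show (NS A).C from a)) S g) (tl : ℕ → ℕ) :
    ∃ (p : ℕ → ℕ) (G : ∀ N : Str sig, (ℕ → N.C) → (ℕ → N.C) → Prop),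
      GG A M (fun a : ℕ => FM (show (NS A).C from a)) c0 G ∧
      (∀ l < n0, p l = 1 ∨ p l = 2) ∧ (∀ l, n0 ≤ l → p l = tl l) ∧
      (RS p (fun a : ℕ => F (show (NS A).C from a)) S g n0 G).Nonempty ∧
      (∀ H, GG A M (fun a : ℕ => FM (show (NS A).C from a)) c0 H →
        ∀ x ∈ RS p (fun a : ℕ => F (show (NS A).C from a)) S g n0 G,
          H N (fun a : ℕ => F (show (NS A).C from a)) x) := by
  classical
  obtain ⟨p, G, hG, hp1, _, hp3, I1, I2⟩ := pattern_exists (FM := FM) n0 hc0 hS tl n0 le_rfl
  have hfin : (RS p (fun a : ℕ => F (show (NS A).C from a)) S g n0 G).Finite := by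
    rcases RS_finite_or hmin hS hG.dfn p n0 hp1 with h | ⟨i, hi, h1, h2⟩
    · exact h
    · exact absurd h2 (I2 i hi h1)
  have hex : ∃ n, ∃ H, GG A M (fun a : ℕ => FM (show (NS A).C from a)) c0 H ∧
      (RS p (fun a : ℕ => F (show (NS A).C from a)) S g n0
        (fun N f x => G N f x ∧ H N f x)).ncard = n := ⟨_, _, GG.true, rfl⟩
  obtain ⟨H0, hH0, hcard⟩ := Nat.find_spec hex
  refine ⟨p, fun N f x => G N f x ∧ H0 N f x, hG.and hH0, hp1, hp3, I1 _ hH0, ?_⟩
  intro H hH x hx
  have hmin' := Nat.find_min' hex ⟨_, hH0.and hH, rfl⟩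
  rw [← hcard] at hmin'
  have hfin2 : (RS p (fun a : ℕ => F (show (NS A).C from a)) S g n0
      (fun N f x => G N f x ∧ H0 N f x)).Finite :=
    hfin.subset fun x hx => ⟨hx.1, hx.2.1, hx.2.2.1⟩
  have hsub : RS p (fun a : ℕ => F (show (NS A).C from a)) S g n0
      (fun N f x => G N f x ∧ (H0 N f x ∧ H N f x)) ⊆
      RS p (fun a : ℕ => F (show (NS A).C from a)) S g n0
      (fun N f x => G N f x ∧ H0 N f x) :=
    fun x hx => ⟨hx.1, hx.2.1, hx.2.2.1, hx.2.2.2.1⟩
  have heq := Set.eq_of_subset_of_ncard_le hsub hmin' hfin2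
  rw [← heq] at hx
  exact hx.2.2.2.2

end

end FD55
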