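import Mathlib
import Pool.Agent.Lib.MP_fd2900_lc.H55.Size
import Pool.Agent.Lib.MP_fd2900_lc.H55.Number

/-!
Truth at an arbitrary finite tuple followed by a generic sequence is `Delta_3`.
-/

namespace FD55

open FirstOrder FirstOrder.Language

variable {sig : ℕ → Option ℕ}

theorem DefF.trunc {Θ : ∀ N : Str sig, (ℕ → N.C) → (ℕ → N.C) → Prop} (hΘ : DefF Θ) (n0 : ℕ) :
    DefF (fun (N : Str sig) (f x : ℕ → N.C) => Θ N f (FD55.trunc (f 0) x n0)) := by
  refine (hΘ.comap (β := ℕ ⊕ ℕ) (fun x => Sum.casesOn x (fun b => Sum.inl b)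
    (fun l => if l < n0 then Sum.inr l else Sum.inl 0))).congr fun N w => ?_
  have e : (w ∘ (fun x : ℕ ⊕ ℕ => (Sum.casesOn x (fun b => Sum.inl b)
    (fun l => if l < n0 then Sum.inr l else Sum.inl 0) : ℕ ⊕ ℕ))) ∘ Sum.inr =
      FD55.trunc ((w ∘ Sum.inl) 0) (w ∘ Sum.inr) n0 := by
    funext l
    simp only [Function.comp, FD55.trunc]
    split_ifs <;> rfl
  rw [e]
  rfl

theorem TrL_fixed_Sg {n : ℕ} {Q : List ℕ → Prop} (hQ : Sg (n + 1) Q) {t : ℕ → ℕ}
    (ht : Primrec t) (K : ℕ) : ∀ j, Sg (n + 1) (TrL t K Q j)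
  | 0 => hQ
  | j + 1 => by
      have ih := TrL_fixed_Sg hQ ht K j
      have h2 : Sg (n + 1) (fun w : (List ℕ × List ℕ) × ℕ =>
          (t w.1.1.length = 0 → w.2 = 0) ∧ TrL t K Q j (w.1.1 ++ [w.2])) := by
        refine Sg.and (Sg.imp (Sg.nprim (Primrec.eq.comp (ht.comp (Primrec.list_length.comp
          (Primrec.fst.comp Primrec.fst))) (Primrec.const 0))) (Sg.eq Primrec.snd
          (Primrec.const 0))) ?_
        exact Sg.comp (f := fun w : (List ℕ × List ℕ) × ℕ => w.1.1 ++ [w.2]) ih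
          (Primrec.list_concat.comp (Primrec.fst.comp Primrec.fst) Primrec.snd)
      have h1 : Sg (n + 1) (fun w : List ℕ × List ℕ => w.2.Nodup ∧
          w.2.length = (if t w.1.length = 2 then K else 1) ∧
          ∀ y ∈ w.2, (t w.1.length = 0 → y = 0) ∧ TrL t K Q j (w.1 ++ [y])) := by
        refine Sg.and (Sg.prim (nodup_prim.comp Primrec.snd)) (Sg.and (Sg.eq ?_ ?_) ?_)
        · exact Primrec.list_length.comp Primrec.snd
        · refine Primrec.ite ?_ (Primrec.const K) (Primrec.const 1)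
          exact Primrec.eq.comp (ht.comp (Primrec.list_length.comp Primrec.fst)) (Primrec.const 2)
        · exact Sg.allMem h2 Primrec.snd
      exact (Sg.ex h1).congr fun l => Iff.rfl

theorem pad_take (l : List ℕ) (n0 : ℕ) : pad (l.take n0) = trunc 0 (pad l) n0 := by
  funext i
  simp only [pad, trunc, List.getD_eq_getElem?_getD]
  by_cases h : i < n0
  · rw [List.getElem?_take_of_lt h, if_pos h]
  · rw [if_neg h, List.getElem?_take_eq_none (by omega)]
    rfl

theorem pad_mk (l : List ℕ) (n0 : ℕ) :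
    pad ((List.range n0).map (pad l)) = trunc 0 (pad l) n0 := by
  funext i
  by_cases h : i < n0
  · rw [pad_map_range h]
    simp [trunc, h]
  · simp only [trunc, if_neg h, pad]
    rw [List.getD_eq_default]
    simp; omega

section
variable {A : (Lg sig).Structure ℕ} {T : (Lg sig).Theory} (hT : StronglyMinimal T)
  {M : Str sig} [hM : T.Model M.C] (FM : (NS A).C ↪ₑ[Lg sig] M.C) (c : ℕ → M.C) (n0 : ℕ)
  (tl : ℕ → ℕ) (htl : Primrec tl)
  (hc : ∀ i, n0 ≤ i → (tl i = 2 ∧ NonAlg M (fun a : ℕ => FM (show (NS A).C from a)) c i) ∨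
    (tl i = 0 ∧ c i = FM (show (NS A).C from (0 : ℕ))))

include hT htl hc in
theorem truth_tuple : ∃ (p : ℕ → ℕ) (G : ∀ N : Str sig, (ℕ → N.C) → (ℕ → N.C) → Prop),
    Primrec p ∧ Sg 2 (fun l : List ℕ => G (NS A) id (pad l)) ∧
    ∀ (Θ : ∀ N : Str sig, (ℕ → N.C) → (ℕ → N.C) → Prop), DefF Θ →
      Sg 2 (fun l : List ℕ => Θ (NS A) id (pad l)) →
      Sg 2 (fun l : List ℕ => ¬ Θ (NS A) id (pad l)) → ∀ m, n0 ≤ m →
      (Θ M (fun a : ℕ => FM (show (NS A).C from a))
        (trunc (FM (show (NS A).C from (0 : ℕ))) c m) ↔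
        ∀ k, TrL p k (fun l => G (NS A) id (pad l) ∧ Θ (NS A) id (pad l)) m []) := by
  classical
  obtain ⟨N, F, S, g, hS⟩ := exists_chain A
  have hAT : T.Model (NS A).C := (FM.theory_model_iff T).2 hM
  have hNT : T.Model N.C := (F.theory_model_iff T).1 hAT
  set fM : ℕ → M.C := fun a : ℕ => FM (show (NS A).C from a) with hfM
  set f : ℕ → N.C := fun a : ℕ => F (show (NS A).C from a) with hf
  set c0 : ℕ → M.C := trunc (fM 0) c n0 with hc0def
  have hc0 : ∀ l, n0 ≤ l → c0 l = FM (show (NS A).C from (0 : ℕ)) := by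
    intro l hl
    simp only [hc0def, trunc]
    rw [if_neg (by omega)]
  obtain ⟨p, G, hG, hp1, hp3, hne, hall⟩ := size_lemma (FM := FM) (F := F) (M := M) (c0 := c0)
    (hT.min N) n0 hc0 hS tl
  -- `p` is primitive recursive
  have hp : Primrec p := by
    have h1 : Primrec (fun l : ℕ => if l < n0 then ((List.range n0).map p).getD l 0 else tl l) :=
      Primrec.ite (Primrec.nat_lt.comp Primrec.id (Primrec.const n0))
        ((Primrec.list_getD 0).comp (Primrec.const _) Primrec.id) htl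
    refine h1.of_eq fun l => ?_
    split_ifs with h
    · exact pad_map_range h
    · exact (hp3 l (by omega)).symm
  have hSmem : ∀ x ∈ RS p f S g n0 G, ∀ l, x l ∈ S n0 := by
    intro x hx l
    by_cases hl : l < n0
    · obtain ⟨h1, h2, _⟩ := hx.1 l hl
      rcases hp1 l hl with h | h
      · exact hS.le (by omega) _ (h2 (by omega))
      · rw [h1 h]
        exact hS.le (by omega : l + 1 ≤ n0) _ (hS.memg l)
    · rw [hx.2.1 l (by omega)]
      exact hS.le (Nat.zero_le _) _ (hS.base 0)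
  -- the key property
  have key : ∀ (Ψ : ∀ N : Str sig, (ℕ → N.C) → (ℕ → N.C) → Prop), DefF Ψ →
      Sg 2 (fun l : List ℕ => Ψ (NS A) id (pad l)) → ∀ m, n0 ≤ m →
      Ψ M fM (trunc (fM 0) c m) → ∀ x ∈ RS p f S g n0 G,
      ∃ x' : ℕ → N.C, (∀ l, (l < n0 ∨ m ≤ l) → x' l = x l) ∧
        (∀ l, n0 ≤ l → l < m → okv p f S g l (x' l)) ∧ Ψ N f x' := by
    intro Ψ hΨ hΨ2 m hm hΨM x hx
    obtain ⟨j, rfl⟩ : ∃ j, m = n0 + j := ⟨m - n0, by omega⟩
    have h1 := (tr_iff (hT.min M) fM c p n0 (fun i hi => by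
      rw [hp3 i hi]; exact hc i hi) hΨ j n0 le_rfl).2 hΨM
    obtain ⟨K, hK⟩ := hT.stab N p hΨ f j n0
    have hH : GG A M fM c0 (fun (N : Str sig) (f x : ℕ → N.C) =>
        Tr p K Ψ j n0 N f (trunc (f 0) x n0)) := by
      refine ⟨(DefF.tr (t := p) (k := K) hΨ j n0).trunc n0, ?_, ?_⟩
      · have hL := TrL_fixed_Sg hΨ2 hp K j
        have hmk : Primrec (fun l : List ℕ => (List.range n0).map (pad l)) :=
          Primrec.list_map (Primrec.const _) ((Primrec.list_getD 0).comp Primrec.fst Primrec.snd)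
        refine (Sg.comp (f := fun l : List ℕ => (List.range n0).map (pad l)) hL hmk).congr
          fun l => ?_
        rw [← Tr_iff_TrL, pad_mk, List.length_map, List.length_range]
        rfl
      · show Tr p K Ψ j n0 M fM (trunc (fM 0) c0 n0)
        have : trunc (fM 0) c0 n0 = trunc (fM 0) c n0 := by
          funext l
          simp only [hc0def, trunc]
          split_ifs <;> rfl
        rw [this]
        exact h1 K
    have h2 := hall _ hH x hx
    have hx' : trunc (f 0) x n0 = x := by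
      funext l
      simp only [trunc]
      split_ifs with hl
      · rfl
      · exact (hx.2.1 l (by omega)).symm
    have h3 : Tr p K Ψ j n0 N f x := by
      have h2' : Tr p K Ψ j n0 N f (trunc (f 0) x n0) := h2
      rwa [hx'] at h2'
    have h4 := (RR_iff hT hS hΨ j n0 x (hSmem x hx)).1 (hK x h3)
    exact (RR_iff_ex p f S g Ψ j n0 x).1 h4
  refine ⟨p, fun (N : Str sig) (f x : ℕ → N.C) => G N f (trunc (f 0) x n0), hp, ?_, ?_⟩
  · refine (Sg.comp (f := fun l : List ℕ => l.take n0) hG.sg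
      (Primrec.list_take.comp (Primrec.const n0) Primrec.id)).congr fun l => ?_
    rw [pad_take]
    rfl
  · intro Θ hΘ hΘ1 hΘ2 m hm
    have hGt := hG.dfn.trunc n0
    have hboth : DefF (fun (N : Str sig) (f x : ℕ → N.C) =>
        G N f (trunc (f 0) x n0) ∧ Θ N f x) := hGt.and hΘ
    have e := RS_iff_TrL hT A F hS p hboth m
    rw [← e]
    constructor
    · intro h
      obtain ⟨x, hx⟩ := hne
      obtain ⟨x', a1, a2, a3⟩ := key Θ hΘ hΘ1 m hm h x hx
      refine ⟨x', fun l hl => ?_, fun l hl => ?_, ?_, a3⟩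
      · by_cases h' : l < n0
        · rw [a1 l (Or.inl h')]; exact hx.1 l h'
        · exact a2 l (by omega) hl
      · rw [a1 l (Or.inr hl)]; exact hx.2.1 l (by omega)
      · have : trunc (f 0) x' n0 = x := by
          funext l
          simp only [trunc]
          split_ifs with hl
          · exact a1 l (Or.inl hl)
          · exact (hx.2.1 l (by omega)).symm
        show G N f (trunc (f 0) x' n0)
        rw [this]
        exact hx.2.2
    · rintro ⟨x', b1, b2, b3, b4⟩
      by_contra hno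
      have hx : trunc (f 0) x' n0 ∈ RS p f S g n0 G := by
        refine ⟨fun l hl => ?_, fun l hl => ?_, b3⟩
        · simp only [trunc, if_pos hl]
          exact b1 l (by omega)
        · simp only [trunc, if_neg (show ¬ l < n0 by omega)]
      obtain ⟨x'', a1, a2, a3⟩ := key (fun (N : Str sig) (f x : ℕ → N.C) => ¬ Θ N f x)
        hΘ.not hΘ2 m hm hno _ hx
      have : x'' = x' := by
        funext l
        by_cases h1 : l < n0
        · rw [a1 l (Or.inl h1)]
          simp [trunc, h1]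
        · by_cases h2 : l < m
          · obtain ⟨c1, c2, c3⟩ := a2 l (by omega) h2
            obtain ⟨d1, d2, d3⟩ := b1 l h2
            rcases hc l (by omega) with ⟨e1, _⟩ | ⟨e1, _⟩
            · rw [← hp3 l (by omega)] at e1
              rw [c1 e1, d1 e1]
            · rw [← hp3 l (by omega)] at e1
              rw [c3 e1, d3 e1]
          · rw [a1 l (Or.inr (by omega)), b2 l (by omega)]
            exact if_neg h1
      rw [this] at a3
      exact a3 b4

include hT htl hc in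
/-- Truth of uniformly `Sigma_1` families at `c` is `Delta_3`. -/
theorem truth_tuple_Sg {ζ : Type} [Primcodable ζ]
    {Θ : ζ → ∀ N : Str sig, (ℕ → N.C) → (ℕ → N.C) → Prop} (hΘ : ∀ z, DefF (Θ z))
    (hQ : Sg 1 (fun x : ζ × List ℕ => Θ x.1 (NS A) id (pad x.2)))
    {B : ζ × ℕ → Prop} (hB : PrimrecPred B) (hB1 : ∀ z, ∃ m, B (z, m))
    (hBm : ∀ z m m', m ≤ m' → B (z, m) → B (z, m'))
    (hB2 : ∀ z m, B (z, m) → (Θ z M (fun a : ℕ => FM (show (NS A).C from a)) c ↔
      Θ z M (fun a : ℕ => FM (show (NS A).C from a))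
        (trunc (FM (show (NS A).C from (0 : ℕ))) c m))) :
    Sg 3 (fun z => Θ z M (fun a : ℕ => FM (show (NS A).C from a)) c) ∧
    Sg 3 (fun z => ¬ Θ z M (fun a : ℕ => FM (show (NS A).C from a)) c) := by
  obtain ⟨p, G, hp, hG, hall⟩ := truth_tuple hT FM c n0 tl htl hc
  have hQ' : Sg 2 (fun x : ζ × List ℕ => ¬ Θ x.1 (NS A) id (pad x.2)) :=
    Sg.of_not (hQ.congr fun x => by simp)
  have cst : ∀ z : ζ, Primrec (fun l : List ℕ => (z, l)) := fun z =>
    (Primrec.const z).pair Primrec.id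
  have hm0 : PrimrecPred (fun x : ζ × ℕ => B x ∧ n0 ≤ x.2) :=
    hB.and (Primrec.nat_le.comp (Primrec.const n0) Primrec.snd)
  have hex : ∀ z, ∃ m, B (z, m) ∧ n0 ≤ m := by
    intro z
    obtain ⟨m, hm⟩ := hB1 z
    exact ⟨max m n0, hBm z m _ (le_max_left _ _) hm, le_max_right _ _⟩
  have gen : ∀ (Ψ : ζ → ∀ N : Str sig, (ℕ → N.C) → (ℕ → N.C) → Prop), (∀ z, DefF (Ψ z)) →
      Sg 2 (fun x : ζ × List ℕ => Ψ x.1 (NS A) id (pad x.2)) →
      Sg 2 (fun x : ζ × List ℕ => ¬ Ψ x.1 (NS A) id (pad x.2)) →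
      (∀ z m, B (z, m) → (Ψ z M (fun a : ℕ => FM (show (NS A).C from a)) c ↔
      Ψ z M (fun a : ℕ => FM (show (NS A).C from a))
        (trunc (FM (show (NS A).C from (0 : ℕ))) c m))) →
      Sg 3 (fun z => ¬ Ψ z M (fun a : ℕ => FM (show (NS A).C from a)) c) := by
    intro Ψ hΨ h1 h2 hb
    have hq : Sg 2 (fun x : ζ × List ℕ => G (NS A) id (pad x.2) ∧
        Ψ x.1 (NS A) id (pad x.2)) :=
      (Sg.comp (f := fun x : ζ × List ℕ => x.2) hG Primrec.snd).and h1
    have h3 := trL_Sg hq hp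
    have h4 : Sg 3 (fun x : (ζ × ℕ) × ℕ => ¬ TrL p x.2 (fun l => G (NS A) id (pad l) ∧
        Ψ x.1.1 (NS A) id (pad l)) x.1.2 []) := by
      refine Sg.of_not ?_
      refine (Sg.comp (f := fun x : (ζ × ℕ) × ℕ => ((x.1.1, x.2), x.1.2)) h3 ?_).congr
        fun x => by simp
      exact ((Primrec.fst.comp Primrec.fst).pair Primrec.snd).pair (Primrec.snd.comp Primrec.fst)
    have h5 := Sg.exNat h4
    refine (Sg.exNat ((Sg.prim hm0).and h5)).congr fun z => ?_
    have hiff : ∀ m, B (z, m) ∧ n0 ≤ m →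
        ((∃ k, ¬ TrL p k (fun l => G (NS A) id (pad l) ∧ Ψ z (NS A) id (pad l)) m []) ↔
          ¬ Ψ z M (fun a : ℕ => FM (show (NS A).C from a)) c) := by
      rintro m ⟨hm1, hm2⟩
      rw [hb z m hm1, hall (Ψ z) (hΨ z) (Sg.comp (f := fun l : List ℕ => (z, l)) h1 (cst z))
        (Sg.comp (f := fun l : List ℕ => (z, l)) h2 (cst z)) m hm2]
      push Not
      rfl
    constructor
    · rintro ⟨m, hm, hk⟩
      exact (hiff m hm).1 hk
    · intro h
      obtain ⟨m, hm⟩ := hex z
      exact ⟨m, hm, (hiff m hm).2 h⟩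
  constructor
  · refine (gen (fun z N f x => ¬ Θ z N f x) (fun z => (hΘ z).not) hQ'
      (hQ.succ.congr fun x => by simp) (fun z m hm => not_congr (hB2 z m hm))).congr fun z => ?_
    simp
  · exact gen Θ hΘ hQ.succ hQ' hB2

end

end FD55
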