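import Mathlib
import Pool.Agent.Lib.MP_fd2900_lc.H55.DNF
import Pool.Agent.Lib.MP_fd2900_lc.H55.Tuple

/-!
Final assembly: existential closures of finite sets and independent sets over a computable model.
-/

namespace FD55

open FirstOrder FirstOrder.Language

variable {sig : ℕ → Option ℕ}

/-- atomic facts are given by quantifier-free formulas -/
theorem holdE_qf {α : Type} (s : ℕ) (l : List α) : ∃ φ : (Lg sig).BoundedFormula α 0, φ.IsQF ∧
    ∀ (N : Str sig) (v : α → N.C), (HoldE N s (l.map v) ↔ Formula.Realize (L := Lg sig) φ v) := by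
  have hbot : ∀ (N : Str sig) (v : α → N.C),
      ¬ Formula.Realize (L := Lg sig) (⊥ : (Lg sig).BoundedFormula α 0) v := fun N v h => h
  rcases s with _ | i
  · rcases l with _ | ⟨a, _ | ⟨b, _ | ⟨c, l⟩⟩⟩
    · exact ⟨⊥, BoundedFormula.isQF_bot, fun N v => ⟨fun h => by simp [HoldE] at h,
        fun h => absurd h (hbot N v)⟩⟩
    · exact ⟨⊥, BoundedFormula.isQF_bot, fun N v => ⟨fun h => by simp [HoldE] at h,
        fun h => absurd h (hbot N v)⟩⟩
    · refine ⟨Term.bdEqual (Term.var (Sum.inl a)) (Term.var (Sum.inl b)),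
        (BoundedFormula.IsAtomic.equal _ _).isQF, fun N v => ?_⟩
      simp only [List.map_cons, List.map_nil]
      rw [holdE_pair]
      simp [Formula.Realize]
    · exact ⟨⊥, BoundedFormula.isQF_bot, fun N v => ⟨fun h => by simp [HoldE] at h,
        fun h => absurd h (hbot N v)⟩⟩
  · by_cases h : sig i = some l.length
    · refine ⟨Relations.boundedFormula (L := Lg sig) (⟨i, h⟩ : (Lg sig).Relations l.length)
        (fun j => Term.var (Sum.inl (l.get j))), (BoundedFormula.IsAtomic.rel _ _).isQF,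
        fun N v => ?_⟩
      have e1 : Formula.Realize (L := Lg sig)
          (Relations.boundedFormula (L := Lg sig) (⟨i, h⟩ : (Lg sig).Relations l.length)
          (fun j => Term.var (Sum.inl (l.get j)))) v ↔
          N.str.RelMap (n := l.length) ⟨i, h⟩ (fun j => v (l.get j)) := by
        unfold Formula.Realize
        rw [BoundedFormula.realize_rel]
        simp only [Term.realize_var, Sum.elim_inl]
      rw [e1]
      have key : ∀ (m : ℕ) (e : m = l.length) (h1 : sig i = some m) (g : Fin m → N.C),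
          (N.str.RelMap (n := m) ⟨i, h1⟩ g ↔
            N.str.RelMap (n := l.length) ⟨i, h⟩ (fun j => g (Fin.cast e.symm j))) := by
        intro m e h1 g
        subst e
        rfl
      constructor
      · rintro (⟨h0, _⟩ | ⟨i', hi', h', hR⟩)
        · omega
        · obtain rfl : i = i' := by omega
          have := (key _ (List.length_map v) h' _).1 hR
          convert this using 1
          funext j
          simp
      · intro hR
        have h' : sig i = some (l.map v).length := by rw [List.length_map]; exact h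
        refine Or.inr ⟨i, rfl, h', ?_⟩
        refine (key _ (List.length_map v) h' _).2 ?_
        convert hR using 1
        funext j
        simp
    · refine ⟨⊥, BoundedFormula.isQF_bot, fun N v => ⟨?_, fun h => absurd h (hbot N v)⟩⟩
      rintro (⟨h0, _⟩ | ⟨i', hi', h', hR⟩)
      · omega
      · obtain rfl : i = i' := by omega
        rw [List.length_map] at h'
        exact absurd h' h

theorem lits_qf {α : Type} (Λ : List (ℕ × ℕ × List α)) :
    ∃ θ : (Lg sig).BoundedFormula α 0, θ.IsQF ∧ ∀ (N : Str sig) (v : α → N.C),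
      (Formula.Realize (L := Lg sig) θ v ↔ ∀ x ∈ Λ, litA N v x) := by
  induction Λ with
  | nil => exact ⟨⊤, BoundedFormula.IsQF.top, fun N v => by simp [Formula.Realize]⟩
  | cons x Λ ih =>
      obtain ⟨θ, h1, h2⟩ := ih
      obtain ⟨φ, h3, h4⟩ := holdE_qf (sig := sig) x.2.1 x.2.2
      by_cases hx : x.1 = 1
      · refine ⟨φ ⊓ θ, h3.inf h1, fun N v => ?_⟩
        have e : Formula.Realize (L := Lg sig) (φ ⊓ θ) v ↔
            (Formula.Realize (L := Lg sig) φ v ∧ Formula.Realize (L := Lg sig) θ v) :=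
          BoundedFormula.realize_inf
        rw [e, h2, ← h4]
        simp [litA, hx]
      · refine ⟨φ.not ⊓ θ, h3.not.inf h1, fun N v => ?_⟩
        have e : Formula.Realize (L := Lg sig) (φ.not ⊓ θ) v ↔
            (¬ Formula.Realize (L := Lg sig) φ v ∧ Formula.Realize (L := Lg sig) θ v) := by
          refine BoundedFormula.realize_inf.trans (and_congr ?_ Iff.rfl)
          exact BoundedFormula.realize_not
        rw [e, h2, ← h4]
        simp [litA, hx]

theorem exAlg_of_sol {M : Str sig} (f c : ℕ → M.C) {C : Set M.C} (hf : ∀ a, f a ∈ C)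
    (hc : ∀ a, c a ∈ C) {x : M.C} {e : List Lit} (hx : Sol M f c e x)
    (hfin : {y | Sol M f c e y}.Finite) : ExAlg sig C x := by
  classical
  have b1 : ∀ y : Lit, ∃ B, ∀ v ∈ y.2.2, ubd v < B := fun y => exists_bound ubd _
  choose b1 hb1 using b1
  obtain ⟨n, hn⟩ := exists_bound b1 e
  -- the map of variables
  let V : Var → (C ⊕ Unit) ⊕ Fin (n + 1) := fun v => match v with
    | Sum.inl a => Sum.inl (Sum.inl ⟨f a, hf a⟩)
    | Sum.inr (Sum.inl a) => Sum.inl (Sum.inl ⟨c a, hc a⟩)
    | Sum.inr (Sum.inr 0) => Sum.inl (Sum.inr ())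
    | Sum.inr (Sum.inr (j + 1)) => if h : j < n + 1 then Sum.inr ⟨j, h⟩ else Sum.inl (Sum.inr ())
  obtain ⟨θ, hqf, hθ⟩ := lits_qf (sig := sig) (e.map (fun y => (y.1, y.2.1, y.2.2.map V)))
  have key : ∀ y : M.C, Sol M f c e y ↔ ∃ z : Fin (n + 1) → M.C,
      Formula.Realize (L := Lg sig) θ
        (Sum.elim (Sum.elim (fun a : C => (a : M.C)) fun _ : Unit => y) z) := by
    intro y
    have hval : ∀ (u : ℕ → M.C) (z : Fin (n + 1) → M.C), u 0 = y →
        (∀ j : Fin (n + 1), z j = u (j.1 + 1)) → ∀ w ∈ e, ∀ v ∈ w.2.2,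
        Sum.elim (Sum.elim (fun a : C => (a : M.C)) fun _ : Unit => y) z (V v) = env f c u v := by
      intro u z h0 hz w hw v hv
      rcases v with a | a | a
      · rfl
      · rfl
      · rcases a with _ | j
        · exact h0.symm
        · have h1 := hb1 w _ hv
          have h2 := hn w hw
          have h3 : ubd (Sum.inr (Sum.inr (j + 1))) = j + 1 + 1 := rfl
          have hj : j < n + 1 := by omega
          show Sum.elim (Sum.elim (fun a : C => (a : M.C)) fun _ : Unit => y) z
            (if h : j < n + 1 then Sum.inr ⟨j, h⟩ else Sum.inl (Sum.inr ())) = u (j + 1)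
          rw [dif_pos hj]
          exact hz ⟨j, hj⟩
    have hlit : ∀ (u : ℕ → M.C) (z : Fin (n + 1) → M.C), u 0 = y →
        (∀ j : Fin (n + 1), z j = u (j.1 + 1)) →
        ((∀ w ∈ e, litOK M f c u w) ↔ Formula.Realize (L := Lg sig) θ
        (Sum.elim (Sum.elim (fun a : C => (a : M.C)) fun _ : Unit => y) z)) := by
      intro u z h0 hz
      rw [hθ]
      simp only [List.mem_map, forall_exists_index, and_imp, forall_apply_eq_imp_iff₂]
      refine forall_congr' fun w => forall_congr' fun hw => ?_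
      unfold litOK litA
      simp only [List.map_map]
      have : w.2.2.map ((Sum.elim (Sum.elim (fun a : C => (a : M.C)) fun _ : Unit => y) z) ∘ V) =
          w.2.2.map (env f c u) := List.map_congr_left fun v hv => hval u z h0 hz w hw v hv
      rw [this]
    constructor
    · rintro ⟨u, h0, h1⟩
      exact ⟨fun j => u (j.1 + 1), (hlit u _ h0 (fun _ => rfl)).1 h1⟩
    · rintro ⟨z, hz⟩
      refine ⟨fun j => match j with
        | 0 => y
        | j + 1 => if h : j < n + 1 then z ⟨j, h⟩ else y, rfl, ?_⟩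
      refine (hlit _ z rfl fun j => ?_).2 hz
      show z j = if h : j.1 < n + 1 then z ⟨j.1, h⟩ else y
      rw [dif_pos j.2]
  refine ⟨n + 1, θ, hqf, (key x).1 hx, ?_⟩
  refine hfin.subset fun y hy => ?_
  exact (key y).2 hy

theorem nonAlg_of {M : Str sig} (f c : ℕ → M.C) (i : ℕ) {C : Set M.C} (hf : ∀ a, f a ∈ C)
    (hc : ∀ j, trunc (f 0) c i j ∈ C) (h : ¬ Alg sig C (c i)) : NonAlg M f c i := by
  rintro P ⟨φ, hφ⟩ hfin hP
  apply h
  let g : (ℕ ⊕ ℕ) ⊕ Unit → C ⊕ Unit := Sum.map (Sum.elim (fun a => (⟨f a, hf a⟩ : C))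
    (fun j => ⟨trunc (f 0) c i j, hc j⟩)) id
  have key : ∀ y : M.C, (φ.relabel g).Realize (Sum.elim (fun a : C => (a : M.C)) fun _ => y) ↔
      P M (Sum.elim (Sum.elim f (trunc (f 0) c i)) fun _ => y) := by
    intro y
    rw [hφ, Formula.realize_relabel]
    refine iff_of_eq (congrArg _ ?_)
    funext w
    rcases w with (w | w) | w <;> rfl
  refine ⟨φ.relabel g, (key _).2 hP, ?_⟩
  refine hfin.subset fun y hy => ?_
  exact (key y).1 hy

theorem CB_mono (z : List Req) (m m' : ℕ) (h : m ≤ m') (hz : CB (z, m)) : CB (z, m') :=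
  fun r hr y hy v hv => (hz r hr y hy v hv).trans h

/-- enumeration of the independent set -/
theorem enum_indep {X : Type} (x0 : X) (I : Set X) (hI : I.Countable) :
    ∃ (d : ℕ → X) (tl : ℕ → ℕ), Primrec tl ∧ (∀ j, (tl j = 2 ∧ d j ∈ I) ∨ (tl j = 0 ∧ d j = x0)) ∧
      (∀ j j', tl j = 2 → tl j' = 2 → d j = d j' → j = j') ∧ ∀ x ∈ I, ∃ j, d j = x := by
  classical
  by_cases hfin : I.Finite
  · set L := hfin.toFinset.toList with hL
    have hn : L.Nodup := Finset.nodup_toList _
    refine ⟨fun j => L.getD j x0, fun j => if j < L.length then 2 else 0, ?_, ?_, ?_, ?_⟩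
    · exact Primrec.ite (Primrec.nat_lt.comp Primrec.id (Primrec.const _)) (Primrec.const 2)
        (Primrec.const 0)
    · intro j
      by_cases hj : j < L.length
      · left
        refine ⟨if_pos hj, ?_⟩
        have : L.getD j x0 ∈ L := by
          rw [List.getD_eq_getElem _ _ hj]; exact List.getElem_mem hj
        rw [hL, Finset.mem_toList, Set.Finite.mem_toFinset] at this
        exact this
      · right
        exact ⟨if_neg hj, List.getD_eq_default _ _ (by omega)⟩
    · intro j j' h1 h2 h3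
      have hj : j < L.length := by by_contra h; simp [h] at h1
      have hj' : j' < L.length := by by_contra h; simp [h] at h2
      simp only at h3
      rw [List.getD_eq_getElem _ _ hj, List.getD_eq_getElem _ _ hj'] at h3
      exact (List.Nodup.getElem_inj_iff hn).1 h3
    · intro x hx
      have : x ∈ L := by rw [hL, Finset.mem_toList, Set.Finite.mem_toFinset]; exact hx
      obtain ⟨j, hj, rfl⟩ := List.getElem_of_mem this
      exact ⟨j, List.getD_eq_getElem _ _ hj⟩
  · have hinf : Infinite I := Set.infinite_coe_iff.2 hfin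
    have hcount : Countable I := hI
    obtain ⟨e⟩ := nonempty_denumerable I
    let e' : ℕ ≃ I := (Denumerable.eqv I).symm
    refine ⟨fun j => (e' j : X), fun _ => 2, Primrec.const 2, fun j => Or.inl ⟨rfl, (e' j).2⟩,
      ?_, ?_⟩
    · intro j j' _ _ h
      exact e'.injective (Subtype.ext h)
    · intro x hx
      exact ⟨e'.symm ⟨x, hx⟩, by simp⟩

/-- existential closure has a numbering with `Delta_3` atomic facts -/
theorem closure_numbering {T : (Lg sig).Theory} (hT : StronglyMinimal T)
    (A : (Lg sig).Structure ℕ) (hA : ComputablePred (fun p : ℕ × List ℕ => Holds sig A p.1 p.2))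
    (M : Str sig) [hM : T.Model M.C] (hcount : Countable M.C) (FM : (NS A).C ↪ₑ[Lg sig] M.C)
    (F I : Set M.C) (hF : F.Finite)
    (hI : ∀ b ∈ I, ¬ Alg sig (Set.range FM ∪ F ∪ (I \ {b})) b) :
    ∃ h : ℕ → M.C, (∀ x, (∃ ν, h ν = x) ↔ ExAlg sig (Set.range FM ∪ F ∪ I) x) ∧
      Sg 3 (fun p : ℕ × List ℕ => HoldE M p.1 (p.2.map h)) ∧
      Sg 3 (fun p : ℕ × List ℕ => ¬ HoldE M p.1 (p.2.map h)) := by
  classical
  set f : ℕ → M.C := fun a : ℕ => FM (show (NS A).C from a) with hf
  have hrange : ∀ a, f a ∈ Set.range FM := fun a => ⟨(show (NS A).C from a), rfl⟩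
  set LF := hF.toFinset.toList with hLF
  set n0 := LF.length with hn0
  have hLFmem : ∀ x, x ∈ LF ↔ x ∈ F := fun x => by
    rw [hLF, Finset.mem_toList, Set.Finite.mem_toFinset]
  obtain ⟨d, tl, htl, hd1, hd2, hd3⟩ := enum_indep (f 0) I (Set.to_countable I)
  let c : ℕ → M.C := fun i => if i < n0 then LF.getD i (f 0) else d (i - n0)
  have hclt : ∀ i < n0, c i ∈ F := by
    intro i hi
    simp only [c, if_pos hi]
    rw [List.getD_eq_getElem _ _ hi]
    exact (hLFmem _).1 (List.getElem_mem hi)
  have hcge : ∀ i, n0 ≤ i → c i = d (i - n0) := by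
    intro i hi
    simp only [c, if_neg (show ¬ i < n0 by omega)]
  have hcC : ∀ i, c i ∈ Set.range FM ∪ F ∪ I := by
    intro i
    by_cases hi : i < n0
    · exact Or.inl (Or.inr (hclt i hi))
    · rw [hcge i (by omega)]
      rcases hd1 (i - n0) with ⟨_, h⟩ | ⟨_, h⟩
      · exact Or.inr h
      · rw [h]; exact Or.inl (Or.inl (hrange 0))
  have hc : ∀ i, n0 ≤ i → (tl (i - n0) = 2 ∧ NonAlg M f c i) ∨ (tl (i - n0) = 0 ∧ c i = f 0) := by
    intro i hi
    rcases hd1 (i - n0) with ⟨h1, h2⟩ | ⟨h1, h2⟩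
    · left
      refine ⟨h1, ?_⟩
      refine nonAlg_of f c i (C := Set.range FM ∪ F ∪ (I \ {c i})) (fun a => Or.inl (Or.inl (hrange a)))
        ?_ ?_
      · intro j
        simp only [trunc]
        split_ifs with hj
        · by_cases hj0 : j < n0
          · exact Or.inl (Or.inr (hclt j hj0))
          · rw [hcge j (by omega)]
            rcases hd1 (j - n0) with ⟨g1, g2⟩ | ⟨g1, g2⟩
            · refine Or.inr ⟨g2, fun hcon => ?_⟩
              rw [Set.mem_singleton_iff, hcge i hi] at hcon
              have := hd2 _ _ g1 h1 hcon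
              omega
            · rw [g2]; exact Or.inl (Or.inl (hrange 0))
        · exact Or.inl (Or.inl (hrange 0))
      · have : c i ∈ I := by rw [hcge i hi]; exact h2
        exact hI _ this
    · right
      exact ⟨h1, by rw [hcge i hi, h2]⟩
  have htl' : Primrec (fun i : ℕ => tl (i - n0)) :=
    htl.comp (Primrec.nat_sub.comp Primrec.id (Primrec.const n0))
  obtain ⟨t1, t2⟩ := truth_tuple_Sg hT FM c n0 (fun i => tl (i - n0)) htl' hc
    (Θ := fun z => Th z) Th_def (Th_Sg hA) CB_prim CB_ex CB_mono (CB_spec f c)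
  obtain ⟨h, h1, h2, h3⟩ := numbering_exists t1 t2
  refine ⟨h, fun x => (h1 x).trans ⟨?_, ?_⟩, h2, h3⟩
  · rintro ⟨e, he, hfin⟩
    exact exAlg_of_sol f c (fun a => Or.inl (Or.inl (hrange a))) hcC he hfin
  · intro hx
    refine sol_of_exAlg f c ?_ hx
    rintro y ((⟨a, rfl⟩ | hy) | hy)
    · exact Or.inl ⟨(show ℕ from a), rfl⟩
    · right
      obtain ⟨i, hi, hiy⟩ := List.getElem_of_mem ((hLFmem y).2 hy)
      refine ⟨i, ?_⟩
      simp only [c, if_pos (show i < n0 from hi)]
      rw [List.getD_eq_getElem _ _ hi]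
      exact hiy
    · right
      obtain ⟨j, hj⟩ := hd3 y hy
      refine ⟨n0 + j, ?_⟩
      rw [hcge _ (by omega), show n0 + j - n0 = j by omega]
      exact hj

theorem holdE_sub {M : Str sig} (N : (Lg sig).Substructure M.C) (a : N) (s : ℕ) (l : List N) :
    HoldE (⟨N, inferInstance, ⟨a⟩⟩ : Str sig) s l ↔ HoldE M s (l.map Subtype.val) := by
  unfold HoldE
  refine or_congr (and_congr Iff.rfl ?_) (exists_congr fun i => and_congr Iff.rfl ?_)
  · constructor
    · rintro ⟨b, rfl⟩; exact ⟨b.1, rfl⟩
    · rintro ⟨b, hb⟩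
      rcases l with _ | ⟨x, _ | ⟨y, _ | ⟨w, l⟩⟩⟩
      · simp at hb
      · simp at hb
      · simp only [List.map_cons, List.map_nil, List.cons.injEq, and_true] at hb
        exact ⟨x, by rw [show y = x from Subtype.ext (hb.2.trans hb.1.symm)]⟩
      · simp at hb
  · have gen2 : ∀ (m : ℕ) (e : m = l.length) (h1 : sig i = some m) (g : Fin m → M.C),
        (M.str.RelMap (n := m) ⟨i, h1⟩ g ↔
          M.str.RelMap (n := l.length) ⟨i, e ▸ h1⟩ (fun j => g (Fin.cast e.symm j))) := by
      intro m e h1 g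
      subst e
      rfl
    constructor
    · rintro ⟨hm, hR⟩
      have h' : sig i = some (l.map Subtype.val).length := by rw [List.length_map]; exact hm
      refine ⟨h', (gen2 _ (List.length_map _) h' _).2 ?_⟩
      have hR' : M.str.RelMap (n := l.length) ⟨i, hm⟩ (fun j => ((l.get j : N) : M.C)) := hR
      convert hR' using 1
      funext j
      simp
    · rintro ⟨hm, hR⟩
      have h' : sig i = some l.length := by rw [List.length_map] at hm; exact hm
      refine ⟨h', ?_⟩
      have := (gen2 _ (List.length_map _) hm _).1 hR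
      show M.str.RelMap (n := l.length) ⟨i, h'⟩ (fun j => ((l.get j : N) : M.C))
      convert this using 1
      funext j
      simp

/-- The main theorem in bundled form. -/
theorem main {T : (Lg sig).Theory} (hT : StronglyMinimal T)
    (A : (Lg sig).Structure ℕ) (hA : ComputablePred (fun p : ℕ × List ℕ => Holds sig A p.1 p.2))
    (M : Str sig) [hM : T.Model M.C] (hcount : Countable M.C) (FM : (NS A).C ↪ₑ[Lg sig] M.C)
    (F I : Set M.C) (hF : F.Finite)
    (hI : ∀ b ∈ I, ¬ Alg sig (Set.range FM ∪ F ∪ (I \ {b})) b) :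
    (∀ N : (Lg sig).Substructure M.C, (N : Set M.C) = {x | ExAlg sig (Set.range FM ∪ F ∪ I) x} →
      HasDelta3Copy (sig := sig) N) ∧
    ((∀ x, ExAlg sig (Set.range FM ∪ F ∪ I) x) → HasDelta3Copy (sig := sig) M.C) := by
  classical
  obtain ⟨h, h1, h2, h3⟩ := closure_numbering hT A hA M hcount FM F I hF hI
  constructor
  · intro N hN
    have hmem : ∀ x, x ∈ N ↔ ExAlg sig (Set.range FM ∪ F ∪ I) x := by
      intro x
      have : x ∈ (N : Set M.C) ↔ x ∈ {x | ExAlg sig (Set.range FM ∪ F ∪ I) x} := by rw [hN]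
      exact this
    have hν : ∀ ν, h ν ∈ N := fun ν => (hmem _).2 ((h1 _).1 ⟨ν, rfl⟩)
    let h' : ℕ → N := fun ν => ⟨h ν, hν ν⟩
    let NN : Str sig := ⟨N, inferInstance, ⟨h' 0⟩⟩
    have hsurj : Function.Surjective h' := by
      rintro ⟨x, hx⟩
      obtain ⟨ν, hν⟩ := (h1 x).2 ((hmem x).1 hx)
      exact ⟨ν, Subtype.ext hν⟩
    have hrng : ∀ a : ℕ, FM (show (NS A).C from a) ∈ N := by
      intro a
      rw [hmem]
      obtain ⟨θ, hq, hθ⟩ := holdE_qf (sig := sig)
        (α := (((Set.range FM ∪ F ∪ I : Set M.C)) ⊕ Unit) ⊕ Fin 0) 0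
        [Sum.inl (Sum.inr ()), Sum.inl (Sum.inl ⟨FM (show (NS A).C from a), Or.inl (Or.inl ⟨_, rfl⟩)⟩)]
      refine ⟨0, θ, hq, ⟨Fin.elim0, ?_⟩, ?_⟩
      · rw [← hθ M]
        simp only [List.map_cons, List.map_nil]
        rw [holdE_pair]
        rfl
      · refine (Set.finite_singleton (FM (show (NS A).C from a))).subset ?_
        rintro y ⟨z, hz⟩
        rw [← hθ M] at hz
        simp only [List.map_cons, List.map_nil] at hz
        rw [holdE_pair] at hz
        exact hz
    have hinf : Infinite NN.C := by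
      refine Infinite.of_injective (fun a : ℕ => (⟨FM (show (NS A).C from a), hrng a⟩ : N)) ?_
      intro a b hab
      have := congrArg Subtype.val hab
      exact FM.injective this
    have hfact : ∀ p : ℕ × List ℕ, HoldE NN p.1 (p.2.map h') ↔ HoldE M p.1 (p.2.map h) := by
      intro p
      have := holdE_sub N (h' 0) p.1 (p.2.map h')
      rw [List.map_map] at this
      exact this
    exact copy_of_numbering (M := NN) hinf h' hsurj (h2.congr fun p => (hfact p).symm)
      (h3.congr fun p => not_congr (hfact p).symm)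
  · intro hall
    have hinf : Infinite M.C := hT.infinite M.C
    exact copy_of_numbering hinf h (fun x => (h1 x).2 (hall x)) h2 h3

end FD55
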