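import Mathlib
import Pool.Agent.Lib.MP_fd2900_lc.H55.Build2

/-!
The numbering of the iterated existential closure.
-/

namespace FD55

open FirstOrder FirstOrder.Language

variable {sig : ℕ → Option ℕ}

section
variable (M : Str sig) (f c : ℕ → M.C)

/-- the existential formula `e` at the list `l` -/
def RV (e : List Lit) (l : List M.C) : Prop :=
  ∃ u : ℕ → M.C, (∀ i (h : i < l.length), u i = l[i]) ∧ ∀ y ∈ e, litOK M f c u y

/-- combined assignment of real names and local names -/
def cmbn {X : Type} (a d : ℕ → X) (n : ℕ) : X := if n % 2 = 0 then a (n / 2) else d (n / 2)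

/-- local satisfaction -/
def LOK (a : ℕ → M.C) (z : List Req) : Prop :=
  ∃ d : ℕ → M.C, ∀ r ∈ z, reqOK M f c (cmbn a d) r

open Classical in
/-- the bit of the true path at position `p` -/
noncomputable def bt (p : ℕ) : ℕ := if dcn M f c (pth (dcn M f c) p) then 1 else 0

/-- `a` satisfies the requirements at position `p` of the true path -/
def OKa (a : ℕ → M.C) (p : ℕ) : Prop := LOK M f c a (cont p (bt M f c p))

variable {M f c}

theorem reqOK_RV (h : ℕ → M.C) (r : Req) : reqOK M f c h r ↔ RV M f c r.1 (r.2.map h) := by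
  refine exists_congr fun u => and_congr ?_ Iff.rfl
  constructor
  · intro H i hi
    have hi' : i < r.2.length := by simpa using hi
    rw [H i hi', List.getElem_map, List.getD_eq_getElem _ _ hi']
  · intro H i hi
    have := H i (by simpa using hi)
    rw [this, List.getElem_map, List.getD_eq_getElem _ _ hi]

theorem cmbn_even {X : Type} (a d : ℕ → X) (μ : ℕ) : cmbn a d (2 * μ) = a μ := by
  unfold cmbn
  rw [if_pos (by omega), show 2 * μ / 2 = μ by omega]

theorem cmbn_odd {X : Type} (a d : ℕ → X) (j : ℕ) : cmbn a d (2 * j + 1) = d j := by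
  unfold cmbn
  rw [if_neg (by omega), show (2 * j + 1) / 2 = j by omega]

theorem dbl_map {X : Type} (a d : ℕ → X) (l : List ℕ) : (dbl l).map (cmbn a d) = l.map a := by
  unfold dbl
  rw [List.map_map]
  exact List.map_congr_left fun μ _ => cmbn_even a d μ

theorem reqOK_ren (h : ℕ → M.C) (p : ℕ) (r : Req) :
    reqOK M f c h (r.1, r.2.map (ren p)) ↔ reqOK M f c (h ∘ ren p) r := by
  rw [reqOK_RV, reqOK_RV]
  simp only [List.map_map]

/-- gluing of local assignments -/
theorem Th_glue (n : ℕ) (C : ℕ → List Req) (z : List Req) :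
    Th ((List.range n).flatMap (fun p => renL p (C p)) ++ renL n z) M f c ↔
      ∃ a : ℕ → M.C, (∀ p < n, LOK M f c a (C p)) ∧ LOK M f c a z := by
  have hcomb : ∀ (h : ℕ → M.C) (p : ℕ), h ∘ ren p = cmbn (fun μ => h (2 * μ))
      (fun j => h (2 * Nat.pair p j + 1)) := by
    intro h p
    funext n
    unfold cmbn ren
    simp only [Function.comp]
    split_ifs with h1
    · congr 1; omega
    · rfl
  constructor
  · rintro ⟨h, hh⟩
    refine ⟨fun μ => h (2 * μ), fun p hp => ⟨fun j => h (2 * Nat.pair p j + 1), fun r hr => ?_⟩,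
      ⟨fun j => h (2 * Nat.pair n j + 1), fun r hr => ?_⟩⟩
    · have := hh (r.1, r.2.map (ren p)) (List.mem_append_left _ (List.mem_flatMap.2
        ⟨p, List.mem_range.2 hp, List.mem_map.2 ⟨r, hr, rfl⟩⟩))
      rw [reqOK_ren, hcomb] at this
      exact this
    · have := hh (r.1, r.2.map (ren n)) (List.mem_append_right _ (List.mem_map.2 ⟨r, hr, rfl⟩))
      rw [reqOK_ren, hcomb] at this
      exact this
  · rintro ⟨a, h1, dn, h2⟩
    have h1' : ∀ p, ∃ d : ℕ → M.C, p < n → ∀ r ∈ C p, reqOK M f c (cmbn a d) r := by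
      intro p
      by_cases hp : p < n
      · obtain ⟨d, hd⟩ := h1 p hp
        exact ⟨d, fun _ => hd⟩
      · exact ⟨dn, fun h => absurd h hp⟩
    choose dd hdd using h1'
    let D : ℕ → ℕ → M.C := fun p => if p < n then dd p else dn
    let h : ℕ → M.C := fun m => if m % 2 = 0 then a (m / 2) else
      D (m / 2).unpair.1 (m / 2).unpair.2
    have hh : ∀ p, h ∘ ren p = cmbn a (D p) := by
      intro p
      funext m
      unfold cmbn ren
      simp only [Function.comp, h]
      split_ifs with g1 g2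
      · rfl
      · omega
      · rw [show (2 * Nat.pair p (m / 2) + 1) / 2 = Nat.pair p (m / 2) by omega]
        simp
    refine ⟨h, fun r hr => ?_⟩
    rcases List.mem_append.1 hr with hr | hr
    · obtain ⟨p, hp, hr⟩ := List.mem_flatMap.1 hr
      rw [List.mem_range] at hp
      obtain ⟨r', hr', rfl⟩ := List.mem_map.1 hr
      rw [reqOK_ren, hh]
      simp only [D, if_pos hp]
      exact hdd p hp r' hr'
    · obtain ⟨r', hr', rfl⟩ := List.mem_map.1 hr
      rw [reqOK_ren, hh]
      simp only [D, if_neg (lt_irrefl n)]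
      exact h2 r' hr'

theorem bt_getD (n p : ℕ) (h : p < n) : (pth (dcn M f c) n).getD p 0 = bt M f c p := by
  obtain ⟨h1, h2⟩ := pth_getD (dcn M f c) n p h
  unfold bt
  split_ifs with hD
  · exact h1 hD
  · exact h2 hD

theorem Th_pth (n : ℕ) (z : List Req) :
    Th (rqn (pth (dcn M f c) n) ++ renL (pth (dcn M f c) n).length z) M f c ↔
      ∃ a : ℕ → M.C, (∀ p < n, OKa M f c a p) ∧ LOK M f c a z := by
  unfold rqn
  rw [pth_length]
  rw [Th_glue]
  refine exists_congr fun a => and_congr ?_ Iff.rfl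
  refine forall_congr' fun p => forall_congr' fun hp => ?_
  unfold OKa
  rw [bt_getD n p hp]

theorem LOK_tst (a : ℕ → M.C) (e : List Lit) (v : List ℕ) (k : ℕ) :
    LOK M f c a (tst ((e, v), k)) ↔
      ∃ s : Finset M.C, s.card = k ∧ ∀ y ∈ s, RV M f c e (y :: v.map a) := by
  rw [exists_finset_iff]
  refine exists_congr fun d => ?_
  have e1 : ∀ i, reqOK M f c (cmbn a d) (e, (2 * i + 1) :: dbl v) ↔
      RV M f c e (d i :: v.map a) := by
    intro i
    rw [reqOK_RV]
    simp only [List.map_cons, dbl_map, cmbn_odd]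
  simp only [tst, List.mem_flatMap, List.mem_cons, List.mem_map, List.mem_range]
  constructor
  · intro H j hj
    refine ⟨fun j' hj' => ?_, ?_⟩
    · have := H (neqL, [2 * j' + 1, 2 * j + 1]) ⟨j, hj, Or.inr ⟨j', hj', rfl⟩⟩
      rw [reqOK_neq, cmbn_odd, cmbn_odd] at this
      exact this
    · exact (e1 j).1 (H _ ⟨j, hj, Or.inl rfl⟩)
  · rintro H r ⟨j, hj, rfl | ⟨j', hj', rfl⟩⟩
    · exact (e1 j).2 (H j hj).2
    · rw [reqOK_neq, cmbn_odd, cmbn_odd]
      exact (H j hj).1 j' hj'

theorem dcn_eq_even (τ : List ℕ) (ν : ℕ) (h : τ.length = 2 * ν) : dcn M f c τ ↔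
    (cnn ν ∧ Th (rqn τ ++ renL τ.length (tst ((nE ν, nV ν), nK ν))) M f c ∧
      ¬ Th (rqn τ ++ renL τ.length (tst ((nE ν, nV ν), nK ν + 1))) M f c) := by
  have h2 : τ.length / 2 = ν := by omega
  have h0 : τ.length % 2 = 0 := by omega
  unfold dcn
  rw [h2]
  simp only [h0, true_and, not_true_eq_false, false_and, or_false]

theorem dcn_eq_odd (τ : List ℕ) (t : ℕ) (h : τ.length = 2 * t + 1) : dcn M f c τ ↔
    Th (rqn τ ++ renL τ.length (fcz t)) M f c := by
  have h2 : τ.length / 2 = t := by omega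
  have h0 : ¬ τ.length % 2 = 0 := by omega
  unfold dcn
  rw [h2]
  simp only [h0, false_and, not_false_eq_true, true_and, false_or]

theorem dcn_even (ν : ℕ) : dcn M f c (pth (dcn M f c) (2 * ν)) ↔
    (cnn ν ∧ (∃ a : ℕ → M.C, (∀ p < 2 * ν, OKa M f c a p) ∧
      LOK M f c a (tst ((nE ν, nV ν), nK ν))) ∧
      ¬ ∃ a : ℕ → M.C, (∀ p < 2 * ν, OKa M f c a p) ∧
      LOK M f c a (tst ((nE ν, nV ν), nK ν + 1))) := by
  rw [← Th_pth, ← Th_pth]
  exact dcn_eq_even _ ν (pth_length _ _)

theorem dcn_odd (t : ℕ) : dcn M f c (pth (dcn M f c) (2 * t + 1)) ↔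
    ∃ a : ℕ → M.C, (∀ p < 2 * t + 1, OKa M f c a p) ∧ LOK M f c a (fcz t) := by
  rw [← Th_pth]
  exact dcn_eq_odd _ t (pth_length _ _)

theorem bt_iff (p : ℕ) : bt M f c p = 1 ↔ dcn M f c (pth (dcn M f c) p) := by
  unfold bt
  split_ifs with hD <;> simp [hD]

theorem bt_zero (p : ℕ) (h : ¬ dcn M f c (pth (dcn M f c) p)) : bt M f c p = 0 := if_neg h

/-- valid names -/
theorem OKa_even_valid (a : ℕ → M.C) (ν : ℕ) (hv : bt M f c (2 * ν) = 1) : OKa M f c a (2 * ν) ↔
    (RV M f c (nE ν) (a ν :: (nV ν).map a) ∧ ∀ ν' < ν, sbn ν' ν → a ν' ≠ a ν) := by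
  unfold OKa cont
  rw [hv, if_pos (by omega), if_pos rfl, show 2 * ν / 2 = ν by omega]
  constructor
  · rintro ⟨d, H⟩
    constructor
    · have := H _ (List.mem_cons_self)
      rw [reqOK_RV] at this
      simp only [List.map_cons, dbl_map, cmbn_even] at this
      exact this
    · intro ν' hν' hsb
      have := H (neqL, [2 * ν', 2 * ν]) (List.mem_cons_of_mem _ (List.mem_flatMap.2
        ⟨ν', List.mem_range.2 hν', by simp [hsb]⟩))
      rwa [reqOK_neq, cmbn_even, cmbn_even] at this
  · rintro ⟨h1, h2⟩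
    refine ⟨a, fun r hr => ?_⟩
    rcases List.mem_cons.1 hr with rfl | hr
    · rw [reqOK_RV]
      simp only [List.map_cons, dbl_map, cmbn_even]
      exact h1
    · obtain ⟨ν', hν', hr⟩ := List.mem_flatMap.1 hr
      rw [List.mem_range] at hν'
      split_ifs at hr with h3
      · rw [List.mem_singleton] at hr
        subst hr
        rw [reqOK_neq, cmbn_even, cmbn_even]
        exact h2 ν' hν' h3
      · simp at hr

theorem OKa_even_invalid (a : ℕ → M.C) (ν : ℕ) (hv : ¬ bt M f c (2 * ν) = 1) :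
    OKa M f c a (2 * ν) ↔ a ν = f 0 := by
  unfold OKa cont
  rw [if_pos (by omega), if_neg hv, show 2 * ν / 2 = ν by omega]
  constructor
  · rintro ⟨d, H⟩
    have := H _ (List.mem_singleton_self _)
    rwa [reqOK_eqz, cmbn_even] at this
  · intro h
    refine ⟨a, fun r hr => ?_⟩
    rw [List.mem_singleton] at hr
    subst hr
    rw [reqOK_eqz, cmbn_even]
    exact h

theorem OKa_odd (a : ℕ → M.C) (t : ℕ) :
    OKa M f c a (2 * t + 1) ↔ (bt M f c (2 * t + 1) = 1 → LOK M f c a (fcz t)) := by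
  unfold OKa cont
  rw [if_neg (by omega), show (2 * t + 1) / 2 = t by omega]
  split_ifs with h
  · simp [h]
  · simp only [h, false_imp_iff, iff_true]
    exact ⟨a, fun r hr => by simp at hr⟩

theorem fcz_names (t : ℕ) : ∀ r ∈ fcz t, ∀ μ, 2 * μ ∈ r.2 → μ ≤ t := by
  intro r hr μ hμ
  obtain ⟨r', _, rfl⟩ := List.mem_map.1 hr
  obtain ⟨n, hn, hn'⟩ := List.mem_map.1 hμ
  split_ifs at hn' with h
  · omega
  · push Not at h
    have := h (by omega)
    omega

theorem LOK_congr {a a' : ℕ → M.C} {z : List Req} (H : ∀ r ∈ z, ∀ μ, 2 * μ ∈ r.2 → a μ = a' μ)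
    (h : LOK M f c a z) : LOK M f c a' z := by
  obtain ⟨d, hd⟩ := h
  refine ⟨d, fun r hr => reqOK_congr (fun n hn => ?_) (hd r hr)⟩
  unfold cmbn
  split_ifs with h0
  · refine H r hr _ ?_
    rwa [show 2 * (n / 2) = n by omega]
  · rfl

theorem cnn_of_bt (ν : ℕ) (h : bt M f c (2 * ν) = 1) : cnn ν := ((dcn_even ν).1 ((bt_iff _).1 h)).1

theorem OKa_congr {a a' : ℕ → M.C} {p : ℕ} (H : ∀ μ ≤ p / 2, a μ = a' μ)
    (hp : OKa M f c a p) : OKa M f c a' p := by
  rcases Nat.even_or_odd' p with ⟨ν, rfl | rfl⟩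
  · have e : ∀ μ ≤ ν, a μ = a' μ := fun μ hμ => H μ (by omega)
    by_cases hv : bt M f c (2 * ν) = 1
    · rw [OKa_even_valid _ _ hv] at hp ⊢
      have hm : (nV ν).map a = (nV ν).map a' := List.map_congr_left fun μ hμ =>
        e μ ((cnn_of_bt ν hv).2.2 μ hμ).le
      rw [← hm, ← e ν le_rfl]
      refine ⟨hp.1, fun ν' hν' hs => ?_⟩
      rw [← e ν' hν'.le]
      exact hp.2 ν' hν' hs
    · rw [OKa_even_invalid _ _ hv] at hp ⊢
      rw [← e ν le_rfl]
      exact hp
  · rw [OKa_odd] at hp ⊢
    intro h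
    refine LOK_congr (fun r hr μ hμ => H μ ?_) (hp h)
    have := fcz_names ν r hr μ hμ
    omega

/-- a new solution for the name `ν` -/
theorem new_solution2 (a : ℕ → M.C) {ν : ℕ} (hc : cnn ν) (Q : M.C → Prop)
    (hs : ∃ s : Finset M.C, s.card = nK ν ∧ ∀ y ∈ s, Q y) :
    ∃ y, Q y ∧ ∀ ν' < ν, sbn ν' ν → a ν' ≠ y := by
  classical
  obtain ⟨s, hs, hQ⟩ := hs
  by_contra hcon
  push Not at hcon
  set V := (Finset.range ν).filter (fun ν' => sbn ν' ν) with hV
  have hsub : s ⊆ V.image a := by
    intro y hy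
    obtain ⟨ν', a1, b, d⟩ := hcon y (hQ y hy)
    exact Finset.mem_image.2 ⟨ν', by simp [hV, a1, b], d⟩
  have hle : s.card ≤ V.card := (Finset.card_le_card hsub).trans Finset.card_image_le
  have heq : ∀ x y : ℕ, nE x = nE y → nV x = nV y → nK x = nK y → nS x = nS y → nI x = nI y →
      nn x = nn y := by
    intro x y h1 h2 h3 h4 h5
    exact Prod.ext h1 (Prod.ext h2 (Prod.ext h3 (Prod.ext h5 h4)))
  have hlt : V.card < nK ν := by
    have hmaps : ∀ ν' ∈ V, nI ν' ∈ (Finset.range (nK ν)).erase (nI ν) := by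
      intro ν' hν'
      simp only [hV, Finset.mem_filter, Finset.mem_range] at hν'
      obtain ⟨a1, b1, b2, b3, b4, b5, b6⟩ := hν'
      rw [Finset.mem_erase, Finset.mem_range]
      refine ⟨fun hh => ?_, ?_⟩
      · have : nn ν' = nn ν := heq _ _ b3 b4 b5 b6 hh
        have e1 := b1
        have e2 := hc.1
        rw [this, e2] at e1
        omega
      · rw [← b5]; exact b2
    have hinj : Set.InjOn nI (V : Set ℕ) := by
      intro x hx y hy hxy
      simp only [hV, Finset.coe_filter, Finset.mem_range, Set.mem_ofPred_eq] at hx hy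
      obtain ⟨_, a1, a2, a3, a4, a5, a6⟩ := hx
      obtain ⟨_, b1, b2, b3, b4, b5, b6⟩ := hy
      have : nn x = nn y := heq _ _ (a3.trans b3.symm) (a4.trans b4.symm) (a5.trans b5.symm)
        (a6.trans b6.symm) hxy
      rw [← a1, ← b1, this]
    have := Finset.card_le_card_of_injOn _ hmaps hinj
    rw [Finset.card_erase_of_mem (Finset.mem_range.2 hc.2.1), Finset.card_range] at this
    have := hc.2.1
    omega
  omega

theorem partial_exists2 : ∀ n, ∃ a : ℕ → M.C, ∀ p < n, OKa M f c a p
  | 0 => ⟨fun _ => f 0, fun p hp => by omega⟩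
  | n + 1 => by
      classical
      obtain ⟨h, hh⟩ := partial_exists2 n
      rcases Nat.even_or_odd' n with ⟨ν, rfl | rfl⟩
      · -- even position
        have upd : ∀ (g : ℕ → M.C), (∀ p < 2 * ν, OKa M f c g p) → ∀ y, ∀ p < 2 * ν,
            OKa M f c (Function.update g ν y) p := by
          intro g hg y p hp
          refine OKa_congr (fun μ hμ => ?_) (hg p hp)
          rw [Function.update_of_ne (by omega)]
        by_cases hv : bt M f c (2 * ν) = 1
        · obtain ⟨hc, ⟨g, hg, hs⟩, _⟩ := (dcn_even ν).1 ((bt_iff _).1 hv)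
          rw [LOK_tst] at hs
          obtain ⟨y, h1, h2⟩ := new_solution2 g hc _ hs
          refine ⟨Function.update g ν y, fun p hp => ?_⟩
          rcases Nat.lt_succ_iff_lt_or_eq.1 hp with hp | rfl
          · exact upd g hg y p hp
          · rw [OKa_even_valid _ _ hv, Function.update_self]
            have hm : (nV ν).map (Function.update g ν y) = (nV ν).map g :=
              List.map_congr_left fun μ hμ => by
                have := hc.2.2 μ hμ
                rw [Function.update_of_ne (by omega)]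
            rw [hm]
            refine ⟨h1, fun ν' hν' hs => ?_⟩
            rw [Function.update_of_ne (by omega)]
            exact h2 ν' hν' hs
        · refine ⟨Function.update h ν (f 0), fun p hp => ?_⟩
          rcases Nat.lt_succ_iff_lt_or_eq.1 hp with hp | rfl
          · exact upd h hh _ p hp
          · rw [OKa_even_invalid _ _ hv, Function.update_self]
      · -- odd position
        by_cases hb : bt M f c (2 * ν + 1) = 1
        · obtain ⟨g, hg1, hg2⟩ := (dcn_odd ν).1 ((bt_iff _).1 hb)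
          refine ⟨g, fun p hp => ?_⟩
          rcases Nat.lt_succ_iff_lt_or_eq.1 hp with hp | rfl
          · exact hg1 p hp
          · rw [OKa_odd]
            exact fun _ => hg2
        · refine ⟨h, fun p hp => ?_⟩
          rcases Nat.lt_succ_iff_lt_or_eq.1 hp with hp | rfl
          · exact hh p hp
          · rw [OKa_odd]
            exact fun h => absurd h hb

/-- few solutions for valid names -/
theorem fibre_finite {ν : ℕ} (hv : bt M f c (2 * ν) = 1) {a : ℕ → M.C}
    (ha : ∀ p < 2 * ν, OKa M f c a p) :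
    {y | RV M f c (nE ν) (y :: (nV ν).map a)}.Finite := by
  obtain ⟨_, _, h2⟩ := (dcn_even ν).1 ((bt_iff _).1 hv)
  by_contra hinf
  obtain ⟨t, ht, hc⟩ := Set.Infinite.exists_subset_card_eq hinf (nK ν + 1)
  exact h2 ⟨a, ha, (LOK_tst _ _ _ _).2 ⟨t, hc, fun y hy => ht hy⟩⟩

/-- the possible values of the name `ν` -/
def Vl (M : Str sig) (f c : ℕ → M.C) (ν : ℕ) : Set M.C :=
  {x | ∃ a : ℕ → M.C, (∀ p < 2 * ν + 1, OKa M f c a p) ∧ a ν = x}

theorem Vl_finite (ν : ℕ) : (Vl M f c ν).Finite := by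
  classical
  induction ν using Nat.strong_induction_on with
  | _ ν ih =>
    by_cases hv : bt M f c (2 * ν) = 1
    · -- the finitely many values of the parameters
      have hcn := cnn_of_bt ν hv
      let W : Set (List M.C) := {w | ∃ a : ℕ → M.C, (∀ p < 2 * ν, OKa M f c a p) ∧
        (nV ν).map a = w}
      have hW : W.Finite := by
        have h1 : (Set.pi Set.univ (fun i : Fin ν => Vl M f c i.1)).Finite :=
          Set.Finite.pi fun i => ih i.1 i.2
        refine (h1.image (fun g => (nV ν).map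
          (fun μ => if h : μ < ν then g ⟨μ, h⟩ else f 0))).subset ?_
        rintro w ⟨a, ha, rfl⟩
        refine ⟨fun i => a i.1, ?_, ?_⟩
        · intro i _
          exact ⟨a, fun p hp => ha p (by have := i.2; omega), rfl⟩
        · refine List.map_congr_left fun μ hμ => ?_
          rw [dif_pos (hcn.2.2 μ hμ)]
      have hU : (⋃ w ∈ W, {y | RV M f c (nE ν) (y :: w)}).Finite := by
        refine hW.biUnion fun w hw => ?_
        obtain ⟨a, ha, rfl⟩ := hw
        exact fibre_finite hv ha
      refine hU.subset ?_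
      rintro x ⟨a, ha, rfl⟩
      refine Set.mem_iUnion₂.2 ⟨(nV ν).map a, ⟨a, fun p hp => ha p (by omega), rfl⟩, ?_⟩
      exact ((OKa_even_valid _ _ hv).1 (ha _ (by omega))).1
    · refine (Set.finite_singleton (f 0)).subset ?_
      rintro x ⟨a, ha, rfl⟩
      exact (OKa_even_invalid _ _ hv).1 (ha _ (by omega))

theorem Vl_nonempty (ν : ℕ) : (Vl M f c ν).Nonempty := by
  obtain ⟨a, ha⟩ := partial_exists2 (M := M) (f := f) (c := c) (2 * ν + 1)
  exact ⟨a ν, a, ha, rfl⟩

theorem total_exists2 : ∃ h : ℕ → M.C, ∀ p, OKa M f c h p := by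
  classical
  let _ : TopologicalSpace M.C := ⊥
  have _ : DiscreteTopology M.C := ⟨rfl⟩
  let K : Set (ℕ → M.C) := Set.pi Set.univ (Vl M f c)
  let t : ℕ → Set (ℕ → M.C) := fun n => {h | h ∈ K ∧ ∀ p < n, OKa M f c h p}
  have hclosed : ∀ n, IsClosed {h : ℕ → M.C | ∀ p < n, OKa M f c h p} := by
    intro n
    rw [← isOpen_compl_iff, isOpen_iff_forall_mem_open]
    intro h hh
    refine ⟨Set.pi (Finset.range n : Set ℕ) (fun i => {h i}), ?_, ?_, ?_⟩
    · intro g hg hcon
      apply hh
      intro p hp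
      refine OKa_congr (fun ν hν => ?_) (hcon p hp)
      exact hg ν (Finset.mem_coe.2 (Finset.mem_range.2 (by omega)))
    · exact isOpen_set_pi (Finset.finite_toSet _) (fun i _ => isOpen_discrete _)
    · intro i _
      exact Set.mem_singleton _
  have hK : IsCompact K := isCompact_univ_pi fun ν => (Vl_finite ν).isCompact
  have hKc : IsClosed K := isClosed_set_pi fun ν _ => isClosed_discrete _
  have ht : ∀ n, t n = K ∩ {h : ℕ → M.C | ∀ p < n, OKa M f c h p} := fun n => rfl
  have hne : (⋂ n, t n).Nonempty := by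
    refine IsCompact.nonempty_iInter_of_sequence_nonempty_isCompact_isClosed t ?_ ?_ ?_ ?_
    · intro n h hh
      exact ⟨hh.1, fun p hp => hh.2 p (by omega)⟩
    · intro n
      obtain ⟨h, hh⟩ := partial_exists2 (M := M) (f := f) (c := c) n
      choose s hs using fun ν => Vl_nonempty (M := M) (f := f) (c := c) ν
      refine ⟨fun ν => if 2 * ν < n then h ν else s ν, ?_, ?_⟩
      · intro ν _
        simp only
        split_ifs with hlt
        · exact ⟨h, fun p hp => hh p (by omega), rfl⟩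
        · exact hs ν
      · intro p hp
        refine OKa_congr (fun ν hν => ?_) (hh p hp)
        rw [if_pos (by omega)]
    · rw [ht]
      exact hK.inter_right (hclosed 0)
    · intro n
      rw [ht]
      exact hKc.inter (hclosed n)
  obtain ⟨h, hh⟩ := hne
  refine ⟨h, fun p => ?_⟩
  have := Set.mem_iInter.1 hh (p + 1)
  exact this.2 p (Nat.lt_succ_self p)

/-- the facts are decided -/
theorem fact_iff {a : ℕ → M.C} (ha : ∀ p, OKa M f c a p) (t : ℕ) :
    LOK M f c a (fcz t) ↔ bt M f c (2 * t + 1) = 1 := by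
  constructor
  · intro h
    rw [bt_iff, dcn_odd]
    exact ⟨a, fun p _ => ha p, h⟩
  · exact (OKa_odd a t).1 (ha _)

theorem fcz_eq (z : List Req) (t : ℕ) (h1 : t.unpair.1 = Encodable.encode z)
    (h2 : ∀ r ∈ z, ∀ μ, 2 * μ ∈ r.2 → μ ≤ t) : fcz t = z := by
  unfold fcz
  rw [h1]
  simp only [Encodable.encodek, Option.getD_some]
  conv_rhs => rw [← List.map_id z]
  refine List.map_congr_left fun r hr => ?_
  refine Prod.ext rfl ?_
  simp only [id]
  conv_rhs => rw [← List.map_id r.2]
  refine List.map_congr_left fun n hn => ?_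
  split_ifs with h
  · have := h2 r hr (n / 2) (by rwa [show 2 * (n / 2) = n by omega])
    omega
  · rfl

/-- closure under finite existential fibres -/
def RClosed (M : Str sig) (f c : ℕ → M.C) (X : Set M.C) : Prop :=
  ∀ (e : List Lit) (w : List M.C) (x : M.C), (∀ y ∈ w, y ∈ X) → RV M f c e (x :: w) →
    {y | RV M f c e (y :: w)}.Finite → x ∈ X

theorem RV_eqz (y : M.C) : RV M f c eqzL [y] ↔ y = f 0 := by
  have := reqOK_RV (M := M) (f := f) (c := c) (fun _ => y) (eqzL, [0])
  rw [reqOK_eqz] at this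
  exact this.symm

theorem range_least {a : ℕ → M.C} (ha : ∀ p, OKa M f c a p) {X : Set M.C}
    (hX : RClosed M f c X) (ν : ℕ) : a ν ∈ X := by
  induction ν using Nat.strong_induction_on with
  | _ ν ih =>
    by_cases hv : bt M f c (2 * ν) = 1
    · have hcn := cnn_of_bt ν hv
      refine hX (nE ν) ((nV ν).map a) (a ν) ?_ ((OKa_even_valid _ _ hv).1 (ha _)).1
        (fibre_finite hv fun p _ => ha p)
      intro y hy
      obtain ⟨μ, hμ, rfl⟩ := List.mem_map.1 hy
      exact ih μ (hcn.2.2 μ hμ)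
    · have := (OKa_even_invalid _ _ hv).1 (ha _)
      refine hX eqzL [] (a ν) (by simp) ((RV_eqz _).2 this) ?_
      refine (Set.finite_singleton (f 0)).subset fun y hy => ?_
      exact (RV_eqz _).1 hy

theorem range_closed {a : ℕ → M.C} (ha : ∀ p, OKa M f c a p) : RClosed M f c (Set.range a) := by
  classical
  intro e w x hw hx hfin
  -- names of the parameters
  have hw' : ∃ v : List ℕ, v.map a = w := by
    clear hx hfin
    induction w with
    | nil => exact ⟨[], rfl⟩
    | cons y w ih =>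
        obtain ⟨v, hv⟩ := ih fun z hz => hw z (List.mem_cons_of_mem _ hz)
        obtain ⟨μ, hμ⟩ := hw y List.mem_cons_self
        exact ⟨μ :: v, by rw [List.map_cons, hv, hμ]⟩
  obtain ⟨v, rfl⟩ := hw'
  set S := {y | RV M f c e (y :: v.map a)} with hS
  set k := S.ncard with hk
  obtain ⟨B, hB⟩ := exists_bound id v
  -- the fact which bounds the number of solutions
  set t1 := Nat.pair (Encodable.encode (tst ((e, v), k + 1))) B with ht1
  have hBt : B ≤ t1 := Nat.right_le_pair _ _
  have hf1 : fcz t1 = tst ((e, v), k + 1) := by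
    refine fcz_eq _ _ (by simp [ht1]) ?_
    intro r hr μ hμ
    simp only [tst, List.mem_flatMap, List.mem_cons, List.mem_map, List.mem_range] at hr
    obtain ⟨i, _, rfl | ⟨j, _, rfl⟩⟩ := hr
    · simp only [List.mem_cons] at hμ
      rcases hμ with hμ | hμ
      · omega
      · obtain ⟨μ', h1, h2⟩ := List.mem_map.1 hμ
        have := hB μ' h1
        simp only [id] at this
        omega
    · simp only [List.mem_cons, List.not_mem_nil, or_false] at hμ
      omega
  have hno : ¬ LOK M f c a (fcz t1) := by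
    rw [hf1, LOK_tst]
    rintro ⟨s, hs, hs'⟩
    have : s.card ≤ S.ncard := by
      rw [← Set.ncard_coe_finset]
      exact Set.ncard_le_ncard (fun y hy => hs' y hy) hfin
    omega
  have hno2 : ¬ ∃ a : ℕ → M.C, (∀ p < 2 * t1 + 1, OKa M f c a p) ∧ LOK M f c a (fcz t1) := by
    rw [← dcn_odd, ← bt_iff, ← fact_iff ha]
    exact hno
  -- the names of the solutions
  set s0 := t1 + 1 with hs0
  let g : ℕ → ℕ := fun i => Encodable.encode ((e, v, k, i, s0) : NT)
  have hnn : ∀ i, nn (g i) = (e, v, k, i, s0) := fun i => nn_encode _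
  have hgs : ∀ i, s0 ≤ g i := by
    intro i
    show s0 ≤ Encodable.encode ((e, v, k, i, s0) : NT)
    simp only [Encodable.encode_prod_val]
    refine le_trans ?_ (Nat.right_le_pair _ _)
    refine le_trans ?_ (Nat.right_le_pair _ _)
    refine le_trans ?_ (Nat.right_le_pair _ _)
    exact Nat.right_le_pair _ _
  have hvn : ∀ i < k, bt M f c (2 * g i) = 1 := by
    intro i hi
    rw [bt_iff, dcn_even]
    have e1 : nE (g i) = e := by unfold nE; rw [hnn]
    have e2 : nV (g i) = v := by unfold nV; rw [hnn]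
    have e3 : nK (g i) = k := by unfold nK; rw [hnn]
    have e4 : nI (g i) = i := by unfold nI; rw [hnn]
    have hgi := hgs i
    refine ⟨⟨by rw [hnn], by rw [e3, e4]; exact hi, ?_⟩, ?_, ?_⟩
    · rw [e2]
      intro μ hμ
      have := hB μ hμ
      simp only [id] at this
      omega
    · rw [e1, e2, e3]
      refine ⟨a, fun p _ => ha p, ?_⟩
      rw [LOK_tst]
      exact ⟨hfin.toFinset, (Set.ncard_eq_toFinset_card _ hfin).symm, fun y hy => by
        rw [Set.Finite.mem_toFinset] at hy; exact hy⟩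
    · rw [e1, e2, e3]
      rintro ⟨a', h1, h2⟩
      apply hno2
      refine ⟨a', fun p hp => h1 p (by omega), ?_⟩
      rw [hf1]
      exact h2
  have hsol : ∀ i < k, a (g i) ∈ S := by
    intro i hi
    have := ((OKa_even_valid a (g i) (hvn i hi)).1 (ha _)).1
    have e1 : nE (g i) = e := by unfold nE; rw [hnn]
    have e2 : nV (g i) = v := by unfold nV; rw [hnn]
    rw [e1, e2] at this
    exact this
  have hne : ∀ i < k, ∀ j < k, g i < g j → a (g i) ≠ a (g j) := by
    intro i hi j hj hlt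
    refine ((OKa_even_valid a (g j) (hvn j hj)).1 (ha _)).2 _ hlt ?_
    refine ⟨by rw [hnn], ?_, ?_, ?_, ?_, ?_⟩
    · show (nn (g i)).2.2.2.1 < (nn (g i)).2.2.1
      rw [hnn]; exact hi
    · unfold nE; rw [hnn, hnn]
    · unfold nV; rw [hnn, hnn]
    · unfold nK; rw [hnn, hnn]
    · unfold nS; rw [hnn, hnn]
  have hinj : Set.InjOn (fun i => a (g i)) (Finset.range k : Set ℕ) := by
    intro i hi j hj hij
    simp only [Finset.coe_range, Set.mem_Iio] at hi hj
    rcases lt_trichotomy (g i) (g j) with hlt | heq | hlt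
    · exact absurd hij (hne i hi j hj hlt)
    · have : ((e, v, k, i, s0) : NT) = (e, v, k, j, s0) := Encodable.encode_injective heq
      simpa using this
    · exact absurd hij.symm (hne j hj i hi hlt)
  have hcard : ((Finset.range k).image (fun i => a (g i))).card = k := by
    rw [Finset.card_image_of_injOn hinj, Finset.card_range]
  have hsub : (Finset.range k).image (fun i => a (g i)) ⊆ hfin.toFinset := by
    intro y hy
    obtain ⟨i, hi, rfl⟩ := Finset.mem_image.1 hy
    rw [Set.Finite.mem_toFinset]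
    exact hsol i (Finset.mem_range.1 hi)
  have heq := Finset.eq_of_subset_of_card_le hsub (by
    rw [hcard, hk, Set.ncard_eq_toFinset_card _ hfin])
  have hx' : x ∈ hfin.toFinset := by rw [Set.Finite.mem_toFinset]; exact hx
  rw [← heq] at hx'
  obtain ⟨i, _, hi⟩ := Finset.mem_image.1 hx'
  exact ⟨_, hi⟩

/-- the list coding an atomic fact -/
def fzl (p : ℕ × List ℕ) : List Req := [([(1, p.1, uargs p.2.length)], dbl p.2)]

theorem uargs_prim2 : Primrec uargs := by
  refine Primrec.list_map Primrec.list_range ?_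
  exact (Primrec.sumInr.comp (Primrec.sumInr.comp Primrec.snd))

theorem fzl_prim : Primrec fzl := by
  refine Primrec.list_cons.comp (Primrec.pair ?_ (dbl_prim.comp Primrec.snd)) (Primrec.const [])
  refine Primrec.list_cons.comp ?_ (Primrec.const [])
  exact (Primrec.const 1).pair (Primrec.fst.pair
    (uargs_prim2.comp (Primrec.list_length.comp Primrec.snd)))

theorem LOK_fzl (a : ℕ → M.C) (p : ℕ × List ℕ) :
    LOK M f c a (fzl p) ↔ HoldE M p.1 (p.2.map a) := by
  have e : ∀ d : ℕ → M.C, reqOK M f c (cmbn a d) ([(1, p.1, uargs p.2.length)], dbl p.2) ↔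
      HoldE M p.1 (p.2.map a) := by
    intro d
    have hl : p.2.length = (dbl p.2).length := by simp [dbl]
    rw [hl, reqOK_fact, dbl_map]
    simp
  constructor
  · rintro ⟨d, hd⟩
    exact (e d).1 (hd _ (List.mem_singleton_self _))
  · intro h
    refine ⟨a, fun r hr => ?_⟩
    have : r = ([(1, p.1, uargs p.2.length)], dbl p.2) := List.mem_singleton.1 hr
    rw [this]
    exact (e a).2 h

/-- The main construction: the least closed set has a `Delta_3` numbering. -/
theorem numbering_exists2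
    (h1 : Sg 3 (fun z : List Req => Th z M f c)) (h2 : Sg 3 (fun z : List Req => ¬ Th z M f c)) :
    ∃ h : ℕ → M.C, RClosed M f c (Set.range h) ∧
      (∀ X : Set M.C, RClosed M f c X → ∀ ν, h ν ∈ X) ∧
      Sg 3 (fun p : ℕ × List ℕ => HoldE M p.1 (p.2.map h)) ∧
      Sg 3 (fun p : ℕ × List ℕ => ¬ HoldE M p.1 (p.2.map h)) := by
  obtain ⟨a, ha⟩ := total_exists2 (M := M) (f := f) (c := c)
  obtain ⟨d1, d2⟩ := dcn_Sg h1 h2
  obtain ⟨b1, b2⟩ := pth_Sg d1 d2
  have key : ∀ (p : ℕ × List ℕ) (t : ℕ), t.unpair.1 = Encodable.encode (fzl p) →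
      (∀ ν ∈ p.2, ν ≤ t) → (HoldE M p.1 (p.2.map a) ↔
        dcn M f c (pth (dcn M f c) (2 * t + 1))) := by
    intro p t e1 e2
    have e3 : fcz t = fzl p := by
      refine fcz_eq _ _ e1 ?_
      intro r hr μ hμ
      have : r = ([(1, p.1, uargs p.2.length)], dbl p.2) := List.mem_singleton.1 hr
      subst this
      obtain ⟨μ', h1, h2⟩ := List.mem_map.1 hμ
      have := e2 μ' h1
      omega
    rw [← bt_iff, ← fact_iff ha, e3, LOK_fzl]
  have hex : ∀ p : ℕ × List ℕ, ∃ t : ℕ, t.unpair.1 = Encodable.encode (fzl p) ∧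
      ∀ ν ∈ p.2, ν ≤ t := by
    intro p
    obtain ⟨B, hB⟩ := exists_bound id p.2
    refine ⟨Nat.pair (Encodable.encode (fzl p)) B, by simp, fun ν hν => ?_⟩
    exact ((hB ν hν).le).trans (Nat.right_le_pair _ _)
  have p1 : PrimrecPred (fun x : (ℕ × List ℕ) × ℕ => x.2.unpair.1 = Encodable.encode (fzl x.1)) :=
    Primrec.eq.comp (Primrec.fst.comp (Primrec.unpair.comp Primrec.snd))
      (Primrec.encode.comp (fzl_prim.comp Primrec.fst))
  have p2 : Sg 3 (fun x : (ℕ × List ℕ) × ℕ => ∀ ν ∈ x.1.2, ν ≤ x.2) :=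
    Sg.allMem (P := fun w : ((ℕ × List ℕ) × ℕ) × ℕ => w.2 ≤ w.1.2)
      (Sg.le Primrec.snd (Primrec.snd.comp Primrec.fst)) (Primrec.snd.comp Primrec.fst)
  have p3 : Primrec (fun x : (ℕ × List ℕ) × ℕ => 2 * x.2 + 1) :=
    Primrec.succ.comp (Primrec.nat_mul.comp (Primrec.const 2) Primrec.snd)
  refine ⟨a, range_closed ha, fun X hX => range_least ha hX, ?_, ?_⟩
  · have q := Sg.comp (f := fun x : (ℕ × List ℕ) × ℕ => 2 * x.2 + 1) b1 p3
    refine (Sg.exNat ((Sg.prim p1).and (p2.and q))).congr fun p => ?_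
    constructor
    · rintro ⟨t, e1, e2, e3⟩
      exact (key p t e1 e2).2 e3
    · intro hp
      obtain ⟨t, e1, e2⟩ := hex p
      exact ⟨t, e1, e2, (key p t e1 e2).1 hp⟩
  · have q := Sg.comp (f := fun x : (ℕ × List ℕ) × ℕ => 2 * x.2 + 1) b2 p3
    refine (Sg.exNat ((Sg.prim p1).and (p2.and q))).congr fun p => ?_
    constructor
    · rintro ⟨t, e1, e2, e3⟩
      exact fun hp => e3 ((key p t e1 e2).1 hp)
    · intro hp
      obtain ⟨t, e1, e2⟩ := hex p
      exact ⟨t, e1, e2, fun hd => hp ((key p t e1 e2).2 hd)⟩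

end

end FD55
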