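import Mathlib
import Pool.Agent.Lib.MP_fd2900_lc.H55.Number2
import Pool.Agent.Lib.MP_fd2900_lc.H55.Final

/-!
Final assembly: the iterated existential closure.
-/

namespace FD55

open FirstOrder FirstOrder.Language

variable {sig : ℕ → Option ℕ}

/-- `C` contains every element which is existentially algebraic over `C` -/
def ExClosed (sig : ℕ → Option ℕ) {M : Type} [(Lg sig).Structure M] (C : Set M) : Prop :=
  ∀ x, ExAlg sig C x → x ∈ C

/-- the least existentially closed set containing `S` -/
def ecl (sig : ℕ → Option ℕ) {M : Type} [(Lg sig).Structure M] (S : Set M) : Set M :=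
  ⋂₀ {C | S ⊆ C ∧ ExClosed sig C}

theorem exAlg_of_RV {M : Str sig} (f c : ℕ → M.C) {C : Set M.C} (hf : ∀ a, f a ∈ C)
    (hc : ∀ a, c a ∈ C) {x : M.C} {e : List Lit} {w : List M.C} (hw : ∀ y ∈ w, y ∈ C)
    (hx : RV M f c e (x :: w)) (hfin : {y | RV M f c e (y :: w)}.Finite) : ExAlg sig C x := by
  classical
  have b1 : ∀ y : Lit, ∃ B, ∀ v ∈ y.2.2, ubd v < B := fun y => exists_bound ubd _
  choose b1 hb1 using b1
  obtain ⟨n, hn⟩ := exists_bound b1 e
  -- the map of variables
  let V : Var → (C ⊕ Unit) ⊕ Fin (n + 1) := fun v => match v with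
    | Sum.inl a => Sum.inl (Sum.inl ⟨f a, hf a⟩)
    | Sum.inr (Sum.inl a) => Sum.inl (Sum.inl ⟨c a, hc a⟩)
    | Sum.inr (Sum.inr 0) => Sum.inl (Sum.inr ())
    | Sum.inr (Sum.inr (j + 1)) =>
        if h : j < w.length then Sum.inl (Sum.inl ⟨w[j], hw _ (List.getElem_mem h)⟩)
        else if h : j < n + 1 then Sum.inr ⟨j, h⟩ else Sum.inl (Sum.inr ())
  obtain ⟨θ, hqf, hθ⟩ := lits_qf (sig := sig) (e.map (fun y => (y.1, y.2.1, y.2.2.map V)))
  have key : ∀ y : M.C, RV M f c e (y :: w) ↔ ∃ z : Fin (n + 1) → M.C,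
      Formula.Realize (L := Lg sig) θ
        (Sum.elim (Sum.elim (fun a : C => (a : M.C)) fun _ : Unit => y) z) := by
    intro y
    have hval : ∀ (u : ℕ → M.C) (z : Fin (n + 1) → M.C),
        (∀ i (h : i < (y :: w).length), u i = (y :: w)[i]) →
        (∀ j : Fin (n + 1), w.length ≤ j.1 → z j = u (j.1 + 1)) → ∀ q ∈ e, ∀ v ∈ q.2.2,
        Sum.elim (Sum.elim (fun a : C => (a : M.C)) fun _ : Unit => y) z (V v) = env f c u v := by
      intro u z h0 hz q hq v hv
      rcases v with a | a | a
      · rfl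
      · rfl
      · rcases a with _ | j
        · exact (h0 0 (by simp)).symm
        · have h1 := hb1 q _ hv
          have h2 := hn q hq
          have h3 : ubd (Sum.inr (Sum.inr (j + 1))) = j + 1 + 1 := rfl
          have hj : j < n + 1 := by omega
          show Sum.elim (Sum.elim (fun a : C => (a : M.C)) fun _ : Unit => y) z
            (if h : j < w.length then Sum.inl (Sum.inl ⟨w[j], hw _ (List.getElem_mem h)⟩)
              else if h : j < n + 1 then Sum.inr ⟨j, h⟩ else Sum.inl (Sum.inr ())) = u (j + 1)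
          by_cases hjw : j < w.length
          · rw [dif_pos hjw]
            exact (h0 (j + 1) (by simpa using hjw)).symm
          · rw [dif_neg hjw, dif_pos hj]
            exact hz ⟨j, hj⟩ (by simpa using hjw)
    have hlit : ∀ (u : ℕ → M.C) (z : Fin (n + 1) → M.C),
        (∀ i (h : i < (y :: w).length), u i = (y :: w)[i]) →
        (∀ j : Fin (n + 1), w.length ≤ j.1 → z j = u (j.1 + 1)) →
        ((∀ q ∈ e, litOK M f c u q) ↔ Formula.Realize (L := Lg sig) θ
        (Sum.elim (Sum.elim (fun a : C => (a : M.C)) fun _ : Unit => y) z)) := by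
      intro u z h0 hz
      rw [hθ]
      simp only [List.mem_map, forall_exists_index, and_imp, forall_apply_eq_imp_iff₂]
      refine forall_congr' fun q => forall_congr' fun hq => ?_
      unfold litOK litA
      simp only [List.map_map]
      have : q.2.2.map ((Sum.elim (Sum.elim (fun a : C => (a : M.C)) fun _ : Unit => y) z) ∘ V) =
          q.2.2.map (env f c u) := List.map_congr_left fun v hv => hval u z h0 hz q hq v hv
      rw [this]
    constructor
    · rintro ⟨u, h0, h1⟩
      exact ⟨fun j => u (j.1 + 1), (hlit u _ h0 (fun _ _ => rfl)).1 h1⟩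
    · rintro ⟨z, hz⟩
      let u : ℕ → M.C := fun i => if h : i < (y :: w).length then (y :: w)[i] else
        if h : i - 1 < n + 1 then z ⟨i - 1, h⟩ else y
      have hu1 : ∀ i (h : i < (y :: w).length), u i = (y :: w)[i] := fun i h => dif_pos h
      refine ⟨u, hu1, ?_⟩
      refine (hlit _ z hu1 fun j hj => ?_).2 hz
      show z j = if h : j.1 + 1 < (y :: w).length then (y :: w)[j.1 + 1] else
        if h : j.1 + 1 - 1 < n + 1 then z ⟨j.1 + 1 - 1, h⟩ else y
      rw [dif_neg (by simpa using hj),
        dif_pos (show j.1 + 1 - 1 < n + 1 by have := j.2; omega)]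
      rfl
  refine ⟨n + 1, θ, hqf, (key x).1 hx, ?_⟩
  refine hfin.subset fun y hy => ?_
  exact (key y).2 hy

theorem RV_of_exAlg {M : Str sig} (f c : ℕ → M.C) {C : Set M.C} {x : M.C} (h : ExAlg sig C x) :
    ∃ (e : List Lit) (w : List M.C), (∀ y ∈ w, y ∈ C) ∧ RV M f c e (x :: w) ∧
      {y | RV M f c e (y :: w)}.Finite := by
  classical
  obtain ⟨n, θ, hqf, ⟨z, hz⟩, hfin⟩ := h
  obtain ⟨⟨D, hD⟩, _⟩ := dnf θ hqf
  obtain ⟨Λ, hΛ, hlit⟩ := (hD M _).1 hz
  let prm : (C ⊕ Unit) ⊕ Fin n → List C := fun v => match v with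
    | Sum.inl (Sum.inl a) => [a]
    | _ => []
  let P : List C := Λ.flatMap fun q => q.2.2.flatMap prm
  let w : List M.C := P.map Subtype.val
  have hwl : w.length = P.length := List.length_map _
  let V : (C ⊕ Unit) ⊕ Fin n → Var := Sum.elim (Sum.elim (fun a => Sum.inr (Sum.inr (P.idxOf a + 1)))
    (fun _ => Sum.inr (Sum.inr 0))) (fun j => Sum.inr (Sum.inr (P.length + j.1 + 1)))
  let e : List Lit := Λ.map (fun x => (x.1, x.2.1, x.2.2.map V))
  have hV : ∀ (u : ℕ → M.C) (y : M.C), (∀ i (h : i < (y :: w).length), u i = (y :: w)[i]) →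
      ∀ q ∈ Λ, (q.2.2.map V).map (env f c u) = q.2.2.map
        (Sum.elim (Sum.elim (fun a : C => (a : M.C)) fun _ : Unit => y)
        (fun j : Fin n => u (P.length + j.1 + 1))) := by
    intro u y hu q hq
    rw [List.map_map]
    refine List.map_congr_left fun v hv => ?_
    rcases v with (a | a) | j
    · have haP : a ∈ P := List.mem_flatMap.2 ⟨q, hq, List.mem_flatMap.2
        ⟨Sum.inl (Sum.inl a), hv, List.mem_singleton_self a⟩⟩
      have hi : P.idxOf a < P.length := List.idxOf_lt_length_iff.2 haP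
      show u (P.idxOf a + 1) = (a : M.C)
      rw [hu (P.idxOf a + 1) (by simp [w, hi])]
      simp [w]
    · show u 0 = y
      rw [hu 0 (by simp)]
      rfl
    · rfl
  have hsol : ∀ y, RV M f c e (y :: w) ↔ ∃ u : ℕ → M.C,
      (∀ i (h : i < (y :: w).length), u i = (y :: w)[i]) ∧ ∀ x ∈ Λ,
      litA M (Sum.elim (Sum.elim (fun a : C => (a : M.C)) fun _ : Unit => y)
        (fun j : Fin n => u (P.length + j.1 + 1))) x := by
    intro y
    refine exists_congr fun u => ?_
    constructor
    · rintro ⟨h0, h1⟩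
      refine ⟨h0, fun x hx => ?_⟩
      have := h1 _ (List.mem_map.2 ⟨x, hx, rfl⟩)
      unfold litOK at this
      simp only [hV u y h0 x hx] at this
      exact this
    · rintro ⟨h0, h1⟩
      refine ⟨h0, fun x hx => ?_⟩
      obtain ⟨x', hx', rfl⟩ := List.mem_map.1 hx
      have := h1 x' hx'
      unfold litOK
      simp only [hV u y h0 x' hx']
      exact this
  refine ⟨e, w, ?_, (hsol x).2 ⟨fun i => if h : i < (x :: w).length then (x :: w)[i] else
    if h : i - (P.length + 1) < n then z ⟨i - (P.length + 1), h⟩ else x, ?_, ?_⟩, ?_⟩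
  · intro y hy
    obtain ⟨a, _, rfl⟩ := List.mem_map.1 hy
    exact a.2
  · intro i hi
    exact dif_pos hi
  · intro q hq
    have := hlit q hq
    have e1 : (fun j : Fin n => (fun i => if h : i < (x :: w).length then (x :: w)[i] else
        if h : i - (P.length + 1) < n then z ⟨i - (P.length + 1), h⟩ else x)
        (P.length + j.1 + 1)) = z := by
      funext j
      have h1 : ¬ P.length + j.1 + 1 < (x :: w).length := by
        rw [List.length_cons, hwl]; omega
      have h2 : P.length + j.1 + 1 - (P.length + 1) = j.1 := by omega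
      simp only
      rw [dif_neg h1, dif_pos (by rw [h2]; exact j.2)]
      congr 1
      exact Fin.ext h2
    rw [e1]
    exact this
  · refine hfin.subset fun y hy => ?_
    obtain ⟨u, h0, h1⟩ := (hsol y).1 hy
    exact ⟨fun j => u (P.length + j.1 + 1), (hD M _).2 ⟨Λ, hΛ, h1⟩⟩

theorem RV_var {M : Str sig} (f c : ℕ → M.C) (v : Var) (q y : M.C)
    (hv : ∀ u : ℕ → M.C, env f c u v = q) :
    RV M f c [(1, 0, [Sum.inr (Sum.inr 0), v])] [y] ↔ y = q := by
  unfold RV
  constructor
  · rintro ⟨u, h1, h2⟩
    have a0 := h1 0 (by simp)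
    have := h2 _ (List.mem_singleton_self _)
    unfold litOK at this
    simp only [List.map_cons, List.map_nil, hv] at this
    rw [holdE_pair] at this
    have h3 := this.2 trivial
    rw [← h3]
    exact a0.symm
  · intro hy
    refine ⟨fun _ => y, ?_, ?_⟩
    · intro i hi
      simp only [List.length_cons, List.length_nil] at hi
      interval_cases i
      simp
    · intro x hx
      rw [List.mem_singleton] at hx
      subst hx
      unfold litOK
      simp only [List.map_cons, List.map_nil, hv]
      rw [holdE_pair]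
      simp only [iff_true]
      exact hy

theorem rclosed_sub {M : Str sig} {f c : ℕ → M.C} {X : Set M.C} (hX : RClosed M f c X) :
    (∀ i, f i ∈ X) ∧ (∀ i, c i ∈ X) := by
  constructor
  · intro i
    refine hX _ [] (f i) (by simp) ((RV_var f c (Sum.inl i) (f i) (f i) fun u => rfl).2 rfl) ?_
    refine (Set.finite_singleton (f i)).subset fun y hy => ?_
    exact (RV_var f c (Sum.inl i) (f i) y fun u => rfl).1 hy
  · intro i
    refine hX _ [] (c i) (by simp)
      ((RV_var f c (Sum.inr (Sum.inl i)) (c i) (c i) fun u => rfl).2 rfl) ?_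
    refine (Set.finite_singleton (c i)).subset fun y hy => ?_
    exact (RV_var f c (Sum.inr (Sum.inl i)) (c i) y fun u => rfl).1 hy

theorem rclosed_exClosed {M : Str sig} {f c : ℕ → M.C} {X : Set M.C} (hX : RClosed M f c X) :
    ExClosed sig X := by
  intro x hx
  obtain ⟨e, w, h1, h2, h3⟩ := RV_of_exAlg f c hx
  exact hX e w x h1 h2 h3

theorem exClosed_rclosed {M : Str sig} {f c : ℕ → M.C} {X : Set M.C} (hf : ∀ a, f a ∈ X)
    (hc : ∀ a, c a ∈ X) (hX : ExClosed sig X) : RClosed M f c X :=
  fun _ _ x hw hx hfin => hX x (exAlg_of_RV f c hf hc hw hx hfin)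

/-- infinite existentially closed sets are existentially closed substructures -/
theorem ec_of_closed {M : Str sig} (hmin : MinimalStr M) {C : Set M.C} (hC : ExClosed sig C)
    (hinf : C.Infinite) : ∀ (n : ℕ) (θ : (Lg sig).Formula (C ⊕ Fin n)), θ.IsQF →
    (∃ z : Fin n → M.C, θ.Realize (Sum.elim (fun a => (a : M.C)) z)) →
    ∃ z : Fin n → C, θ.Realize (Sum.elim (fun a => (a : M.C)) (fun i => (z i : M.C)))
  | 0, θ, _, ⟨z, hz⟩ => by
      refine ⟨fun i => Fin.elim0 i, ?_⟩
      have : z = fun i : Fin 0 => (((fun i => Fin.elim0 i : Fin 0 → C) i : C) : M.C) :=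
        funext fun i => Fin.elim0 i
      rw [← this]
      exact hz
  | n + 1, θ, hθ, ⟨z0, hz0⟩ => by
      classical
      let g : C ⊕ Fin (n + 1) → (C ⊕ Unit) ⊕ Fin n :=
        Sum.elim (fun a => Sum.inl (Sum.inl a)) (Fin.cases (Sum.inl (Sum.inr ())) Sum.inr)
      have hval : ∀ (y : M.C) (z : Fin n → M.C),
          (Sum.elim (Sum.elim (fun a : C => (a : M.C)) fun _ : Unit => y) z) ∘ g =
          Sum.elim (fun a : C => (a : M.C)) (Fin.cons y z : Fin (n + 1) → M.C) := by
        intro y z
        funext t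
        rcases t with a | t
        · rfl
        · refine Fin.cases ?_ (fun j => ?_) t
          · rfl
          · rfl
      have hθ1 : BoundedFormula.IsQF (θ.relabel g) := BoundedFormula.IsQF.relabel hθ _
      have hr : ∀ (y : M.C) (z : Fin n → M.C), (θ.relabel g).Realize
          (Sum.elim (Sum.elim (fun a : C => (a : M.C)) fun _ : Unit => y) z) ↔
          θ.Realize (Sum.elim (fun a => (a : M.C)) (Fin.cons y z : Fin (n + 1) → M.C)) := by
        intro y z
        rw [Formula.realize_relabel, hval]
      have hcons : (Fin.cons (z0 0) (Fin.tail z0) : Fin (n + 1) → M.C) = z0 :=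
        Fin.cons_self_tail z0
      set D : Set M.C := {y | ∃ z : Fin n → M.C, (θ.relabel g).Realize
          (Sum.elim (Sum.elim (fun a : C => (a : M.C)) fun _ : Unit => y) z)} with hD
      have hD0 : z0 0 ∈ D := ⟨Fin.tail z0, (hr _ _).2 (by rw [hcons]; exact hz0)⟩
      have hx : ∃ x : C, (x : M.C) ∈ D := by
        by_cases hfin : D.Finite
        · exact ⟨⟨z0 0, hC _ ⟨n, θ.relabel g, hθ1, hD0, hfin⟩⟩, hD0⟩
        · have hdef : DefP (sig := sig) (fun N (v : C ⊕ Unit → N.C) => ∃ z : Fin n → N.C,
              (θ.relabel g).Realize (Sum.elim v z)) := by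
            refine ⟨(θ.relabel g).iExs (Fin n), fun N v => ?_⟩
            rw [Formula.realize_iExs]
          have := (hmin.def hdef (fun a : C => (a : M.C))).resolve_left hfin
          by_contra hcon
          push Not at hcon
          refine hinf (this.subset fun x hx => ?_)
          exact hcon ⟨x, hx⟩
      obtain ⟨x, z1, hz1⟩ := hx
      rw [hr] at hz1
      let g2 : C ⊕ Fin (n + 1) → C ⊕ Fin n := Sum.elim Sum.inl (Fin.cases (Sum.inl x) Sum.inr)
      have hval2 : ∀ z : Fin n → M.C, (Sum.elim (fun a : C => (a : M.C)) z) ∘ g2 =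
          Sum.elim (fun a : C => (a : M.C)) (Fin.cons (x : M.C) z : Fin (n + 1) → M.C) := by
        intro z
        funext t
        rcases t with a | t
        · rfl
        · refine Fin.cases ?_ (fun j => ?_) t
          · rfl
          · rfl
      obtain ⟨z2, hz2⟩ := ec_of_closed hmin hC hinf n (θ.relabel g2)
        (BoundedFormula.IsQF.relabel hθ _) ⟨z1, by
          rw [Formula.realize_relabel, hval2]; exact hz1⟩
      rw [Formula.realize_relabel, hval2] at hz2
      refine ⟨Fin.cons x z2, ?_⟩
      have : (fun i : Fin (n + 1) => (((Fin.cons x z2 : Fin (n + 1) → C) i : C) : M.C)) =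
          Fin.cons (x : M.C) (fun i => (z2 i : M.C)) := by
        funext t
        refine Fin.cases ?_ (fun j => ?_) t
        · rfl
        · rfl
      rw [this]
      exact hz2

end FD55
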