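import Mathlib
import Pool.Agent.Lib.MP_fd2900_lc.H55.Final2
import Pool.Agent.Lib.MP_fd2900_lc.H55.AlgTrans

/-!
The main theorem for the existential closure of finite and independent sets.
-/

namespace FD55

open FirstOrder FirstOrder.Language

variable {sig : ℕ → Option ℕ}

/-- The existential closure of a computable model, a finite set and a sequentially independent
sequence has a numbering with `Delta_3` atomic facts. -/
theorem core2 {T : (Lg sig).Theory} (hT : StronglyMinimal T)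
    (A : (Lg sig).Structure ℕ) (hA : ComputablePred (fun p : ℕ × List ℕ => Holds sig A p.1 p.2))
    (M : Str sig) [hM : T.Model M.C] (FM : (NS A).C ↪ₑ[Lg sig] M.C)
    (F : Set M.C) (hF : F.Finite) (x0 : M.C) (hx0 : x0 = FM (show (NS A).C from (0 : ℕ)))
    (d : ℕ → M.C) (tl : ℕ → ℕ) (htl : Primrec tl)
    (hd : ∀ j, (tl j = 2 ∧ ¬ Alg sig (Set.range FM ∪ F ∪ {x | ∃ j' < j, d j' = x}) (d j)) ∨
      (tl j = 0 ∧ d j = x0)) :
    ∃ h : ℕ → M.C, Set.range h = ecl sig (Set.range FM ∪ F ∪ Set.range d) ∧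
      Sg 3 (fun p : ℕ × List ℕ => HoldE M p.1 (p.2.map h)) ∧
      Sg 3 (fun p : ℕ × List ℕ => ¬ HoldE M p.1 (p.2.map h)) := by
  classical
  subst hx0
  set f : ℕ → M.C := fun a : ℕ => FM (show (NS A).C from a) with hf
  have hrange : ∀ a, f a ∈ Set.range FM := fun a => ⟨(show (NS A).C from a), rfl⟩
  set LF := hF.toFinset.toList with hLF
  set n0 := LF.length with hn0
  have hLFmem : ∀ x, x ∈ LF ↔ x ∈ F := fun x => by
    rw [hLF, Finset.mem_toList, Set.Finite.mem_toFinset]
  let c : ℕ → M.C := fun i => if i < n0 then LF.getD i (f 0) else d (i - n0)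
  have hclt : ∀ i < n0, c i ∈ F := by
    intro i hi
    simp only [c, if_pos hi]
    rw [List.getD_eq_getElem _ _ hi]
    exact (hLFmem _).1 (List.getElem_mem hi)
  have hcge : ∀ i, n0 ≤ i → c i = d (i - n0) := by
    intro i hi
    simp only [c, if_neg (show ¬ i < n0 by omega)]
  have hcC : ∀ i, c i ∈ Set.range FM ∪ F ∪ Set.range d := by
    intro i
    by_cases hi : i < n0
    · exact Or.inl (Or.inr (hclt i hi))
    · rw [hcge i (by omega)]
      exact Or.inr ⟨_, rfl⟩
  have hc : ∀ i, n0 ≤ i → (tl (i - n0) = 2 ∧ NonAlg M f c i) ∨ (tl (i - n0) = 0 ∧ c i = f 0) := by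
    intro i hi
    rcases hd (i - n0) with ⟨h1, h2⟩ | ⟨h1, h2⟩
    · left
      refine ⟨h1, ?_⟩
      rw [← hcge i hi] at h2
      refine nonAlg_of f c i (C := Set.range FM ∪ F ∪ {x | ∃ j' < i - n0, d j' = x})
        (fun a => Or.inl (Or.inl (hrange a))) ?_ h2
      intro j
      simp only [trunc]
      split_ifs with hj
      · by_cases hj0 : j < n0
        · exact Or.inl (Or.inr (hclt j hj0))
        · rw [hcge j (by omega)]
          exact Or.inr ⟨j - n0, by omega, rfl⟩
      · exact Or.inl (Or.inl (hrange 0))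
    · right
      exact ⟨h1, by rw [hcge i hi, h2]⟩
  have htl' : Primrec (fun i : ℕ => tl (i - n0)) :=
    htl.comp (Primrec.nat_sub.comp Primrec.id (Primrec.const n0))
  obtain ⟨t1, t2⟩ := truth_tuple_Sg hT FM c n0 (fun i => tl (i - n0)) htl' hc
    (Θ := fun z => Th z) Th_def (Th_Sg hA) CB_prim CB_ex CB_mono (CB_spec f c)
  obtain ⟨h, h1, h2, h3, h4⟩ := numbering_exists2 t1 t2
  obtain ⟨r1, r2⟩ := rclosed_sub h1
  refine ⟨h, Set.Subset.antisymm ?_ ?_, h3, h4⟩
  · rintro _ ⟨ν, rfl⟩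
    refine Set.mem_sInter.2 ?_
    rintro C ⟨hC1, hC2⟩
    exact h2 C (exClosed_rclosed (fun a => hC1 (Or.inl (Or.inl (hrange a))))
      (fun a => hC1 (hcC a)) hC2) ν
  · refine Set.sInter_subset_of_mem ⟨?_, rclosed_exClosed h1⟩
    rintro y ((⟨a, rfl⟩ | hy) | ⟨j, rfl⟩)
    · exact r1 (show ℕ from a)
    · obtain ⟨i, hi, hiy⟩ := List.getElem_of_mem ((hLFmem y).2 hy)
      have := r2 i
      simp only [c, if_pos (show i < n0 from hi)] at this
      rw [List.getD_eq_getElem _ _ hi, hiy] at this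
      exact this
    · have := r2 (n0 + j)
      rw [hcge _ (by omega), show n0 + j - n0 = j by omega] at this
      exact this

/-- `N` is existentially closed in `M` -/
def ExistentiallyClosedIn {M : Type} [(Lg sig).Structure M] (N : (Lg sig).Substructure M) : Prop :=
  ∀ (n : ℕ) (θ : (Lg sig).Formula (N ⊕ Fin n)), θ.IsQF →
    (∃ z : Fin n → M, θ.Realize (Sum.elim (fun a => (a : M)) z)) →
    ∃ z : Fin n → N, θ.Realize (M := N) (Sum.elim id z)

theorem ecl_subset {M : Type} [(Lg sig).Structure M] (S : Set M) : S ⊆ ecl sig S :=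
  Set.subset_sInter fun _ hC => hC.1

theorem ExAlg.mono {M : Type} [(Lg sig).Structure M] {C C' : Set M} (h : C ⊆ C') {x : M}
    (hx : ExAlg sig C x) : ExAlg sig C' x := by
  obtain ⟨n, θ, hq, ⟨z, hz⟩, hfin⟩ := hx
  let g : (C ⊕ Unit) ⊕ Fin n → (C' ⊕ Unit) ⊕ Fin n := Sum.map (Sum.map (Set.inclusion h) id) id
  have key : ∀ (y : M) (z : Fin n → M), (θ.relabel g).Realize
      (Sum.elim (Sum.elim (fun a : C' => (a : M)) fun _ => y) z) ↔
      θ.Realize (Sum.elim (Sum.elim (fun a : C => (a : M)) fun _ => y) z) := by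
    intro y z
    rw [Formula.realize_relabel]
    refine iff_of_eq (congrArg _ ?_)
    funext w
    rcases w with (w | w) | w <;> rfl
  refine ⟨n, θ.relabel g, BoundedFormula.IsQF.relabel hq _, ⟨z, (key x z).2 hz⟩, ?_⟩
  refine hfin.subset ?_
  rintro y ⟨z, hz⟩
  exact ⟨z, (key y z).1 hz⟩

theorem ecl_closed {M : Type} [(Lg sig).Structure M] (S : Set M) : ExClosed sig (ecl sig S) := by
  intro x hx
  refine Set.mem_sInter.2 ?_
  rintro C ⟨hC1, hC2⟩
  have hsub : ecl sig S ⊆ C := Set.sInter_subset_of_mem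
    (show C ∈ {C | S ⊆ C ∧ ExClosed sig C} from ⟨hC1, hC2⟩)
  exact hC2 x (hx.mono hsub)

theorem ec_sub {M : Str sig} (hmin : MinimalStr M) (N : (Lg sig).Substructure M.C)
    (hC : ExClosed sig (N : Set M.C)) (hinf : (N : Set M.C).Infinite) :
    ExistentiallyClosedIn N := by
  intro n θ hθ hz
  obtain ⟨z, hz⟩ := ec_of_closed hmin hC hinf n θ hθ hz
  refine ⟨z, ?_⟩
  have h1 := (BoundedFormula.IsQF.realize_embedding hθ N.subtype (v := Sum.elim id z)
    (xs := default)).1
  apply h1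
  have e1 : (⇑N.subtype ∘ Sum.elim id z : N ⊕ Fin n → M.C) =
      Sum.elim (fun a : N => (a : M.C)) (fun i => (z i : M.C)) := by
    funext t
    rcases t with t | t <;> rfl
  have e2 : (⇑N.subtype ∘ default : Fin 0 → M.C) = default := Subsingleton.elim _ _
  rw [e1, e2]
  exact hz

/-- The bundled main theorem. -/
theorem main2 {T : (Lg sig).Theory} (hT : StronglyMinimal T)
    (A : (Lg sig).Structure ℕ) (hA : ComputablePred (fun p : ℕ × List ℕ => Holds sig A p.1 p.2))
    (M : Str sig) [hM : T.Model M.C] (hcount : Countable M.C) (FM : (NS A).C ↪ₑ[Lg sig] M.C)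
    (F : Set M.C) (hF : F.Finite) :
    (∀ I : Set M.C, (∀ b ∈ I, ¬ Alg sig (Set.range FM ∪ F ∪ (I \ {b})) b) →
      ∃ N : (Lg sig).Substructure M.C, (N : Set M.C) = ecl sig (Set.range FM ∪ F ∪ I) ∧
        ExistentiallyClosedIn N ∧ HasDelta3Copy (sig := sig) N) ∧
    ∃ N : (Lg sig).Substructure M.C, Set.range FM ⊆ N ∧ F ⊆ N ∧ (∀ x, Alg sig (N : Set M.C) x) ∧
      ExistentiallyClosedIn N ∧ HasDelta3Copy (sig := sig) N := by
  classical
  have core : ∀ (d : ℕ → M.C) (tl : ℕ → ℕ), Primrec tl →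
      (∀ j, (tl j = 2 ∧ ¬ Alg sig (Set.range FM ∪ F ∪ {x | ∃ j' < j, d j' = x}) (d j)) ∨
      (tl j = 0 ∧ d j = FM (show (NS A).C from (0 : ℕ)))) →
      ∃ N : (Lg sig).Substructure M.C,
        (N : Set M.C) = ecl sig (Set.range FM ∪ F ∪ Set.range d) ∧
        ExistentiallyClosedIn N ∧ HasDelta3Copy (sig := sig) N := by
    intro d tl htl hd
    obtain ⟨h, h1, h2, h3⟩ := core2 hT A hA M FM F hF _ rfl d tl htl hd
    let N : (Lg sig).Substructure M.C := ⟨Set.range h, fun {n} (g : Empty) => Empty.elim g⟩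
    have hN : (N : Set M.C) = Set.range h := rfl
    have hν : ∀ ν, h ν ∈ N := fun ν => ⟨ν, rfl⟩
    let h' : ℕ → N := fun ν => ⟨h ν, hν ν⟩
    let NN : Str sig := ⟨N, inferInstance, ⟨h' 0⟩⟩
    have hsurj : Function.Surjective h' := by
      rintro ⟨x, ν, hν⟩
      exact ⟨ν, Subtype.ext hν⟩
    have hrng : ∀ a : ℕ, FM (show (NS A).C from a) ∈ Set.range h := by
      intro a
      rw [h1]
      exact ecl_subset _ (Or.inl (Or.inl ⟨_, rfl⟩))
    have hinj : Function.Injective (fun a : ℕ => FM (show (NS A).C from a)) :=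
      fun a b hab => FM.injective hab
    have hinf : Infinite NN.C := by
      refine Infinite.of_injective
        (fun a : ℕ => (⟨FM (show (NS A).C from a), hrng a⟩ : N)) ?_
      intro a b hab
      exact hinj (congrArg Subtype.val hab)
    have hfact : ∀ p : ℕ × List ℕ, HoldE NN p.1 (p.2.map h') ↔ HoldE M p.1 (p.2.map h) := by
      intro p
      have := holdE_sub N (h' 0) p.1 (p.2.map h')
      rw [List.map_map] at this
      exact this
    refine ⟨N, h1, ec_sub (hT.min M) N ?_ ?_, ?_⟩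
    · rw [hN, h1]
      exact ecl_closed _
    · rw [hN]
      exact (Set.infinite_range_of_injective hinj).mono (by rintro _ ⟨a, rfl⟩; exact hrng a)
    · exact copy_of_numbering (M := NN) hinf h' hsurj (h2.congr fun p => (hfact p).symm)
        (h3.congr fun p => not_congr (hfact p).symm)
  constructor
  · intro I hI
    obtain ⟨d, tl, htl, hd1, hd2, hd3⟩ := enum_indep (FM (show (NS A).C from (0 : ℕ))) I
      (Set.to_countable I)
    have hset : Set.range FM ∪ F ∪ Set.range d = Set.range FM ∪ F ∪ I := by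
      refine Set.Subset.antisymm ?_ ?_
      · rintro x (hx | ⟨j, rfl⟩)
        · exact Or.inl hx
        · rcases hd1 j with ⟨_, h⟩ | ⟨_, h⟩
          · exact Or.inr h
          · rw [h]; exact Or.inl (Or.inl ⟨_, rfl⟩)
      · rintro x (hx | hx)
        · exact Or.inl hx
        · obtain ⟨j, hj⟩ := hd3 x hx
          exact Or.inr ⟨j, hj⟩
    rw [← hset]
    refine core d tl htl fun j => ?_
    rcases hd1 j with ⟨g1, g2⟩ | ⟨g1, g2⟩
    · left
      refine ⟨g1, fun hcon => hI _ g2 (hcon.mono ?_)⟩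
      rintro x (hx | ⟨j', hj', rfl⟩)
      · exact Or.inl hx
      · rcases hd1 j' with ⟨k1, k2⟩ | ⟨k1, k2⟩
        · refine Or.inr ⟨k2, fun heq => ?_⟩
          rw [Set.mem_singleton_iff] at heq
          have := hd2 _ _ k1 g1 heq
          omega
        · rw [k2]; exact Or.inl (Or.inl ⟨_, rfl⟩)
    · exact Or.inr ⟨g1, g2⟩
  · obtain ⟨d, tl, htl, hd, hall⟩ := exists_seq hcount (Set.range FM ∪ F)
      (FM (show (NS A).C from (0 : ℕ)))
    obtain ⟨N, hN, hec, hcopy⟩ := core d tl htl hd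
    have hsub : Set.range FM ∪ F ∪ Set.range d ⊆ (N : Set M.C) := by
      rw [hN]; exact ecl_subset _
    refine ⟨N, fun x hx => hsub (Or.inl (Or.inl hx)), fun x hx => hsub (Or.inl (Or.inr hx)), ?_,
      hec, hcopy⟩
    intro x
    exact (hall x).mono hsub

end FD55
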