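import Mathlib
import Pool.Agent.Lib.MP_fd2900_lc.H55.Final3
import Pool.Agent.Lib.MP_fd2900_lc.H55.Exchange

/-!
The main theorem: independent sets over the computable model and arbitrary finite sets.
-/

namespace FD55

open FirstOrder FirstOrder.Language

variable {sig : ℕ → Option ℕ}

theorem main3 {T : (Lg sig).Theory} (hT : StronglyMinimal T)
    (A : (Lg sig).Structure ℕ) (hA : ComputablePred (fun p : ℕ × List ℕ => Holds sig A p.1 p.2))
    (M : Str sig) [hM : T.Model M.C] (hcount : Countable M.C) (FM : (NS A).C ↪ₑ[Lg sig] M.C)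
    (I : Set M.C) (hI : ∀ b ∈ I, ¬ Alg sig (Set.range FM ∪ (I \ {b})) b)
    (F : Set M.C) (hF : F.Finite) :
    ∃ N : (Lg sig).Substructure M.C, (N : Set M.C) = ecl sig (Set.range FM ∪ I ∪ F) ∧
      ExistentiallyClosedIn N ∧ HasDelta3Copy (sig := sig) N := by
  have hinf : Infinite M.C := hT.infinite M.C
  obtain ⟨I0, h1, h2, h3⟩ := indep_finite (hT.min M) hinf (Set.range FM) I hI F hF
  obtain ⟨N, hN, hec, hcopy⟩ := (main2 hT A hA M hcount FM (F ∪ I0) (hF.union h2)).1 (I \ I0) h3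
  refine ⟨N, ?_, hec, hcopy⟩
  rw [hN]
  congr 1
  ext x
  constructor
  · rintro ((hx | (hx | hx)) | hx)
    · exact Or.inl (Or.inl hx)
    · exact Or.inr hx
    · exact Or.inl (Or.inr (h1 hx))
    · exact Or.inl (Or.inr hx.1)
  · rintro ((hx | hx) | hx)
    · exact Or.inl (Or.inl hx)
    · by_cases hx0 : x ∈ I0
      · exact Or.inl (Or.inr (Or.inr hx0))
      · exact Or.inr ⟨hx, hx0⟩
    · exact Or.inl (Or.inr (Or.inl hx))

end FD55
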